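import Pool.Agent.Q30.FJ.Crit
import Pool.Agent.Y812.SS.Wr

set_option autoImplicit false

/-!
# HNN extensions and endomorphisms: the group of eventually compatible sequences
-/

namespace Pool.Agent.V5helper8.EH

open Filter
open Pool.Agent.Y110.FJ (ClosedE Realized)
open Pool.Agent.Y462.SS (Closed Wr)

/-- the mapping torus of `ψ` is in the class: some group in the class contains an element `τ` and is
the target of a homomorphism `j` with `τ j(m) τ⁻¹ = j(ψ m)`, the kernel of which consists of the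
elements killed by a power of `ψ` -/
def HasTorus (C : ∀ (G : Type) [Group G], Prop) {M : Type} [Group M] (ψ : M →* M) : Prop :=
  ∃ (Q : Type) (_ : Group Q) (j : M →* Q) (τ : Q), C Q ∧ (∀ m, τ * j m * τ⁻¹ = j (ψ m)) ∧
    ∀ m, j m = 1 → ∃ n : ℕ, ψ^[n] m = 1

/-- sequences with a shift -/
@[ext] structure Sh (M : Type) where
  s : ℤ → M
  n : ℤ

namespace Sh

variable {M : Type} [Group M]

instance : Mul (Sh M) := ⟨fun a b => ⟨fun i => a.s (i + b.n) * b.s i, a.n + b.n⟩⟩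
instance : One (Sh M) := ⟨⟨fun _ => 1, 0⟩⟩
instance : Inv (Sh M) := ⟨fun a => ⟨fun i => (a.s (i - a.n))⁻¹, -a.n⟩⟩

@[simp] theorem mul_s (a b : Sh M) (i : ℤ) : (a * b).s i = a.s (i + b.n) * b.s i := rfl
@[simp] theorem mul_n (a b : Sh M) : (a * b).n = a.n + b.n := rfl
@[simp] theorem one_s (i : ℤ) : (1 : Sh M).s i = 1 := rfl
@[simp] theorem one_n : (1 : Sh M).n = 0 := rfl
@[simp] theorem inv_s (a : Sh M) (i : ℤ) : (a⁻¹).s i = (a.s (i - a.n))⁻¹ := rfl
@[simp] theorem inv_n (a : Sh M) : (a⁻¹).n = -a.n := rfl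

instance : Group (Sh M) :=
  Group.ofLeftAxioms
    (fun a b c => by
      ext i
      · simp only [mul_s, mul_n, mul_assoc]
        rw [show i + c.n + b.n = i + (b.n + c.n) by ring]
      · simp only [mul_n]
        ring)
    (fun a => by
      ext i
      · simp
      · simp)
    (fun a => by
      ext i
      · simp
      · simp)

end Sh

section

variable {M : Type} [Group M]

/-- the sequence is eventually compatible with `ψ` in the direction `ε` -/
def Ev (ε : ℤ) (ψ : M →* M) (w : Sh M) : Prop :=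
  ∀ᶠ i : ℤ in atTop, w.s (ε * (i + 1)) = ψ (w.s (ε * i))

theorem ev_shift {P : ℤ → Prop} (h : ∀ᶠ i : ℤ in atTop, P i) (c : ℤ) :
    ∀ᶠ i : ℤ in atTop, P (i + c) :=
  (tendsto_atTop_add_const_right atTop c tendsto_id).eventually h

theorem Ev.one (ε : ℤ) (ψ : M →* M) : Ev ε ψ 1 :=
  Eventually.of_forall fun i => by simp

theorem Ev.mul {ε : ℤ} (hε : ε * ε = 1) {ψ : M →* M} {a b : Sh M} (ha : Ev ε ψ a)
    (hb : Ev ε ψ b) : Ev ε ψ (a * b) := by
  filter_upwards [ev_shift ha (ε * b.n), hb] with i h1 h2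
  have e1 : ε * (i + ε * b.n + 1) = ε * (i + 1) + b.n := by
    linear_combination b.n * hε
  have e2 : ε * (i + ε * b.n) = ε * i + b.n := by
    linear_combination b.n * hε
  rw [e1, e2] at h1
  rw [Sh.mul_s, Sh.mul_s, map_mul, h1, h2]

theorem Ev.inv {ε : ℤ} (hε : ε * ε = 1) {ψ : M →* M} {a : Sh M} (ha : Ev ε ψ a) :
    Ev ε ψ a⁻¹ := by
  filter_upwards [ev_shift ha (-(ε * a.n))] with i h1
  have e1 : ε * (i + -(ε * a.n) + 1) = ε * (i + 1) - a.n := by
    linear_combination (-a.n) * hε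
  have e2 : ε * (i + -(ε * a.n)) = ε * i - a.n := by
    linear_combination (-a.n) * hε
  rw [e1, e2] at h1
  rw [Sh.inv_s, Sh.inv_s, map_inv, h1]

/-- the sequences which are eventually compatible with `β` (to the right) and `α` (to the left) -/
def Pg (α β : M →* M) : Subgroup (Sh M) where
  carrier := {w | Ev 1 β w ∧ Ev (-1) α w}
  mul_mem' ha hb := ⟨ha.1.mul (by norm_num) hb.1, ha.2.mul (by norm_num) hb.2⟩
  one_mem' := ⟨Ev.one _ _, Ev.one _ _⟩
  inv_mem' ha := ⟨ha.1.inv (by norm_num), ha.2.inv (by norm_num)⟩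

/-! ## the homomorphism at an end -/

variable {Q : Type} [Group Q]

/-- the value at `i` -/
def rr (ε : ℤ) (j : M →* Q) (τ : Q) (w : Sh M) (i : ℤ) : Q :=
  τ ^ (-(i + ε * w.n)) * j (w.s (ε * i)) * τ ^ i

theorem rr_const {ε : ℤ} {ψ : M →* M} {j : M →* Q} {τ : Q} (hτ : ∀ m, τ * j m * τ⁻¹ = j (ψ m))
    {w : Sh M} (hw : Ev ε ψ w) : ∃ q, ∀ᶠ i : ℤ in atTop, rr ε j τ w i = q := by
  obtain ⟨K, hK⟩ := eventually_atTop.1 hw
  refine ⟨rr ε j τ w K, eventually_atTop.2 ⟨K, fun i hi => ?_⟩⟩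
  induction i, hi using Int.leInduction with
  | base => rfl
  | succ i hi ih =>
    rw [← ih]
    unfold rr
    rw [hK i hi, ← hτ]
    have e1 : -(i + 1 + ε * w.n) = -(i + ε * w.n) - 1 := by ring
    rw [e1, zpow_sub_one, zpow_add_one]
    group

/-- the homomorphism at the end `ε` -/
theorem end_hom {ε : ℤ} (hε : ε * ε = 1) {ψ : M →* M} {j : M →* Q} {τ : Q}
    (hτ : ∀ m, τ * j m * τ⁻¹ = j (ψ m)) (P : Subgroup (Sh M)) (hP : ∀ w ∈ P, Ev ε ψ w) :
    ∃ ρ : P →* Q, ∀ w : P, ∀ᶠ i : ℤ in atTop, rr ε j τ w i = ρ w := by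
  choose f hf using fun w : P => rr_const hτ (hP w w.2)
  refine ⟨MonoidHom.mk' f fun a b => ?_, hf⟩
  have h1 := ev_shift (hf a) (ε * (b : Sh M).n)
  obtain ⟨i, h2, h3, h4⟩ := (h1.and ((hf b).and (hf (a * b)))).exists
  rw [← h2, ← h3, ← h4]
  unfold rr
  have e1 : ε * (i + ε * (b : Sh M).n) = ε * i + (b : Sh M).n := by
    linear_combination (b : Sh M).n * hε
  rw [e1, Subgroup.coe_mul, Sh.mul_s, Sh.mul_n, map_mul]
  have e2 : -(i + ε * ((a : Sh M).n + (b : Sh M).n)) =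
      -(i + ε * (b : Sh M).n + ε * (a : Sh M).n) := by ring
  have e3 : τ ^ (i + ε * (b : Sh M).n) * τ ^ (-(i + ε * (b : Sh M).n)) = 1 := by
    rw [← zpow_add, add_neg_cancel, zpow_zero]
  rw [e2]
  have e4 : τ ^ (-(i + ε * (b : Sh M).n + ε * (a : Sh M).n)) *
      j ((a : Sh M).s (ε * i + (b : Sh M).n)) * τ ^ (i + ε * (b : Sh M).n) *
      (τ ^ (-(i + ε * (b : Sh M).n)) * j ((b : Sh M).s (ε * i)) * τ ^ i) =
      τ ^ (-(i + ε * (b : Sh M).n + ε * (a : Sh M).n)) *
      j ((a : Sh M).s (ε * i + (b : Sh M).n)) *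
      (τ ^ (i + ε * (b : Sh M).n) * τ ^ (-(i + ε * (b : Sh M).n))) *
      (j ((b : Sh M).s (ε * i)) * τ ^ i) := by
    simp only [mul_assoc]
  rw [e4, e3, mul_one]
  simp only [mul_assoc]

/-- elements of the kernel vanish near the end -/
theorem end_ker {ε : ℤ} {ψ : M →* M} {j : M →* Q} {τ : Q} (hj : ∀ m, j m = 1 →
    ∃ n : ℕ, ψ^[n] m = 1) {w : Sh M} (hw : Ev ε ψ w) (hn : w.n = 0)
    (h : ∀ᶠ i : ℤ in atTop, rr ε j τ w i = 1) : ∀ᶠ i : ℤ in atTop, w.s (ε * i) = 1 := by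
  obtain ⟨K, hK⟩ := eventually_atTop.1 (hw.and h)
  have h1 := (hK K le_rfl).2
  unfold rr at h1
  rw [hn, mul_zero, add_zero, zpow_neg] at h1
  have h2 : j (w.s (ε * K)) = 1 := by
    have h3 : j (w.s (ε * K)) = τ ^ K * ((τ ^ K)⁻¹ * j (w.s (ε * K)) * τ ^ K) * (τ ^ K)⁻¹ := by
      group
    rw [h3, h1]
    group
  obtain ⟨n, hn⟩ := hj _ h2
  have h3 : ∀ k : ℕ, w.s (ε * (K + k)) = ψ^[k] (w.s (ε * K)) := by
    intro k
    induction k with
    | zero => simp
    | succ k ih =>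
      have h4 := (hK (K + k) (by omega)).1
      rw [Function.iterate_succ_apply', ← ih, ← h4]
      congr 2
      push_cast
      ring
  refine eventually_atTop.2 ⟨K + n, fun i hi => ?_⟩
  induction i, hi using Int.leInduction with
  | base => rw [h3, hn]
  | succ i hi ih => rw [(hK i (by omega)).1, ih, map_one]

end

/-! ## conjugation on finitely supported sequences -/

section

variable {M : Type} [Group M] {C : ∀ (G : Type) [Group G], Prop}

/-- the window -/
abbrev Wi (K : ℕ) : Type := ↥(Finset.Icc (-(K : ℤ)) K)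

/-- sequences supported in the window -/
def SuppIn (K : ℕ) (w : Sh M) : Prop := w.n = 0 ∧ ∀ i : ℤ, i ∉ Finset.Icc (-(K : ℤ)) K → w.s i = 1

theorem realize (hC : ClosedE C) (hM : C M) (P : Subgroup (Sh M)) (g : P) (E : Set P) (K : ℕ)
    (h1 : ∀ x ∈ E, SuppIn K (x : Sh M)) (h2 : ∀ x ∈ E, SuppIn K ((g * x * g⁻¹ : P) : Sh M)) :
    Realized C g E := by
  classical
  let S : Subgroup P :=
    { carrier := {x | SuppIn K (x : Sh M)}
      mul_mem' := by
        rintro a b ⟨ha, ha'⟩ ⟨hb, hb'⟩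
        refine ⟨?_, fun i hi => ?_⟩
        · rw [Subgroup.coe_mul, Sh.mul_n, ha, hb, add_zero]
        · rw [Subgroup.coe_mul, Sh.mul_s, hb, add_zero, ha' i hi, hb' i hi, mul_one]
      one_mem' := ⟨rfl, fun i _ => rfl⟩
      inv_mem' := by
        rintro a ⟨ha, ha'⟩
        refine ⟨?_, fun i hi => ?_⟩
        · rw [Subgroup.coe_inv, Sh.inv_n, ha, neg_zero]
        · rw [Subgroup.coe_inv, Sh.inv_s, ha, sub_zero, ha' i hi, inv_one] }
  have hle : Subgroup.closure (E ∪ (fun x => g * x * g⁻¹) '' E) ≤ S := by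
    rw [Subgroup.closure_le]
    rintro x (hx | ⟨y, hy, rfl⟩)
    · exact h1 x hx
    · exact h2 y hy
  let f : ↥(Subgroup.closure (E ∪ (fun x => g * x * g⁻¹) '' E)) →* Wr (Wi K) M :=
    MonoidHom.mk' (fun x => ⟨fun i => ((x : P) : Sh M).s i, 1⟩) (by
      intro x y
      refine Wr.ext ?_ ?_
      · funext i
        show ((x : P) : Sh M).s ((i : ℤ) + ((y : P) : Sh M).n) * ((y : P) : Sh M).s i =
          ((x : P) : Sh M).s i * ((y : P) : Sh M).s i
        rw [(hle y.2).1, add_zero]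
      · exact (mul_one _).symm)
  let n : ℤ := (g : Sh M).n
  let e : {x : Wi K // (x : ℤ) + n ∈ Finset.Icc (-(K : ℤ)) K} ≃
      {y : Wi K // (y : ℤ) - n ∈ Finset.Icc (-(K : ℤ)) K} :=
    { toFun := fun x => ⟨⟨(x.1 : ℤ) + n, x.2⟩, by
        show ((x.1 : ℤ) + n) - n ∈ _
        rw [add_sub_cancel_right]; exact x.1.2⟩
      invFun := fun y => ⟨⟨(y.1 : ℤ) - n, y.2⟩, by
        show ((y.1 : ℤ) - n) + n ∈ _
        rw [sub_add_cancel]; exact y.1.2⟩
      left_inv := by
        intro x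
        apply Subtype.ext; apply Subtype.ext
        show ((x.1 : ℤ) + n) - n = x.1
        ring
      right_inv := by
        intro y
        apply Subtype.ext; apply Subtype.ext
        show ((y.1 : ℤ) - n) + n = y.1
        ring }
  let π : Equiv.Perm (Wi K) := e.extendSubtype
  have hW : C (Wr (Wi K) M) :=
    Pool.Agent.Y812.SS.t_wr C hC.base (Wi K) M inferInstance hM
  refine ⟨Wr (Wi K) M, inferInstance, f, ⟨fun i => (g : Sh M).s i, π⟩, hW, ?_, ?_⟩
  · intro x y hxy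
    apply Subtype.ext; apply Subtype.ext
    have h3 : ∀ i : Wi K, ((x : P) : Sh M).s i = ((y : P) : Sh M).s i := fun i =>
      congrFun (congrArg Wr.s hxy) i
    refine Sh.ext ?_ ?_
    · funext i
      by_cases hi : i ∈ Finset.Icc (-(K : ℤ)) K
      · exact h3 ⟨i, hi⟩
      · rw [(hle x.2).2 i hi, (hle y.2).2 i hi]
    · rw [(hle x.2).1, (hle y.2).1]
  · intro x y hx hy
    rw [eq_mul_inv_iff_mul_eq]
    have hyg : (y : P) * g = g * x := by rw [hy]; group
    have key : ∀ i : ℤ, ((y : P) : Sh M).s (i + n) * (g : Sh M).s i =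
        (g : Sh M).s i * ((x : P) : Sh M).s i := by
      intro i
      have h3 := congrArg (fun z : P => (z : Sh M).s i) hyg
      have h4 : ((y : P) : Sh M).s (i + (g : Sh M).n) * (g : Sh M).s i =
        (g : Sh M).s (i + ((x : P) : Sh M).n) * ((x : P) : Sh M).s i := h3
      rw [(hle x.2).1, add_zero] at h4
      exact h4
    refine Wr.ext ?_ ?_
    · funext i
      show ((y : P) : Sh M).s (π i) * (g : Sh M).s i = (g : Sh M).s i * ((x : P) : Sh M).s i
      by_cases hi : (i : ℤ) + n ∈ Finset.Icc (-(K : ℤ)) K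
      · have h5 : π i = e ⟨i, hi⟩ := Equiv.extendSubtype_apply_of_mem e i hi
        rw [h5]
        exact key i
      · have h5 := key i
        rw [(hle y.2).2 _ hi, one_mul] at h5
        have h6 : ((x : P) : Sh M).s i = 1 := by
          have h7 : (g : Sh M).s i * 1 = (g : Sh M).s i * ((x : P) : Sh M).s i := by
            rw [mul_one]; exact h5
          exact (mul_left_cancel h7).symm
        have h7 : ¬ ((π i : ℤ) - n ∈ Finset.Icc (-(K : ℤ)) K) :=
          Equiv.extendSubtype_not_mem e i hi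
        have h8 := key ((π i : ℤ) - n)
        rw [sub_add_cancel, (hle x.2).2 _ h7, mul_one] at h8
        rw [mul_eq_right.1 h8, h6, one_mul, mul_one]
    · show 1 * π = π * 1
      rw [one_mul, mul_one]

/-- **the group of eventually compatible sequences is in the class** -/
theorem C_Pg (hC : ClosedE C) (hM : C M) {α β : M →* M} (hα : HasTorus C α)
    (hβ : HasTorus C β) : C (Pg α β) := by
  obtain ⟨Q₁, _, j₁, τ₁, c1, c2, c3⟩ := hβ
  obtain ⟨Q₂, _, j₂, τ₂, d1, d2, d3⟩ := hα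
  obtain ⟨ρ₁, hρ₁⟩ := end_hom (ε := 1) (by norm_num) c2 (Pg α β) (fun w hw => hw.1)
  obtain ⟨ρ₂, hρ₂⟩ := end_hom (ε := -1) (by norm_num) d2 (Pg α β) (fun w hw => hw.2)
  let ρ₃ : Pg α β →* Multiplicative ℤ :=
    MonoidHom.mk' (fun w => Multiplicative.ofAdd (w : Sh M).n) fun a b => rfl
  let ρ : Pg α β →* (Q₁ × Q₂) × Multiplicative ℤ := (ρ₁.prod ρ₂).prod ρ₃
  have hker : ∀ x ∈ ρ.ker, ∃ K : ℕ, SuppIn K (x : Sh M) := by
    intro x hx
    have hx' : ρ x = 1 := hx
    have h1 : ρ₁ x = 1 := congrArg (fun z : (Q₁ × Q₂) × Multiplicative ℤ => z.1.1) hx'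
    have h2 : ρ₂ x = 1 := congrArg (fun z : (Q₁ × Q₂) × Multiplicative ℤ => z.1.2) hx'
    have h3 : (x : Sh M).n = 0 := 
      congrArg (fun z : (Q₁ × Q₂) × Multiplicative ℤ => Multiplicative.toAdd z.2) hx'
    have h4 := hρ₁ x
    have h5 := hρ₂ x
    rw [h1] at h4
    rw [h2] at h5
    obtain ⟨K₁, hK₁⟩ := eventually_atTop.1 (end_ker c3 x.2.1 h3 h4)
    obtain ⟨K₂, hK₂⟩ := eventually_atTop.1 (end_ker d3 x.2.2 h3 h5)
    refine ⟨(max K₁ K₂).toNat, h3, fun i hi => ?_⟩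
    rw [Finset.mem_Icc, not_and_or, not_le, not_le] at hi
    rcases hi with hi | hi
    · have h6 := hK₂ (-i) (by omega)
      rwa [neg_one_mul, neg_neg] at h6
    · have h6 := hK₁ i (by omega)
      rwa [one_mul] at h6
  refine Q30.FJ.crit C hC (Pg α β) ρ.ker ?_ ?_
  · exact hC.base.of_injective _ _ (QuotientGroup.kerLift ρ) (QuotientGroup.kerLift_injective ρ)
      (hC.base.prod _ _ (hC.base.prod _ _ c1 d1) hC.base.int)
  · intro g E hE hEN
    have hx : ∀ x ∈ E, ∃ K : ℕ, SuppIn K (x : Sh M) ∧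
        SuppIn K ((g * x * g⁻¹ : Pg α β) : Sh M) := by
      intro x hx
      obtain ⟨K₁, a1, a2⟩ := hker x (hEN hx)
      obtain ⟨K₂, b1, b2⟩ := hker (g * x * g⁻¹) (Subgroup.Normal.conj_mem inferInstance x (hEN hx) g)
      refine ⟨max K₁ K₂, ⟨a1, fun i hi => a2 i ?_⟩, ⟨b1, fun i hi => b2 i ?_⟩⟩
      · rw [Finset.mem_Icc] at hi ⊢
        push_cast at hi
        omega
      · rw [Finset.mem_Icc] at hi ⊢
        push_cast at hi
        omega
    choose! K hK using hx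
    obtain ⟨B, hB⟩ := (hE.image K).bddAbove
    have hmono : ∀ {k : ℕ} {w : Sh M}, SuppIn k w → k ≤ B → SuppIn B w := by
      intro k w hw hk
      refine ⟨hw.1, fun i hi => hw.2 i ?_⟩
      rw [Finset.mem_Icc] at hi ⊢
      omega
    exact realize hC hM (Pg α β) g E B
      (fun x hx => hmono (hK x hx).1 (hB ⟨x, hx, rfl⟩))
      (fun x hx => hmono (hK x hx).2 (hB ⟨x, hx, rfl⟩))

end

end Pool.Agent.V5helper8.EH
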