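import Mathlib

set_option autoImplicit false

/-!
# Reduced products in free groups
-/

namespace Pool.Agent.V5helper8.EH

open FreeGroup

/-- a middle part of a reduced word is reduced -/
theorem mid_red {I : Type} {L L' : List (I × Bool)} (h : IsReduced L')
    (h' : ∃ s t, s ++ L ++ t = L') : IsReduced L := by
  rcases h' with ⟨s, t, rfl⟩
  exact (List.IsChain.left_of_append h).right_of_append

variable {I : Type} [DecidableEq I]

/-- the product of `u` and `v` is reduced -/
def Rd (u v : FreeGroup I) : Prop := (u * v).toWord = u.toWord ++ v.toWord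

theorem Rd_of_isReduced {u v : FreeGroup I} (h : IsReduced (u.toWord ++ v.toWord)) : Rd u v := by
  unfold Rd
  rw [toWord_mul]
  exact h.reduce_eq

theorem Rd.isReduced {u v : FreeGroup I} (h : Rd u v) : IsReduced (u.toWord ++ v.toWord) := by
  rw [← h]
  exact isReduced_toWord

theorem Rd_iff {u v : FreeGroup I} : Rd u v ↔ ∀ x ∈ u.toWord.getLast?, ∀ y ∈ v.toWord.head?,
    x.1 = y.1 → x.2 = y.2 := by
  constructor
  · intro h
    exact (List.isChain_append.1 h.isReduced).2.2
  · intro h
    exact Rd_of_isReduced (List.isChain_append.2 ⟨isReduced_toWord, isReduced_toWord, h⟩)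

theorem Rd.norm {u v : FreeGroup I} (h : Rd u v) : norm (u * v) = norm u + norm v := by
  unfold FreeGroup.norm
  rw [h, List.length_append]

theorem Rd_of_norm {u v : FreeGroup I} (h : norm (u * v) = norm u + norm v) : Rd u v := by
  unfold Rd
  have h1 : Red (u.toWord ++ v.toWord) (u * v).toWord := by
    rw [toWord_mul]
    exact reduce.red
  refine h1.sublist.eq_of_length ?_
  rw [List.length_append]
  exact h

theorem toWord_of_isReduced {L : List (I × Bool)} (h : IsReduced L) : (mk L).toWord = L := by
  rw [toWord_mk]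
  exact h.reduce_eq

/-- a letter -/
def lt (x : I × Bool) : FreeGroup I := mk [x]

theorem toWord_lt (x : I × Bool) : (lt x).toWord = [x] := toWord_of_isReduced IsReduced.singleton

theorem norm_lt (x : I × Bool) : norm (lt x) = 1 := by
  unfold FreeGroup.norm
  rw [toWord_lt]
  rfl

/-- cancellation -/
theorem cancel (L₁ : List (I × Bool)) : ∀ L₂ : List (I × Bool), IsReduced L₁ → IsReduced L₂ →
    ∃ p q r : List (I × Bool), L₁ = p ++ q ∧ L₂.length = q.length + r.length ∧
      reduce (L₁ ++ L₂) = p ++ r := by
  induction L₁ using List.reverseRecOn with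
  | nil =>
    intro L₂ _ h2
    exact ⟨[], [], L₂, rfl, by simp, h2.reduce_eq⟩
  | append_singleton L₁ x ih =>
    intro L₂ h1 h2
    by_cases hx : ∃ L', L₂ = (x.1, !x.2) :: L'
    · obtain ⟨L', rfl⟩ := hx
      have h1' : IsReduced L₁ := mid_red h1 ⟨[], [x], by simp⟩
      have h2' : IsReduced L' := mid_red h2 ⟨[(x.1, !x.2)], [], by simp⟩
      obtain ⟨p, q, r, e1, e2, e3⟩ := ih L' h1' h2'
      refine ⟨p, q ++ [x], r, by rw [e1, List.append_assoc], ?_, ?_⟩
      · simp only [List.length_cons, List.length_append, List.length_nil]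
        omega
      · rw [← e3]
        have h3 : Red.Step (L₁ ++ [x] ++ (x.1, !x.2) :: L') (L₁ ++ L') := by
          have := @Red.Step.not I L₁ L' x.1 x.2
          simpa using this
        exact reduce.Step.eq h3
    · refine ⟨L₁ ++ [x], [], L₂, by simp, by simp, ?_⟩
      refine IsReduced.reduce_eq (List.isChain_append.2 ⟨h1, h2, ?_⟩)
      intro a ha b hb hab
      have ha' : a = x := by
        rw [List.getLast?_concat] at ha
        exact (Option.mem_some.1 ha).symm
      subst ha'
      by_contra hne
      apply hx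
      cases L₂ with
      | nil => simp at hb
      | cons c L' =>
        refine ⟨L', ?_⟩
        have hb' : c = b := by simpa using hb
        subst hb'
        congr 1
        apply Prod.ext
        · exact hab.symm
        · show c.2 = !a.2
          cases h4 : a.2 <;> cases h5 : c.2 <;> simp_all

/-- multiplication by one letter on the left does not change the last letter -/
theorem last_lt {y x : I × Bool} {w : FreeGroup I} (hw : w ≠ 1) (h : Rd w (lt x)) :
    Rd (lt y * w) (lt x) := by
  rw [Rd_iff] at h ⊢
  intro a ha b hb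
  have hwl : w.toWord ≠ [] := fun h0 => hw (toWord_eq_nil_iff.1 h0)
  obtain ⟨p, q, r, e1, e2, e3⟩ := cancel [y] w.toWord IsReduced.singleton isReduced_toWord
  rw [toWord_mul, toWord_lt, e3] at ha
  -- two cases
  by_cases hc : ∃ L', w.toWord = (y.1, !y.2) :: L'
  · obtain ⟨L', hL'⟩ := hc
    have h1 : reduce ([y] ++ w.toWord) = L' := by
      have h3 : Red.Step ([y] ++ w.toWord) L' := by
        rw [hL']
        have := @Red.Step.not I [] L' y.1 y.2
        simpa using this
      rw [reduce.Step.eq h3]
      have h4 : IsReduced w.toWord := isReduced_toWord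
      rw [hL'] at h4
      exact (mid_red h4 ⟨[(y.1, !y.2)], [], by simp⟩ : IsReduced L').reduce_eq
    rw [← e3, h1] at ha
    refine h a ?_ b hb
    rw [hL']
    cases L' with
    | nil => simp at ha
    | cons c L' => rwa [List.getLast?_cons_cons]
  · have h1 : IsReduced ([y] ++ w.toWord) := by
      refine List.isChain_append.2 ⟨IsReduced.singleton, isReduced_toWord, ?_⟩
      intro a' ha' b' hb' hab
      have ha2 : a' = y := by simpa using ha'.symm
      subst ha2
      by_contra hne
      apply hc
      cases hL : w.toWord with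
      | nil => exact absurd hL hwl
      | cons c L' =>
        refine ⟨L', ?_⟩
        rw [hL] at hb'
        have hb2 : c = b' := by simpa using hb'
        subst hb2
        congr 1
        apply Prod.ext
        · exact hab.symm
        · show c.2 = !a'.2
          cases h4 : a'.2 <;> cases h5 : c.2 <;> simp_all
    rw [← e3, h1.reduce_eq] at ha
    refine h a ?_ b hb
    cases hL : w.toWord with
    | nil => exact absurd hL hwl
    | cons c L' =>
      rw [hL] at ha
      rwa [List.singleton_append, List.getLast?_cons_cons] at ha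

theorem norm_le_mul (g w : FreeGroup I) : norm w ≤ norm g + norm (g * w) := by
  have h1 := norm_mul_le g⁻¹ (g * w)
  rwa [inv_mul_cancel_left, norm_inv_eq] at h1

theorem shift_list (L : List (I × Bool)) {x : I × Bool} : ∀ {w : FreeGroup I},
    L.length ≤ norm w → Rd w (lt x) → Rd (mk L * w) (lt x) := by
  induction L with
  | nil =>
    intro w _ h
    have : (mk [] : FreeGroup I) = 1 := rfl
    rwa [this, one_mul]
  | cons y L ih =>
    intro w hw h
    rw [List.length_cons] at hw
    have h1 : mk (y :: L) * w = lt y * (mk L * w) := by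
      rw [← mul_assoc]
      rfl
    rw [h1]
    refine last_lt ?_ (ih (by omega) h)
    intro h0
    have h2 := norm_le_mul (mk L) w
    have h3 := norm_mk_le (L₁ := L)
    rw [h0, FreeGroup.norm_one] at h2
    omega

/-- multiplication by `g` on the left does not change the last letter of long words -/
theorem shift {g w : FreeGroup I} {x : I × Bool} (hw : norm g ≤ norm w) (h : Rd w (lt x)) :
    Rd (g * w) (lt x) := by
  have := shift_list g.toWord hw h
  rwa [mk_toWord] at this

/-! ## cyclically reduced elements -/

theorem pow_Rd {g : FreeGroup I} (hg : Rd g g) (hg1 : g ≠ 1) : ∀ (j : ℕ) {u : FreeGroup I},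
    u.toWord.head? = g.toWord.head? → Rd (g ^ j) u := by
  have hgl : g.toWord ≠ [] := fun h0 => hg1 (toWord_eq_nil_iff.1 h0)
  have h0 : ∀ {u : FreeGroup I}, u.toWord.head? = g.toWord.head? → Rd g u := by
    intro u hu
    rw [Rd_iff] at hg ⊢
    rw [hu]
    exact hg
  intro j
  induction j with
  | zero =>
    intro u _
    unfold Rd
    rw [pow_zero, one_mul, toWord_one, List.nil_append]
  | succ j ih =>
    intro u hu
    have h1 := h0 hu
    have h2 : (g * u).toWord.head? = g.toWord.head? := by
      rw [h1, List.head?_append_of_ne_nil _ hgl]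
    have h3 := ih h2
    have h4 := ih (u := g) rfl
    unfold Rd at h1 h3 h4 ⊢
    rw [pow_succ, mul_assoc, h3, h1, h4, List.append_assoc]

theorem norm_pow {g : FreeGroup I} (hg : Rd g g) (hg1 : g ≠ 1) (j : ℕ) : j ≤ norm (g ^ j) := by
  induction j with
  | zero => exact Nat.zero_le _
  | succ j ih =>
    rw [pow_succ, (pow_Rd hg hg1 j rfl).norm]
    have : norm g ≠ 0 := fun h => hg1 (norm_eq_zero.1 h)
    omega

theorem head_of_norm_le {g h : FreeGroup I} (hg1 : g ≠ 1) (hh : norm h ≤ norm (g * h)) :
    (g * h).toWord.head? = g.toWord.head? := by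
  obtain ⟨p, q, r, e1, e2, e3⟩ := cancel g.toWord h.toWord isReduced_toWord isReduced_toWord
  have h1 : (g * h).toWord = p ++ r := by rw [toWord_mul, e3]
  unfold FreeGroup.norm at hh
  rw [h1, e2, List.length_append] at hh
  have hgl : g.toWord.length ≠ 0 := fun h0 => hg1 (toWord_eq_nil_iff.1 (List.length_eq_zero_iff.1 h0))
  rw [e1, List.length_append] at hgl
  have hp : p ≠ [] := by
    rintro rfl
    simp only [List.length_nil] at hh hgl
    omega
  rw [h1, e1, List.head?_append_of_ne_nil _ hp, List.head?_append_of_ne_nil _ hp]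

theorem Rd_inv {g : FreeGroup I} (hg : Rd g g) : Rd g⁻¹ g⁻¹ := by
  apply Rd_of_norm
  rw [← mul_inv_rev, norm_inv_eq, norm_inv_eq, hg.norm]

/-- every element is conjugate to a cyclically reduced one -/
theorem exists_cyc (g : FreeGroup I) : ∃ h : FreeGroup I, Rd (h * g * h⁻¹) (h * g * h⁻¹) := by
  obtain ⟨c, hc⟩ : ∃ c : FreeGroup I, c = mk (reduceCyclically.conjugator g.toWord) := ⟨_, rfl⟩
  obtain ⟨u, hu⟩ : ∃ u : FreeGroup I, u = mk (reduceCyclically g.toWord) := ⟨_, rfl⟩
  have h1 : c * u * c⁻¹ = g := by
    have h2 := reduceCyclically.conj_conjugator_reduceCyclically g.toWord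
    rw [hc, hu, inv_mk, mul_mk, mul_mk, h2, mk_toWord]
  have h3 := reduceCyclically.isCyclicallyReduced (isReduced_toWord (x := g))
  refine ⟨c⁻¹, ?_⟩
  have h4 : c⁻¹ * g * c⁻¹⁻¹ = u := by
    rw [← h1]
    group
  rw [h4, Rd_iff, hu, toWord_of_isReduced h3.isReduced]
  exact h3.2

end Pool.Agent.V5helper8.EH
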