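import Pool.Agent.V5helper8.EH.Inf
import Pool.Agent.Q30.FJ.GPf

set_option autoImplicit false

/-!
# Graphs of groups
-/

namespace Pool.Agent.V5helper8.EH

open Pool.Agent.Y110.FJ (ClosedE)
open Pool.Agent.Y462.SS (Closed)

section gog

variable {V E : Type} {o t : E → V}

/-- the homomorphism `ψ` is the composite along the path `L` from `u` to `v`: the letter `(x, true)` is
the edge `x` in the direction from `t x` to `o x`, with the homomorphism `β x`, and `(x, false)` is `x`
in the direction from `o x` to `t x`, with the homomorphism `α x` -/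
inductive Along {G : V → Type} [∀ v, Group (G v)] (α : ∀ x, G (o x) →* G (t x))
    (β : ∀ x, G (t x) →* G (o x)) :
    List (E × Bool) → ∀ u v : V, (G u →* G v) → Prop
  | nil (u : V) : Along α β [] u u (MonoidHom.id (G u))
  | pos (x : E) (L : List (E × Bool)) (v : V) (ψ : G (o x) →* G v) : Along α β L (o x) v ψ →
      Along α β ((x, true) :: L) (t x) v (ψ.comp (β x))
  | neg (x : E) (L : List (E × Bool)) (v : V) (ψ : G (t x) →* G v) : Along α β L (t x) v ψ →
      Along α β ((x, false) :: L) (o x) v (ψ.comp (α x))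

/-- the path group of a graph of groups: it is generated by the vertex groups and the edges `x`, with
the relations `x a x⁻¹ = φ x a` -/
abbrev PG (G : V → Type) [∀ v, Group (G v)] (A : ∀ x, Subgroup (G (o x)))
    (B : ∀ x, Subgroup (G (t x))) (φ : ∀ x, A x ≃* B x) : Type :=
  Monoid.Coprod (Monoid.CoprodI G) (FreeGroup E) ⧸ Subgroup.normalClosure
    {r : Monoid.Coprod (Monoid.CoprodI G) (FreeGroup E) | ∃ (x : E) (a : A x),
      r = Monoid.Coprod.inr (FreeGroup.of x) *
        Monoid.Coprod.inl (Monoid.CoprodI.of (a : G (o x))) *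
        (Monoid.Coprod.inr (FreeGroup.of x))⁻¹ *
        (Monoid.Coprod.inl (Monoid.CoprodI.of (φ x a : G (t x))))⁻¹}

variable {G G' : V → Type} [∀ v, Group (G v)] [∀ v, Group (G' v)]

open Classical in
/-- the projection to a factor -/
noncomputable def pr (v : V) : Monoid.CoprodI G →* G v :=
  Monoid.CoprodI.lift (Pi.mulSingle v (MonoidHom.id (G v)))

theorem pr_of (v : V) (g : G v) : pr v (Monoid.CoprodI.of g) = g := by
  classical
  unfold pr
  rw [Monoid.CoprodI.lift_of, Pi.mulSingle_eq_same]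
  rfl

theorem pr_of_ne {u v : V} (h : u ≠ v) (g : G u) : pr v (Monoid.CoprodI.of g) = 1 := by
  classical
  unfold pr
  rw [Monoid.CoprodI.lift_of, Pi.mulSingle_eq_of_ne h]
  rfl

/-- the endomorphism of the free product given by a homomorphism of factors -/
noncomputable def ex {u v : V} (ψ : G u →* G v) : Monoid.CoprodI G →* Monoid.CoprodI G :=
  (Monoid.CoprodI.of (i := v)).comp (ψ.comp (pr u))

theorem ex_comp {u v w : V} (ψ : G u →* G v) (χ : G v →* G w) :
    (ex χ).comp (ex ψ) = ex (χ.comp ψ) := by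
  refine MonoidHom.ext fun m => ?_
  show Monoid.CoprodI.of (χ (pr v (Monoid.CoprodI.of (ψ (pr u m))))) = _
  rw [pr_of]
  rfl

theorem ex_comp_ne {u v v' w : V} (h : v ≠ v') (ψ : G u →* G v) (χ : G v' →* G w) :
    (ex χ).comp (ex ψ) = 1 := by
  refine MonoidHom.ext fun m => ?_
  show Monoid.CoprodI.of (χ (pr v' (Monoid.CoprodI.of (ψ (pr u m))))) = 1
  rw [pr_of_ne h, map_one, map_one]

theorem cmp_ex (α : ∀ x, G (o x) →* G (t x)) (β : ∀ x, G (t x) →* G (o x))
    (L : List (E × Bool)) : L ≠ [] →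
    (∃ (u v : V) (ψ : G u →* G v), Along α β L u v ψ ∧
      cmp (fun x => ex (α x)) (fun x => ex (β x)) L = ex ψ) ∨
    cmp (fun x => ex (α x)) (fun x => ex (β x)) L = 1 := by
  induction L with
  | nil => intro h; exact absurd rfl h
  | cons y L ih =>
    intro _
    obtain ⟨x, b⟩ := y
    cases b with
    | true =>
      have h0 : cmp (fun x => ex (α x)) (fun x => ex (β x)) ((x, true) :: L) =
        (cmp (fun x => ex (α x)) (fun x => ex (β x)) L).comp (ex (β x)) := rfl
      by_cases hL : L = []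
      · subst hL
        exact Or.inl ⟨_, _, _, Along.pos x [] (o x) _ (Along.nil (o x)), by rw [h0]; rfl⟩
      · rcases ih hL with ⟨u, v, ψ, h1, h2⟩ | h1
        · by_cases hu : o x = u
          · subst hu
            exact Or.inl ⟨_, _, _, Along.pos x L v ψ h1, by rw [h0, h2, ex_comp]⟩
          · exact Or.inr (by rw [h0, h2, ex_comp_ne hu])
        · exact Or.inr (by rw [h0, h1]; rfl)
    | false =>
      have h0 : cmp (fun x => ex (α x)) (fun x => ex (β x)) ((x, false) :: L) =
        (cmp (fun x => ex (α x)) (fun x => ex (β x)) L).comp (ex (α x)) := rfl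
      by_cases hL : L = []
      · subst hL
        exact Or.inl ⟨_, _, _, Along.neg x [] (t x) _ (Along.nil (t x)), by rw [h0]; rfl⟩
      · rcases ih hL with ⟨u, v, ψ, h1, h2⟩ | h1
        · by_cases hu : t x = u
          · subst hu
            exact Or.inl ⟨_, _, _, Along.neg x L v ψ h1, by rw [h0, h2, ex_comp]⟩
          · exact Or.inr (by rw [h0, h2, ex_comp_ne hu])
        · exact Or.inr (by rw [h0, h1]; rfl)

variable {C : ∀ (G : Type) [Group G], Prop}

theorem torus_one (hC : Closed C) {M : Type} [Group M] : HasTorus C (1 : M →* M) :=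
  of_nil hC 1 fun _ => ⟨1, rfl⟩

theorem torus_cmp (hC : Closed C) (α : ∀ x, G (o x) →* G (t x)) (β : ∀ x, G (t x) →* G (o x))
    {L : List (E × Bool)} (hL : L ≠ []) (h : ∀ v (ψ : G v →* G v), Along α β L v v ψ →
      HasTorus C ψ) : HasTorus C (cmp (fun x => ex (α x)) (fun x => ex (β x)) L) := by
  rcases cmp_ex α β L hL with ⟨u, v, ψ, h1, h2⟩ | h1
  · rw [h2]
    unfold ex
    by_cases huv : u = v
    · subst huv
      refine of_restrict _ _ ?_
      have h3 : (ψ.comp (pr u)).comp Monoid.CoprodI.of = ψ := by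
        ext g
        show ψ (pr u (Monoid.CoprodI.of g)) = ψ g
        rw [pr_of]
      rw [h3]
      exact h u ψ h1
    · refine of_restrict _ _ ?_
      have h3 : (ψ.comp (pr u)).comp Monoid.CoprodI.of = (1 : G v →* G v) := by
        ext g
        show ψ (pr u (Monoid.CoprodI.of g)) = 1
        rw [pr_of_ne (Ne.symm huv), map_one]
      rw [h3]
      exact torus_one hC
  · rw [h1]
    exact torus_one hC

/-- free products of families -/
theorem C_coprodI (hC : ClosedE C) (h : ∀ v, C (G v)) : C (Monoid.CoprodI G) := by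
  have h1 := Q30.FJ.gp C hC V ⊥ G h
  refine hC.base.of_injective _ _ (QuotientGroup.mk' (Subgroup.normalClosure
    (Pool.Agent.Y110.FJ.commRel (⊥ : SimpleGraph V) G))) ?_ h1
  have h2 : Pool.Agent.Y110.FJ.commRel (⊥ : SimpleGraph V) G = ∅ := by
    ext r
    simp only [Set.mem_empty_iff_false, iff_false]
    rintro ⟨v, w, a, b, hvw, -⟩
    exact hvw
  rw [← MonoidHom.ker_eq_bot_iff, QuotientGroup.ker_mk', h2, Subgroup.normalClosure_empty]

theorem cmp_map {I J M : Type} [Group M] (f : J → I) (α β : I → M →* M)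
    (L : List (J × Bool)) : cmp (fun i => α (f i)) (fun i => β (f i)) L =
      cmp α β (L.map fun x => (f x.1, x.2)) := by
  induction L with
  | nil => rfl
  | cons x L ih =>
    show (cmp (fun i => α (f i)) (fun i => β (f i)) L).comp _ = (cmp α β _).comp _
    rw [ih]

theorem cyc_map {I J : Type} {f : J → I} (hf : Function.Injective f) {L : List (J × Bool)}
    (h : FreeGroup.IsCyclicallyReduced L) :
    FreeGroup.IsCyclicallyReduced (L.map fun x => (f x.1, x.2)) := by
  obtain ⟨h1, h2⟩ := h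
  refine ⟨?_, ?_⟩
  · refine (List.isChain_map _).2 (List.IsChain.imp ?_ h1)
    intro a b hab h3
    exact hab (hf h3)
  · intro a ha b hb hab
    rw [List.getLast?_map, Option.mem_map] at ha
    rw [List.head?_map, Option.mem_map] at hb
    obtain ⟨a, ha, rfl⟩ := ha
    obtain ⟨b, hb, rfl⟩ := hb
    exact h2 a ha b hb (hf hab)

/-- **HNN extensions with any number of stable letters** -/
theorem main_mult_inf {I M M' : Type} [Group M] [Group M'] (hC : ClosedE C) (hM : C M)
    (hM' : C M') (A B : I → Subgroup M) (φ : ∀ i, A i ≃* B i) (e : M →* M') (α β : I → M' →* M')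
    (hα : ∀ i (a : A i), α i (e a) = e (φ i a)) (hβ : ∀ i (b : B i), β i (e b) = e ((φ i).symm b))
    (hA : ∀ i, ∀ a ∈ A i, e a = 1 → a = 1)
    (hT : ∀ L : List (I × Bool), L ≠ [] → FreeGroup.IsCyclicallyReduced L →
      HasTorus C (cmp α β L)) : C (MH A B φ) := by
  refine C_MH_inf hC.base A B φ fun J => ?_
  refine main_mult hC hM hM' _ _ _ e (fun i : J => α i) (fun i : J => β i) (fun i => hα i)
    (fun i => hβ i) (fun i => hA i) fun L hL hr => ?_
  rw [cmp_map (fun i : J => (i : I)) α β L]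
  exact hT _ (fun h => hL (List.map_eq_nil_iff.1 h)) (cyc_map Subtype.val_injective hr)

theorem C_normalClosure {X : Type} [Group X] {S T : Set X} (h : S = T)
    (hS : C (X ⧸ Subgroup.normalClosure S)) : C (X ⧸ Subgroup.normalClosure T) := by
  subst h
  exact hS

/-- **graphs of groups** -/
theorem main_gog (hC : ClosedE C) (A : ∀ x, Subgroup (G (o x))) (B : ∀ x, Subgroup (G (t x)))
    (φ : ∀ x, A x ≃* B x) (e : ∀ v, G v →* G' v) (α : ∀ x, G' (o x) →* G' (t x))
    (β : ∀ x, G' (t x) →* G' (o x)) (hG : ∀ v, C (G v)) (hG' : ∀ v, C (G' v))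
    (hα : ∀ x (a : A x), α x (e (o x) a) = e (t x) (φ x a : G (t x)))
    (hβ : ∀ x (b : B x), β x (e (t x) b) = e (o x) ((φ x).symm b : G (o x)))
    (hA : ∀ x, ∀ a ∈ A x, e (o x) a = 1 → a = 1)
    (hT : ∀ (L : List (E × Bool)) (v : V) (ψ : G' v →* G' v), Along α β L v v ψ → L ≠ [] →
      FreeGroup.IsCyclicallyReduced L → HasTorus C ψ) : C (PG G A B φ) := by
  classical
  have hof : ∀ v, Function.Injective (Monoid.CoprodI.of : G v →* Monoid.CoprodI G) := fun v =>
    Monoid.CoprodI.of_injective v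
  let eA := fun x => (A x).equivMapOfInjective (Monoid.CoprodI.of (M := G)) (hof (o x))
  let eB := fun x => (B x).equivMapOfInjective (Monoid.CoprodI.of (M := G)) (hof (t x))
  let φ' : ∀ x, (A x).map (Monoid.CoprodI.of (M := G)) ≃* (B x).map (Monoid.CoprodI.of (M := G)) :=
    fun x => (eA x).symm.trans ((φ x).trans (eB x))
  have hφ' : ∀ x (a : A x), ((φ' x (eA x a) : (B x).map (Monoid.CoprodI.of (M := G))) :
      Monoid.CoprodI G) = Monoid.CoprodI.of (φ x a : G (t x)) := by
    intro x a
    show ((eB x (φ x ((eA x).symm (eA x a))) : (B x).map (Monoid.CoprodI.of (M := G))) :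
      Monoid.CoprodI G) = _
    rw [MulEquiv.symm_apply_apply]
    rfl
  have hφs : ∀ x (b : B x), (((φ' x).symm (eB x b) : (A x).map (Monoid.CoprodI.of (M := G))) :
      Monoid.CoprodI G) = Monoid.CoprodI.of ((φ x).symm b : G (o x)) := by
    intro x b
    show ((eA x ((φ x).symm ((eB x).symm (eB x b))) : (A x).map (Monoid.CoprodI.of (M := G))) :
      Monoid.CoprodI G) = _
    rw [MulEquiv.symm_apply_apply]
    rfl
  let e' : Monoid.CoprodI G →* Monoid.CoprodI G' :=
    Monoid.CoprodI.lift fun v => (Monoid.CoprodI.of (i := v)).comp (e v)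
  have he' : ∀ v (g : G v), e' (Monoid.CoprodI.of g) = Monoid.CoprodI.of (e v g) := fun v g =>
    Monoid.CoprodI.lift_of _ _
  have key : C (MH (fun x => (A x).map (Monoid.CoprodI.of (M := G)))
      (fun x => (B x).map (Monoid.CoprodI.of (M := G))) φ') := by
    refine main_mult_inf hC (C_coprodI hC hG) (C_coprodI hC hG') _ _ _ e'
      (fun x => ex (α x)) (fun x => ex (β x)) ?_ ?_ ?_ ?_
    · intro x a
      obtain ⟨a, rfl⟩ : ∃ a₀, a = eA x a₀ := ⟨(eA x).symm a, (MulEquiv.apply_symm_apply _ a).symm⟩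
      rw [hφ', he']
      have h1 : ((eA x a : (A x).map (Monoid.CoprodI.of (M := G))) : Monoid.CoprodI G) =
        Monoid.CoprodI.of (a : G (o x)) := rfl
      rw [h1, he']
      show Monoid.CoprodI.of (α x (pr (o x) (Monoid.CoprodI.of (e (o x) a)))) = _
      rw [pr_of, hα]
    · intro x b
      obtain ⟨b, rfl⟩ : ∃ b₀, b = eB x b₀ := ⟨(eB x).symm b, (MulEquiv.apply_symm_apply _ b).symm⟩
      rw [hφs, he']
      have h1 : ((eB x b : (B x).map (Monoid.CoprodI.of (M := G))) : Monoid.CoprodI G) =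
        Monoid.CoprodI.of (b : G (t x)) := rfl
      rw [h1, he']
      show Monoid.CoprodI.of (β x (pr (t x) (Monoid.CoprodI.of (e (t x) b)))) = _
      rw [pr_of, hβ]
    · rintro x _ ⟨a, ha, rfl⟩ h
      rw [he'] at h
      have h1 : e (o x) a = 1 := Monoid.CoprodI.of_injective _ (h.trans (map_one _).symm)
      rw [hA x a ha h1, map_one]
    · intro L hL hr
      exact torus_cmp hC.base α β hL fun v ψ h => hT L v ψ h hL hr
  refine C_normalClosure ?_ key
  ext r
  constructor
  · rintro ⟨x, a, rfl⟩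
    obtain ⟨a, rfl⟩ : ∃ a₀, a = eA x a₀ := ⟨(eA x).symm a, (MulEquiv.apply_symm_apply _ a).symm⟩
    refine ⟨x, a, ?_⟩
    rw [hφ']
    rfl
  · rintro ⟨x, a, rfl⟩
    refine ⟨x, eA x a, ?_⟩
    rw [hφ']
    rfl

end gog

end Pool.Agent.V5helper8.EH
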