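import Pool.Agent.V5helper8.EH.Base
import Pool.Agent.Helper270.HNN
import Pool.Agent.N509.TK.Fin

set_option autoImplicit false

/-!
# HNN extensions and endomorphisms: the homomorphism to the group of sequences
-/

namespace Pool.Agent.V5helper8.EH

open Filter HNNExtension
open Pool.Agent.Y110.FJ (ClosedE Realized)
open Pool.Agent.Y462.SS (Closed Wr)
open Pool.Agent.Helper270.HNN (Vert vt graph exists_vt vt_eq_iff one_orbit stab_one stab_edge
  smul_vt treeAct)
open Pool.Agent.N509.TK (Sb mem_Sb Sb_conj EH comm_conj)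

/-! ## iterates in both directions -/

section it

variable {M : Type} [Group M]

/-- the iterates of `β` to the right and of `α` to the left -/
def it (α β : M →* M) (i : ℤ) (m : M) : M :=
  if 0 ≤ i then β^[i.toNat] m else α^[(-i).toNat] m

theorem it_mul (α β : M →* M) (i : ℤ) (x y : M) :
    it α β i (x * y) = it α β i x * it α β i y := by
  unfold it
  split_ifs
  · exact iterate_map_mul β _ x y
  · exact iterate_map_mul α _ x y

theorem it_zero (α β : M →* M) (m : M) : it α β 0 m = m := by simp [it]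

theorem it_right (α β : M →* M) {i : ℤ} (hi : 0 ≤ i) (m : M) :
    it α β (i + 1) m = β (it α β i m) := by
  unfold it
  rw [if_pos hi, if_pos (by omega), show (i + 1).toNat = i.toNat + 1 by omega,
    Function.iterate_succ_apply']

theorem it_left (α β : M →* M) {i : ℤ} (hi : i ≤ 0) (m : M) :
    it α β (i - 1) m = α (it α β i m) := by
  unfold it
  rw [if_neg (by omega : ¬ 0 ≤ i - 1)]
  split_ifs with h
  · have : i = 0 := by omega
    subst this
    simp
  · rw [show (-(i - 1)).toNat = (-i).toNat + 1 by omega, Function.iterate_succ_apply']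

theorem it_step {α β : M →* M} {x y : M} (h1 : α x = y) (h2 : β y = x) (i : ℤ) :
    it α β (i + 1) y = it α β i x := by
  unfold it
  by_cases hi : 0 ≤ i
  · rw [if_pos hi, if_pos (by omega), show (i + 1).toNat = i.toNat + 1 by omega,
      Function.iterate_succ_apply, h2]
  · rw [if_neg hi, show (-i).toNat = (-(i + 1)).toNat + 1 by omega,
      Function.iterate_succ_apply, h1]
    split_ifs with h
    · have : i = -1 := by omega
      subst this
      simp
    · rfl

/-- the diagonal embedding -/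
def iota (α β : M →* M) : M →* Pg α β :=
  MonoidHom.mk' (fun m => ⟨⟨fun i => it α β i m, 0⟩, by
    refine ⟨?_, ?_⟩
    · refine eventually_atTop.2 ⟨0, fun i hi => ?_⟩
      show it α β (1 * (i + 1)) m = β (it α β (1 * i) m)
      rw [one_mul, one_mul]
      exact it_right α β hi m
    · refine eventually_atTop.2 ⟨0, fun i hi => ?_⟩
      show it α β (-1 * (i + 1)) m = α (it α β (-1 * i) m)
      rw [show (-1 : ℤ) * (i + 1) = -1 * i - 1 by ring]
      exact it_left α β (by omega) m⟩) (by
    intro x y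
    apply Subtype.ext
    refine Sh.ext ?_ ?_
    · funext i
      show it α β i (x * y) = it α β (i + 0) x * it α β i y
      rw [add_zero, it_mul]
    · rfl)

theorem iota_injective (α β : M →* M) : Function.Injective (iota α β) := by
  intro x y h
  have h1 : it α β 0 x = it α β 0 y := congrArg (fun z : Pg α β => (z : Sh M).s 0) h
  rwa [it_zero, it_zero] at h1

/-- the shift -/
def tt (α β : M →* M) : Pg α β :=
  ⟨⟨fun _ => 1, 1⟩, Eventually.of_forall fun i => (map_one β).symm,
    Eventually.of_forall fun i => (map_one α).symm⟩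

theorem tt_iota {α β : M →* M} {x y : M} (h1 : α x = y) (h2 : β y = x) :
    tt α β * iota α β x = iota α β y * tt α β := by
  apply Subtype.ext
  refine Sh.ext ?_ ?_
  · funext i
    show 1 * it α β i x = it α β (i + 1) y * 1
    rw [one_mul, mul_one, it_step h1 h2]
  · show (1 : ℤ) + 0 = 0 + 1
    rfl

end it

/-! ## HNN extensions -/

section hnn

variable {C : ∀ (G : Type) [Group G], Prop} {M : Type} [Group M] {A B : Subgroup M} {φ : A ≃* B}

theorem C_stab (hC : Closed C) (hM : C M) (v : Vert φ) :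
    C ↥(MulAction.stabilizer (HNNExtension M A B φ) v) := by
  obtain ⟨k, rfl⟩ := exists_vt v
  have h1 : ∀ x : ↥(MulAction.stabilizer (HNNExtension M A B φ) (vt k : Vert φ)),
      ∃ m : M, of m = k⁻¹ * (x : HNNExtension M A B φ) * k := by
    intro x
    have h2 : (x : HNNExtension M A B φ) • (vt k : Vert φ) = vt k := x.2
    rw [smul_vt, vt_eq_iff] at h2
    obtain ⟨m, hm⟩ := h2
    refine ⟨m⁻¹, ?_⟩
    rw [map_inv, inv_eq_iff_mul_eq_one]
    have h3 : (of m : HNNExtension M A B φ) = k⁻¹ * ((x : HNNExtension M A B φ))⁻¹ * k := by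
      have h4 : (of m : HNNExtension M A B φ) = ((x : HNNExtension M A B φ) * k)⁻¹ *
        ((x : HNNExtension M A B φ) * k * of m) := by group
      rw [h4, hm]
      group
    rw [h3]
    group
  choose F hF using h1
  refine hC.of_injective _ M (MonoidHom.mk' F fun x y => ?_) ?_ hM
  · apply HNNExtension.of_injective (φ := φ)
    rw [map_mul, hF, hF, hF, Subgroup.coe_mul]
    group
  · intro x y hxy
    have h2 : F x = F y := hxy
    have h3 := hF x
    rw [h2, hF y] at h3
    apply Subtype.ext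
    have h4 : k⁻¹ * (y : HNNExtension M A B φ) * k = k⁻¹ * (x : HNNExtension M A B φ) * k := h3
    exact (mul_left_cancel (mul_right_cancel h4)).symm

/-- **one homomorphism injective on the associated subgroups** -/
theorem hnn_edge (hC : ClosedE C) (hM : C M) {P : Type} [Group P]
    (f : HNNExtension M A B φ →* P) (hP : C P) (hA : ∀ a ∈ A, f (of a) = 1 → a = 1) :
    C (HNNExtension M A B φ) := by
  refine Pool.Agent.N509.TK.crit hC (treeAct (φ := φ)).isTree (treeAct (φ := φ)).adj f hP ?_ ?_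
  · intro u v huv g hu hv hg
    obtain ⟨k, hk⟩ := one_orbit huv
    have h1 : (k⁻¹ * g * k) • (vt 1 : Vert φ) = vt 1 ∧
        (k⁻¹ * g * k) • (vt t⁻¹ : Vert φ) = vt t⁻¹ := by
      rcases hk with ⟨h1, h2⟩ | ⟨h1, h2⟩
      · rw [mul_smul, mul_smul, h1, hu, ← h1, inv_smul_smul, mul_smul, mul_smul, h2, hv, ← h2,
          inv_smul_smul]
        exact ⟨rfl, rfl⟩
      · rw [mul_smul, mul_smul, h1, hv, ← h1, inv_smul_smul, mul_smul, mul_smul, h2, hu, ← h2,
          inv_smul_smul]
        exact ⟨rfl, rfl⟩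
    have h2 : k⁻¹ * g * k ∈ (A.map of : Subgroup (HNNExtension M A B φ)) := by
      rw [← stab_edge]
      exact ⟨h1.1, h1.2⟩
    obtain ⟨a, ha, h3⟩ := h2
    have h4 : f (of a) = 1 := by
      rw [h3, map_mul, map_mul, hg, mul_one, ← map_mul, inv_mul_cancel, map_one]
    rw [hA a ha h4, map_one] at h3
    have h5 : g = k * (k⁻¹ * g * k) * k⁻¹ := by group
    rw [h5, ← h3]
    group
  · intro v g hg
    refine Pool.Agent.R941.FJ.C_le hC.base ?_ (C_stab hC.base hM v)
    refine sup_le inf_le_left ?_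
    rw [Subgroup.zpowers_le]
    exact hg

/-- **one homomorphism, associated subgroups which embed in the first homology of the kernel** -/
theorem hnn_h1 (hC : ClosedE C) (hM2 : ∀ (G : Type) [Group G], derivedSeries G 2 = ⊥ → C G)
    (hM : C M) {P : Type} [Group P] (f : HNNExtension M A B φ →* P) (hP : C P)
    (hA : ∀ a ∈ A, a ∈ ⁅(f.comp of).ker, (f.comp of).ker⁆ → a = 1)
    (hB : ∀ b ∈ B, b ∈ ⁅(f.comp of).ker, (f.comp of).ker⁆ → b = 1) :
    C (HNNExtension M A B φ) := by
  have hSb : Sb f.ker (vt 1 : Vert φ) = (f.comp of).ker.map of := by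
    ext x
    rw [mem_Sb, stab_one, Subgroup.mem_map]
    constructor
    · rintro ⟨⟨m, rfl⟩, h⟩
      exact ⟨m, h, rfl⟩
    · rintro ⟨m, h, rfl⟩
      exact ⟨⟨m, rfl⟩, h⟩
  have hSc : ∀ m : M, (of m : HNNExtension M A B φ) ∈ ⁅Sb f.ker (vt 1 : Vert φ),
      Sb f.ker (vt 1 : Vert φ)⁆ → m ∈ ⁅(f.comp of).ker, (f.comp of).ker⁆ := by
    intro m hm
    rw [hSb, ← Subgroup.map_commutator] at hm
    obtain ⟨m', hm', h⟩ := hm
    rwa [← HNNExtension.of_injective φ h]
  refine Pool.Agent.N509.TK.hcrit hC hM2 (treeAct (φ := φ)).isTree (treeAct (φ := φ)).adj f.ker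
    (hC.base.of_injective _ _ (QuotientGroup.kerLift f) (QuotientGroup.kerLift_injective f) hP)
    ?_ ?_
  · intro u v huv g hu hv hg
    obtain ⟨k, hk⟩ := one_orbit huv
    have h1 : (k⁻¹ * g * k) • (vt 1 : Vert φ) = vt 1 ∧
        (k⁻¹ * g * k) • (vt t⁻¹ : Vert φ) = vt t⁻¹ := by
      rcases hk with ⟨h1, h2⟩ | ⟨h1, h2⟩
      · rw [mul_smul, mul_smul, h1, hu.1, ← h1, inv_smul_smul, mul_smul, mul_smul, h2, hv.1, ← h2,
          inv_smul_smul]
        exact ⟨rfl, rfl⟩
      · rw [mul_smul, mul_smul, h1, hv.1, ← h1, inv_smul_smul, mul_smul, mul_smul, h2, hu.1, ← h2,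
          inv_smul_smul]
        exact ⟨rfl, rfl⟩
    have h2 : k⁻¹ * g * k ∈ (A.map of : Subgroup (HNNExtension M A B φ)) := by
      rw [← stab_edge]
      exact ⟨h1.1, h1.2⟩
    obtain ⟨a, ha, h3⟩ := h2
    have ha1 : a = 1 := by
      rcases hk with ⟨h4, h5⟩ | ⟨h4, h5⟩
      · have h6 := comm_conj f.ker k⁻¹ u hg
        rw [inv_inv, ← h3, ← h4, inv_smul_smul] at h6
        exact hA a ha (hSc a h6)
      · have h6 := comm_conj f.ker k⁻¹ u hg
        rw [inv_inv, ← h3, ← h5, inv_smul_smul] at h6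
        have h7 := comm_conj f.ker (t : HNNExtension M A B φ) _ h6
        rw [smul_vt, mul_inv_cancel, ← equiv_eq_conj (⟨a, ha⟩ : A)] at h7
        have h8 := hB _ (φ ⟨a, ha⟩).2 (hSc _ h7)
        have h9 : φ ⟨a, ha⟩ = 1 := Subtype.ext h8
        have h10 : (⟨a, ha⟩ : A) = 1 := by
          apply φ.injective
          rw [h9, map_one]
        exact congrArg Subtype.val h10
    rw [ha1, map_one] at h3
    have h5 : g = k * (k⁻¹ * g * k) * k⁻¹ := by group
    rw [h5, ← h3]
    group
  · intro v g hg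
    refine Pool.Agent.R941.FJ.C_le hC.base ?_ (C_stab hC.base hM v)
    refine sup_le inf_le_left ?_
    rw [Subgroup.zpowers_le]
    exact hg

variable {M' : Type} [Group M']

/-- the homomorphism to the group of sequences -/
theorem exists_toPg (e : M →* M') (α β : M' →* M') (hα : ∀ a : A, α (e a) = e (φ a))
    (hβ : ∀ b : B, β (e b) = e (φ.symm b)) :
    ∃ f : HNNExtension M A B φ →* Pg α β, ∀ m, f (of m) = iota α β (e m) := by
  refine ⟨HNNExtension.lift ((iota α β).comp e) (tt α β) fun a => ?_, fun m => lift_of _ _ _ m⟩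
  refine tt_iota (hα a) ?_
  rw [hβ, MulEquiv.symm_apply_apply]

theorem ker_toPg {e : M →* M'} {α β : M' →* M'} {f : HNNExtension M A B φ →* Pg α β}
    (hf : ∀ m, f (of m) = iota α β (e m)) : (f.comp of).ker = e.ker := by
  ext m
  rw [MonoidHom.mem_ker, MonoidHom.mem_ker, MonoidHom.comp_apply, hf]
  exact ⟨fun h => iota_injective α β (h.trans (map_one _).symm), fun h => by rw [h, map_one]⟩

/-- **HNN extensions and endomorphisms** -/
theorem main_edge (hC : ClosedE C) (hM : C M) (hM' : C M') (e : M →* M') (α β : M' →* M')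
    (hα : ∀ a : A, α (e a) = e (φ a)) (hβ : ∀ b : B, β (e b) = e (φ.symm b))
    (hTα : HasTorus C α) (hTβ : HasTorus C β) (hA : ∀ a ∈ A, e a = 1 → a = 1) :
    C (HNNExtension M A B φ) := by
  obtain ⟨f, hf⟩ := exists_toPg e α β hα hβ
  refine hnn_edge hC hM f (C_Pg hC hM' hTα hTβ) fun a ha h => hA a ha ?_
  rw [hf] at h
  exact iota_injective α β (h.trans (map_one _).symm)

/-- **HNN extensions and endomorphisms**, with the first homology of the kernel -/
theorem main_h1 (hC : ClosedE C) (hM2 : ∀ (G : Type) [Group G], derivedSeries G 2 = ⊥ → C G)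
    (hM : C M) (hM' : C M') (e : M →* M') (α β : M' →* M')
    (hα : ∀ a : A, α (e a) = e (φ a)) (hβ : ∀ b : B, β (e b) = e (φ.symm b))
    (hTα : HasTorus C α) (hTβ : HasTorus C β)
    (hA : ∀ a ∈ A, a ∈ ⁅e.ker, e.ker⁆ → a = 1) (hB : ∀ b ∈ B, b ∈ ⁅e.ker, e.ker⁆ → b = 1) :
    C (HNNExtension M A B φ) := by
  obtain ⟨f, hf⟩ := exists_toPg e α β hα hβ
  have hk := ker_toPg hf
  exact hnn_h1 hC hM2 hM f (C_Pg hC hM' hTα hTβ) (by rw [hk]; exact hA) (by rw [hk]; exact hB)

end hnn

end Pool.Agent.V5helper8.EH
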