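import Pool.Agent.V5helper8.EH.Hnn

set_option autoImplicit false

/-!
# Quotients of HNN extensions and the first homology of the kernel
-/

namespace Pool.Agent.V5helper8.EH

open HNNExtension
open Pool.Agent.Y110.FJ (ClosedE)
open Pool.Agent.Y462.SS (Closed)
open Pool.Agent.Helper270.HNN (Vert vt graph exists_vt vt_eq_iff one_orbit stab_one stab_edge
  smul_vt treeAct)
open Pool.Agent.N509.TK (Sb mem_Sb Sb_conj EH comm_conj Sb_normal)

section hq

variable {G : Type} [Group G] {A B : Subgroup G}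

/-- the isomorphism of the images of the associated subgroups -/
theorem exists_quot (φ : A ≃* B) (N : Subgroup G) [N.Normal]
    (hN : ∀ a : A, (a : G) ∈ N ↔ (φ a : G) ∈ N) :
    ∃ (A' B' : Subgroup (G ⧸ N)) (φ' : A' ≃* B'),
      (∀ a : A, ∃ h : QuotientGroup.mk' N (a : G) ∈ A',
        ((φ' ⟨QuotientGroup.mk' N (a : G), h⟩ : B') : G ⧸ N) = QuotientGroup.mk' N (φ a : G)) ∧
      ∀ a' ∈ A', ∃ a : A, QuotientGroup.mk' N (a : G) = a' := by
  obtain ⟨fA, hfA⟩ : ∃ fA : A →* G ⧸ N, fA = (QuotientGroup.mk' N).comp A.subtype := ⟨_, rfl⟩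
  obtain ⟨fB, hfB⟩ : ∃ fB : A →* G ⧸ N, fB = ((QuotientGroup.mk' N).comp B.subtype).comp
    (φ : A →* B) := ⟨_, rfl⟩
  have hk : fA.ker = fB.ker := by
    ext a
    rw [MonoidHom.mem_ker, MonoidHom.mem_ker, hfA, hfB]
    show (QuotientGroup.mk' N (a : G)) = 1 ↔ (QuotientGroup.mk' N (φ a : G)) = 1
    rw [QuotientGroup.mk'_apply, QuotientGroup.mk'_apply, QuotientGroup.eq_one_iff,
      QuotientGroup.eq_one_iff]
    exact hN a
  let e1 := QuotientGroup.quotientKerEquivRange fA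
  let e2 := QuotientGroup.quotientKerEquivRange fB
  let e3 := QuotientGroup.quotientMulEquivOfEq hk
  refine ⟨fA.range, fB.range, e1.symm.trans (e3.trans e2), ?_, ?_⟩
  · intro a
    have ha : QuotientGroup.mk' N (a : G) = fA a := by rw [hfA]; rfl
    refine ⟨by rw [ha]; exact ⟨a, rfl⟩, ?_⟩
    have h1 : (⟨QuotientGroup.mk' N (a : G), by rw [ha]; exact ⟨a, rfl⟩⟩ : fA.range) =
        e1 (QuotientGroup.mk a) := Subtype.ext ha
    rw [h1]
    show ((e2 (e3 (e1.symm (e1 (QuotientGroup.mk a)))) : fB.range) : G ⧸ N) = _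
    rw [MulEquiv.symm_apply_apply]
    have h2 : ((e2 (e3 (QuotientGroup.mk a)) : fB.range) : G ⧸ N) = fB a := rfl
    rw [h2, hfB]
    rfl
  · rintro _ ⟨a, rfl⟩
    exact ⟨a, by rw [hfA]; rfl⟩

/-- the quotient of an HNN extension -/
theorem hnn_quot (φ : A ≃* B) (N : Subgroup G) [N.Normal] {A' B' : Subgroup (G ⧸ N)}
    (φ' : A' ≃* B') (h1 : ∀ a : A, ∃ h : QuotientGroup.mk' N (a : G) ∈ A',
        ((φ' ⟨QuotientGroup.mk' N (a : G), h⟩ : B') : G ⧸ N) = QuotientGroup.mk' N (φ a : G))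
    (h2 : ∀ a' ∈ A', ∃ a : A, QuotientGroup.mk' N (a : G) = a') :
    ∃ Φ : HNNExtension G A B φ →* HNNExtension (G ⧸ N) A' B' φ',
      (∀ g, Φ (of g) = of (QuotientGroup.mk' N g)) ∧ (∀ g, Φ (of g) = 1 ↔ g ∈ N) ∧
      ∀ D : Subgroup (HNNExtension G A B φ), D.Normal → (∀ g ∈ N, of g ∈ D) → Φ.ker ≤ D := by
  have hrel : ∀ a : A, (t : HNNExtension (G ⧸ N) A' B' φ') * of (QuotientGroup.mk' N (a : G)) =
      of (QuotientGroup.mk' N (φ a : G)) * t := by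
    intro a
    obtain ⟨h3, h4⟩ := h1 a
    rw [← h4]
    exact t_mul_of (φ := φ') ⟨_, h3⟩
  obtain ⟨Φ, hΦ⟩ : ∃ Φ : HNNExtension G A B φ →* HNNExtension (G ⧸ N) A' B' φ',
      Φ = HNNExtension.lift (of.comp (QuotientGroup.mk' N)) t hrel := ⟨_, rfl⟩
  have h3 : ∀ g, Φ (of g) = of (QuotientGroup.mk' N g) := by
    intro g
    rw [hΦ, HNNExtension.lift_of]
    rfl
  have h4 : Φ t = t := by rw [hΦ, HNNExtension.lift_t]
  refine ⟨Φ, h3, ?_, ?_⟩
  · intro g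
    rw [h3, ← map_one (of : G ⧸ N →* HNNExtension (G ⧸ N) A' B' φ'),
      (HNNExtension.of_injective φ').eq_iff]
    exact QuotientGroup.eq_one_iff g
  · intro D hD hND x hx
    have h5 : ∀ g ∈ N, ((QuotientGroup.mk' D).comp (of : G →* HNNExtension G A B φ)) g = 1 :=
      fun g hg => (QuotientGroup.eq_one_iff _).2 (hND g hg)
    obtain ⟨Ψ₀, hΨ₀⟩ : ∃ Ψ₀ : G ⧸ N →* HNNExtension G A B φ ⧸ D,
        ∀ g, Ψ₀ (QuotientGroup.mk' N g) = QuotientGroup.mk' D (of g) :=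
      ⟨QuotientGroup.lift N ((QuotientGroup.mk' D).comp of) h5, fun g => rfl⟩
    have h6 : ∀ a' : A', QuotientGroup.mk' D t * Ψ₀ (a' : G ⧸ N) =
        Ψ₀ (φ' a' : G ⧸ N) * QuotientGroup.mk' D t := by
      rintro ⟨a', ha'⟩
      obtain ⟨a, rfl⟩ := h2 a' ha'
      obtain ⟨h7, h8⟩ := h1 a
      have h9 : ((φ' ⟨QuotientGroup.mk' N (a : G), ha'⟩ : B') : G ⧸ N) =
        QuotientGroup.mk' N (φ a : G) := h8
      rw [h9, hΨ₀, hΨ₀, ← map_mul, ← map_mul, t_mul_of]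
    obtain ⟨Ψ, hΨ, hΨt⟩ : ∃ Ψ : HNNExtension (G ⧸ N) A' B' φ' →* HNNExtension G A B φ ⧸ D,
        (∀ g, Ψ (of g) = Ψ₀ g) ∧ Ψ t = QuotientGroup.mk' D t :=
      ⟨HNNExtension.lift Ψ₀ (QuotientGroup.mk' D t) h6, fun g => HNNExtension.lift_of _ _ _ g,
        HNNExtension.lift_t _ _ _⟩
    have h7 : Ψ.comp Φ = QuotientGroup.mk' D := by
      refine HNNExtension.hom_ext ?_ ?_
      · ext g
        show Ψ (Φ (of g)) = QuotientGroup.mk' D (of g)
        rw [h3, hΨ, hΨ₀]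
      · show Ψ (Φ t) = QuotientGroup.mk' D t
        rw [h4, hΨt]
    have h8 : Ψ (Φ x) = QuotientGroup.mk' D x := DFunLike.congr_fun h7 x
    rw [MonoidHom.mem_ker] at hx
    rw [hx, map_one] at h8
    exact (QuotientGroup.eq_one_iff x).1 h8.symm

end hq

section h1

variable {C : ∀ (G : Type) [Group G], Prop} {M : Type} [Group M] {A B : Subgroup M} {φ : A ≃* B}

theorem Sb_map {P : Type} [Group P] (f : HNNExtension M A B φ →* P) :
    Sb f.ker (vt 1 : Vert φ) = (f.comp of).ker.map of := by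
  ext x
  rw [mem_Sb, stab_one, Subgroup.mem_map]
  constructor
  · rintro ⟨⟨m, rfl⟩, h⟩
    exact ⟨m, h, rfl⟩
  · rintro ⟨m, h, rfl⟩
    exact ⟨⟨m, rfl⟩, h⟩

theorem Sb_comm {P : Type} [Group P] (f : HNNExtension M A B φ →* P) (m : M)
    (hm : (of m : HNNExtension M A B φ) ∈ ⁅Sb f.ker (vt 1 : Vert φ),
      Sb f.ker (vt 1 : Vert φ)⁆) : m ∈ ⁅(f.comp of).ker, (f.comp of).ker⁆ := by
  rw [Sb_map, ← Subgroup.map_commutator] at hm
  obtain ⟨m', hm', h⟩ := hm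
  rwa [← HNNExtension.of_injective φ h]

theorem EH_of {P : Type} [Group P] (f : HNNExtension M A B φ →* P)
    (hA : ∀ a ∈ A, a ∈ ⁅(f.comp of).ker, (f.comp of).ker⁆ → a = 1)
    (hB : ∀ b ∈ B, b ∈ ⁅(f.comp of).ker, (f.comp of).ker⁆ → b = 1) :
    EH (graph φ) (Sb (V := Vert φ) f.ker) := by
  intro u v huv g hu hv hg
  obtain ⟨k, hk⟩ := one_orbit huv
  have h1 : (k⁻¹ * g * k) • (vt 1 : Vert φ) = vt 1 ∧
      (k⁻¹ * g * k) • (vt t⁻¹ : Vert φ) = vt t⁻¹ := by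
    rcases hk with ⟨h1, h2⟩ | ⟨h1, h2⟩
    · rw [mul_smul, mul_smul, h1, hu.1, ← h1, inv_smul_smul, mul_smul, mul_smul, h2, hv.1, ← h2,
        inv_smul_smul]
      exact ⟨rfl, rfl⟩
    · rw [mul_smul, mul_smul, h1, hv.1, ← h1, inv_smul_smul, mul_smul, mul_smul, h2, hu.1, ← h2,
        inv_smul_smul]
      exact ⟨rfl, rfl⟩
  have h2 : k⁻¹ * g * k ∈ (A.map of : Subgroup (HNNExtension M A B φ)) := by
    rw [← stab_edge]
    exact ⟨h1.1, h1.2⟩
  obtain ⟨a, ha, h3⟩ := h2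
  have ha1 : a = 1 := by
    rcases hk with ⟨h4, h5⟩ | ⟨h4, h5⟩
    · have h6 := comm_conj f.ker k⁻¹ u hg
      rw [inv_inv, ← h3, ← h4, inv_smul_smul] at h6
      exact hA a ha (Sb_comm f a h6)
    · have h6 := comm_conj f.ker k⁻¹ u hg
      rw [inv_inv, ← h3, ← h5, inv_smul_smul] at h6
      have h7 := comm_conj f.ker (t : HNNExtension M A B φ) _ h6
      rw [smul_vt, mul_inv_cancel, ← equiv_eq_conj (⟨a, ha⟩ : A)] at h7
      have h8 := hB _ (φ ⟨a, ha⟩).2 (Sb_comm f _ h7)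
      have h9 : φ ⟨a, ha⟩ = 1 := Subtype.ext h8
      have h10 : (⟨a, ha⟩ : A) = 1 := by
        apply φ.injective
        rw [h9, map_one]
      exact congrArg Subtype.val h10
  rw [ha1, map_one] at h3
  have h5 : g = k * (k⁻¹ * g * k) * k⁻¹ := by group
  rw [h5, ← h3]
  group

/-- elements of the vertex group in the commutator subgroup of the kernel, if the kernel is generated by
the conjugates of the kernel in the vertex group -/
theorem hnn_star {P : Type} [Group P] (f : HNNExtension M A B φ →* P)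
    (hA : ∀ a ∈ A, a ∈ ⁅(f.comp of).ker, (f.comp of).ker⁆ → a = 1)
    (hB : ∀ b ∈ B, b ∈ ⁅(f.comp of).ker, (f.comp of).ker⁆ → b = 1)
    (hD : ∀ D : Subgroup (HNNExtension M A B φ), D.Normal → (∀ m ∈ (f.comp of).ker, of m ∈ D) →
      f.ker ≤ D) (m : M) (hm : (of m : HNNExtension M A B φ) ∈ ⁅f.ker, f.ker⁆) :
    m ∈ ⁅(f.comp of).ker, (f.comp of).ker⁆ := by
  have hle : f.ker ≤ ⨆ v : Vert φ, Sb f.ker v := by
    refine hD _ (Sb_normal f.ker) fun m hm => ?_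
    refine le_iSup (Sb (V := Vert φ) f.ker) (vt 1) ?_
    rw [Sb_map]
    exact ⟨m, hm, rfl⟩
  have hx : (of m : HNNExtension M A B φ) ∈ Sb f.ker (vt 1 : Vert φ) := by
    rw [Sb_map]
    exact ⟨m, Subgroup.commutator_le_self f.ker hm, rfl⟩
  refine Sb_comm f m ?_
  exact Pool.Agent.N509.TK.h1 (treeAct (φ := φ)).isTree (treeAct (φ := φ)).adj f.ker
    (EH_of f hA hB) (vt 1) hx (Subgroup.commutator_mono hle hle hm)

end h1

end Pool.Agent.V5helper8.EH
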