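import Pool.Agent.V5helper8.EH.HomA
import Pool.Agent.V5helper8.EH.Gog

set_option autoImplicit false

/-!
# Graphs of groups and the first homology of the kernels
-/

namespace Pool.Agent.V5helper8.EH

open HNNExtension
open FreeGroup (mk IsReduced isReduced_toWord)
open Pool.Agent.Y110.FJ (ClosedE)
open Pool.Agent.Y462.SS (Closed)

section tower

variable {C : ∀ (G : Type) [Group G], Prop} {M : Type} [Group M]

theorem towerh (hC : ClosedE C) (hM2 : ∀ (G : Type) [Group G], derivedSeries G 2 = ⊥ → C G)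
    (hM : C M) {P : Type} [Group P] (hP : C P) (f : M →* P) :
    ∀ (n : ℕ) (A B : Fin n → Subgroup M) (φ : ∀ i, A i ≃* B i) (T : Fin n → P),
    (∀ i (a : A i), T i * f a = f (φ i a) * T i) →
    (∀ i, ∀ a ∈ A i, a ∈ ⁅f.ker, f.ker⁆ → a = 1) → (∀ i, ∀ b ∈ B i, b ∈ ⁅f.ker, f.ker⁆ → b = 1) →
    ∃ (G : Type) (_ : Group G) (ι : M →* G) (t : Fin n → G), Function.Injective ι ∧
      (∀ i (a : A i), t i * ι a = ι (φ i a) * t i) ∧
      (∀ (H : Type) (_ : Group H) (f' : M →* H) (u : Fin n → H),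
        (∀ i (a : A i), u i * f' a = f' (φ i a) * u i) →
        ∃ h : G →* H, (∀ m, h (ι m) = f' m) ∧ ∀ i, h (t i) = u i) ∧ C G ∧
      ∃ (N : Subgroup G) (_ : N.Normal), (∀ m, ι m ∈ N ↔ f m = 1) ∧
        (∀ m, ι m ∈ ⁅N, N⁆ → m ∈ ⁅f.ker, f.ker⁆) ∧ C (G ⧸ N) ∧
        ∀ D : Subgroup G, D.Normal → (∀ m, f m = 1 → ι m ∈ D) → N ≤ D := by
  intro n
  induction n with
  | zero =>
    intro A B φ T _ _ _
    exact ⟨M, inferInstance, MonoidHom.id M, fun i => i.elim0, Function.injective_id,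
      fun i => i.elim0, fun H _ f' u _ => ⟨f', fun _ => rfl, fun i => i.elim0⟩, hM,
      f.ker, inferInstance, fun m => MonoidHom.mem_ker, fun m hm => hm,
      hC.base.of_injective _ _ (QuotientGroup.kerLift f) (QuotientGroup.kerLift_injective f) hP,
      fun D _ hD m hm => hD m (MonoidHom.mem_ker.1 hm)⟩
  | succ n ih =>
    intro A B φ T hT hA hB
    obtain ⟨G, _, ι, t', h1, h2, h3, h4, N, _, hN1, hN2, hN3, hN4⟩ :=
      ih (fun i => A i.castSucc) (fun i => B i.castSucc)
      (fun i => φ i.castSucc) (fun i => T i.castSucc) (fun i => hT i.castSucc)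
      (fun i => hA i.castSucc) (fun i => hB i.castSucc)
    let eA := (A (Fin.last n)).equivMapOfInjective ι h1
    let eB := (B (Fin.last n)).equivMapOfInjective ι h1
    let φ' : (A (Fin.last n)).map ι ≃* (B (Fin.last n)).map ι :=
      eA.symm.trans ((φ (Fin.last n)).trans eB)
    have hφ' : ∀ a : A (Fin.last n), ((φ' (eA a) : (B (Fin.last n)).map ι) : G) =
        ι (φ (Fin.last n) a) := by
      intro a
      show ((eB (φ (Fin.last n) (eA.symm (eA a))) : (B (Fin.last n)).map ι) : G) = _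
      rw [MulEquiv.symm_apply_apply]
      rfl
    have heA : ∀ a' : (A (Fin.last n)).map ι, ∃ a, a' = eA a := fun a' =>
      ⟨eA.symm a', (MulEquiv.apply_symm_apply eA a').symm⟩
    have hcA : ∀ a : A (Fin.last n), ((eA a : (A (Fin.last n)).map ι) : G) = ι a := fun a => rfl
    have huniv : ∀ (H : Type) (_ : Group H) (f' : M →* H) (u : Fin (n + 1) → H),
        (∀ i (a : A i), u i * f' a = f' (φ i a) * u i) →
        ∃ h : HNNExtension G ((A (Fin.last n)).map ι) ((B (Fin.last n)).map ι) φ' →* H,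
          (∀ m, h (of (ι m)) = f' m) ∧
          ∀ i, h (Fin.lastCases (motive := fun _ => HNNExtension G ((A (Fin.last n)).map ι)
            ((B (Fin.last n)).map ι) φ') t (fun i => of (t' i)) i) = u i := by
      intro H _ f' u hu
      obtain ⟨h, h5, h6⟩ := h3 H inferInstance f' (fun i => u i.castSucc) (fun i => hu i.castSucc)
      refine ⟨HNNExtension.lift h (u (Fin.last n)) ?_, ?_, ?_⟩
      · intro a'
        obtain ⟨a, rfl⟩ := heA a'
        rw [hφ', h5, hcA, h5]
        exact hu _ a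
      · intro m
        rw [HNNExtension.lift_of, h5]
      · intro i
        refine Fin.lastCases ?_ (fun i => ?_) i
        · rw [Fin.lastCases_last, HNNExtension.lift_t]
        · rw [Fin.lastCases_castSucc, HNNExtension.lift_of, h6]
    -- the quotient
    have hNφ : ∀ a' : (A (Fin.last n)).map ι, (a' : G) ∈ N ↔ (φ' a' : G) ∈ N := by
      intro a'
      obtain ⟨a, rfl⟩ := heA a'
      rw [hφ', hcA, hN1, hN1]
      have h5 := hT (Fin.last n) a
      constructor
      · intro h6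
        rw [h6, mul_one] at h5
        exact mul_eq_right.1 h5.symm
      · intro h6
        rw [h6, one_mul] at h5
        exact mul_eq_left.1 h5
    obtain ⟨A', B', φq, hq1, hq2⟩ := exists_quot φ' N hNφ
    obtain ⟨Φ, hΦ1, hΦ2, hΦ3⟩ := hnn_quot φ' N φq hq1 hq2
    obtain ⟨F, hF, -⟩ := h3 P inferInstance f (fun i => T i.castSucc) (fun i => hT i.castSucc)
    have hNF : N ≤ F.ker := hN4 F.ker inferInstance fun m hm => by
      rw [MonoidHom.mem_ker, hF, hm]
    obtain ⟨Fq, hFq⟩ : ∃ Fq : G ⧸ N →* P, ∀ g, Fq (QuotientGroup.mk' N g) = F g :=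
      ⟨QuotientGroup.lift N F hNF, fun g => rfl⟩
    have hFT : ∀ a' : A', T (Fin.last n) * Fq (a' : G ⧸ N) = Fq (φq a' : G ⧸ N) * T (Fin.last n) := by
      rintro ⟨a', ha'⟩
      obtain ⟨a1, rfl⟩ := hq2 a' ha'
      obtain ⟨h7, h8⟩ := hq1 a1
      have h9 : ((φq ⟨QuotientGroup.mk' N (a1 : G), ha'⟩ : B') : G ⧸ N) =
        QuotientGroup.mk' N (φ' a1 : G) := h8
      rw [h9, hFq, hFq]
      obtain ⟨a, rfl⟩ := heA a1
      rw [hφ', hF, hcA, hF]
      exact hT _ a
    have hCq : C (HNNExtension (G ⧸ N) A' B' φq) := by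
      refine hnn_edge hC hN3 (HNNExtension.lift Fq (T (Fin.last n)) hFT) hP ?_
      intro a' ha' h5
      rw [HNNExtension.lift_of] at h5
      obtain ⟨a1, rfl⟩ := hq2 a' ha'
      obtain ⟨a, rfl⟩ := heA a1
      rw [hFq, hcA, hF] at h5
      exact (QuotientGroup.eq_one_iff _).2 ((hN1 _).2 h5)
    have hker : (Φ.comp of).ker = N := by
      ext g
      rw [MonoidHom.mem_ker, MonoidHom.comp_apply, hΦ2]
    have hA' : ∀ a ∈ (A (Fin.last n)).map ι, a ∈ ⁅(Φ.comp of).ker, (Φ.comp of).ker⁆ → a = 1 := by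
      rw [hker]
      rintro _ ⟨a, ha, rfl⟩ h5
      rw [hA _ a ha (hN2 a h5), map_one]
    have hB' : ∀ b ∈ (B (Fin.last n)).map ι, b ∈ ⁅(Φ.comp of).ker, (Φ.comp of).ker⁆ → b = 1 := by
      rw [hker]
      rintro _ ⟨b, hb, rfl⟩ h5
      rw [hB _ b hb (hN2 b h5), map_one]
    refine ⟨HNNExtension G ((A (Fin.last n)).map ι) ((B (Fin.last n)).map ι) φ', inferInstance,
      of.comp ι, Fin.lastCases t (fun i => of (t' i)), (HNNExtension.of_injective φ').comp h1,
      ?_, huniv, ?_, Φ.ker, inferInstance, ?_, ?_, ?_, ?_⟩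
    · intro i
      refine Fin.lastCases ?_ (fun i => ?_) i
      · intro a
        beta_reduce
        rw [Fin.lastCases_last, MonoidHom.comp_apply, MonoidHom.comp_apply, ← hφ' a]
        exact HNNExtension.t_mul_of (eA a)
      · intro a
        beta_reduce
        rw [Fin.lastCases_castSucc, MonoidHom.comp_apply, MonoidHom.comp_apply, ← map_mul, h2,
          map_mul]
    · exact hnn_h1 hC hM2 h4 Φ hCq hA' hB'
    · intro m
      rw [MonoidHom.mem_ker, MonoidHom.comp_apply, hΦ2, hN1]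
    · intro m hm
      have h5 := hnn_star Φ hA' hB' (fun D hD hmD => hΦ3 D hD (hker ▸ hmD)) (ι m) hm
      rw [hker] at h5
      exact hN2 m h5
    · exact hC.base.of_injective _ _ (QuotientGroup.kerLift Φ) (QuotientGroup.kerLift_injective Φ)
        hCq
    · intro D hD hmD
      refine hΦ3 D hD ?_
      have h5 := hN4 (D.comap of) inferInstance (fun m hm => hmD m hm)
      exact fun g hg => h5 hg

theorem Ch_MH (hC : ClosedE C) (hM2 : ∀ (G : Type) [Group G], derivedSeries G 2 = ⊥ → C G)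
    (hM : C M) {P : Type} [Group P] (hP : C P) (f : M →* P)
    {I : Type} [Finite I] (A B : I → Subgroup M) (φ : ∀ i, A i ≃* B i) (T : I → P)
    (hT : ∀ i (a : A i), T i * f a = f (φ i a) * T i)
    (hA : ∀ i, ∀ a ∈ A i, a ∈ ⁅f.ker, f.ker⁆ → a = 1)
    (hB : ∀ i, ∀ b ∈ B i, b ∈ ⁅f.ker, f.ker⁆ → b = 1) :
    C (MH A B φ) ∧ Function.Injective ((QuotientGroup.mk' (Subgroup.normalClosure
      (Rel A B φ))).comp Monoid.Coprod.inl) := by
  obtain ⟨n, ⟨e⟩⟩ := Finite.exists_equiv_fin I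
  obtain ⟨G, _, ι, t', h1, h2, h3, h4, -⟩ := towerh hC hM2 hM hP f n (fun i => A (e.symm i))
    (fun i => B (e.symm i)) (fun i => φ (e.symm i)) (fun i => T (e.symm i))
    (fun i => hT (e.symm i)) (fun i => hA (e.symm i)) (fun i => hB (e.symm i))
  have h2' : ∀ i (a : A i), t' (e i) * ι a = ι (φ i a) * t' (e i) := by
    intro i a
    obtain ⟨j, rfl⟩ := e.symm.surjective i
    rw [Equiv.apply_symm_apply]
    exact h2 j a
  obtain ⟨F, hF1, hF2⟩ := MH_lift (φ := φ) ι (fun i => t' (e i)) h2'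
  obtain ⟨K, hK1, hK2⟩ := h3 (MH A B φ) inferInstance
    ((QuotientGroup.mk' _).comp Monoid.Coprod.inl)
    (fun i => QuotientGroup.mk' _ (Monoid.Coprod.inr (FreeGroup.of (e.symm i))))
    (fun i a => MH_rel (e.symm i) a)
  refine ⟨hC.base.of_injective _ _ F ?_ h4, fun m m' hm => h1 ?_⟩
  swap
  · rw [← hF1, ← hF1]
    exact congrArg F hm
  have hid : (K.comp F).comp (QuotientGroup.mk' _) = QuotientGroup.mk' _ := by
    apply Monoid.Coprod.hom_ext
    · ext m
      show K (F (QuotientGroup.mk' _ (Monoid.Coprod.inl m))) = _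
      rw [hF1, hK1]
    · apply FreeGroup.ext_hom
      intro i
      show K (F (QuotientGroup.mk' _ (Monoid.Coprod.inr (FreeGroup.of i)))) = _
      rw [hF2, hK2, Equiv.symm_apply_apply]
      rfl
  intro x y hxy
  have h5 : ∀ z : MH A B φ, K (F z) = z := by
    intro z
    obtain ⟨w, rfl⟩ := QuotientGroup.mk'_surjective _ z
    exact DFunLike.congr_fun hid w
  rw [← h5 x, hxy, h5 y]

end tower

section gog

variable {C : ∀ (G : Type) [Group G], Prop} {V E : Type} {o t : E → V}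
  {G G' : V → Type} [∀ v, Group (G v)] [∀ v, Group (G' v)]

theorem pr_map (e : ∀ v, G v →* G' v) (e' : Monoid.CoprodI G →* Monoid.CoprodI G')
    (he' : ∀ v (g : G v), e' (Monoid.CoprodI.of g) = Monoid.CoprodI.of (e v g)) (v : V)
    (z : Monoid.CoprodI G) : pr v (e' z) = e v (pr v z) := by
  have h1 : (pr v).comp e' = (e v).comp (pr v) := by
    refine Monoid.CoprodI.ext_hom _ _ fun u => MonoidHom.ext fun g => ?_
    show pr v (e' (Monoid.CoprodI.of g)) = e v (pr v (Monoid.CoprodI.of g))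
    rw [he']
    by_cases huv : u = v
    · subst huv
      rw [pr_of, pr_of]
    · rw [pr_of_ne huv, pr_of_ne huv, map_one]
  exact DFunLike.congr_fun h1 z

theorem of_comm (e : ∀ v, G v →* G' v) (e' : Monoid.CoprodI G →* Monoid.CoprodI G')
    (he' : ∀ v (g : G v), e' (Monoid.CoprodI.of g) = Monoid.CoprodI.of (e v g)) (v : V)
    (g : G v) (h : Monoid.CoprodI.of g ∈ ⁅e'.ker, e'.ker⁆) : g ∈ ⁅(e v).ker, (e v).ker⁆ := by
  have h1 : pr v (Monoid.CoprodI.of g) ∈ (⁅e'.ker, e'.ker⁆).map (pr v) := ⟨_, h, rfl⟩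
  rw [pr_of, Subgroup.map_commutator] at h1
  have h2 : e'.ker.map (pr v) ≤ (e v).ker := by
    rintro _ ⟨z, hz, rfl⟩
    rw [MonoidHom.mem_ker, ← pr_map e e' he', MonoidHom.mem_ker.1 hz, map_one]
  exact Subgroup.commutator_mono h2 h2 h1

end gog

end Pool.Agent.V5helper8.EH
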