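import Pool.Agent.V5helper8.EH.Nil

set_option autoImplicit false

/-!
# Mapping tori of endomorphisms of solvable groups
-/

namespace Pool.Agent.V5helper8.EH

open Filter

variable {C : ∀ (G : Type) [Group G], Prop} {M : Type} [Group M]

/-- the group of germs of sequences at `+∞` with a shift contains an image of the mapping torus -/
theorem of_seq (ψ : M →* M) (h : C (Sh M ⧸ Np M)) : HasTorus C ψ := by
  let F : M →* Sh M ⧸ Np M := (QuotientGroup.mk' (Np M)).comp
    (MonoidHom.mk' (fun m => (⟨fun i => if 0 ≤ i then ψ^[i.toNat] m else 1, 0⟩ : Sh M)) (by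
      intro x y
      refine Sh.ext ?_ ?_
      · funext i
        show (if 0 ≤ i then ψ^[i.toNat] (x * y) else 1) =
          (if 0 ≤ i + 0 then ψ^[(i + 0).toNat] x else 1) * (if 0 ≤ i then ψ^[i.toNat] y else 1)
        rw [add_zero]
        split_ifs
        · exact iterate_map_mul ψ _ x y
        · exact (mul_one 1).symm
      · rfl))
  let T : Sh M ⧸ Np M := QuotientGroup.mk' (Np M) ⟨fun _ => 1, -1⟩
  have hT : ∀ m, T * F m = F (ψ m) * T := by
    intro m
    show (QuotientGroup.mk' (Np M)) _ * (QuotientGroup.mk' (Np M)) _ =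
      (QuotientGroup.mk' (Np M)) _ * (QuotientGroup.mk' (Np M)) _
    rw [← map_mul, ← map_mul]
    refine QuotientGroup.eq.2 ⟨?_, ?_⟩
    · show -((-1 : ℤ) + 0) + (0 + -1) = 0
      norm_num
    · filter_upwards [eventually_ge_atTop (2 : ℤ)] with i hi
      show (1 * (if 0 ≤ i + (0 + -1) - (-1 + 0) then ψ^[(i + (0 + -1) - (-1 + 0)).toNat] m
        else 1))⁻¹ * ((if 0 ≤ i + -1 then ψ^[(i + -1).toNat] (ψ m) else 1) * 1) = 1
      rw [if_pos (by omega), if_pos (by omega), one_mul, mul_one, ← Function.iterate_succ_apply,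
        show (i + (0 + -1) - (-1 + 0)).toNat = (i + -1).toNat + 1 by omega]
      exact inv_mul_cancel _
  refine ⟨Sh M ⧸ Np M, inferInstance, F, T, h, ?_, ?_⟩
  · intro m
    rw [hT, mul_inv_cancel_right]
  · intro m hm
    have h3 := (QuotientGroup.eq_one_iff _).1 hm
    obtain ⟨i, h4, h5⟩ := (h3.2.and (eventually_ge_atTop 0)).exists
    refine ⟨i.toNat, ?_⟩
    have h6 : (if 0 ≤ i then ψ^[i.toNat] m else 1) = 1 := h4
    rwa [if_pos h5] at h6

theorem solvable_Sh (hM : Group.IsSolvable M) : Group.IsSolvable (Sh M) := by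
  have h1 : Group.IsSolvable (ℤ → M) := by
    obtain ⟨n, hn⟩ := hM.solvable
    refine ⟨n, ?_⟩
    rw [eq_bot_iff]
    intro x hx
    rw [Subgroup.mem_bot]
    funext i
    have h2 := map_derivedSeries_le_derivedSeries (Pi.evalMonoidHom (fun _ : ℤ => M) i) n
      (Subgroup.mem_map_of_mem _ hx)
    rw [hn, Subgroup.mem_bot] at h2
    exact h2
  let f : (ℤ → M) →* Sh M := MonoidHom.mk' (fun s => ⟨s, 0⟩) (by
    intro a b
    refine Sh.ext ?_ ?_
    · funext i
      show a i * b i = a (i + 0) * b i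
      rw [add_zero]
    · rfl)
  let g : Sh M →* Multiplicative ℤ :=
    MonoidHom.mk' (fun w => Multiplicative.ofAdd w.n) fun a b => rfl
  refine Group.isSolvable_of_ker_le_range f g ?_
  intro w hw
  have h2 : w.n = 0 := congrArg Multiplicative.toAdd (hw : g w = 1)
  exact ⟨w.s, Sh.ext rfl h2.symm⟩

/-- mapping tori of endomorphisms of solvable groups -/
theorem of_solvable (hS : ∀ (G : Type) [Group G], Group.IsSolvable G → C G) (hM : Group.IsSolvable M)
    (ψ : M →* M) : HasTorus C ψ := by
  have h1 := solvable_Sh hM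
  exact of_seq ψ (hS _ (Group.isSolvable_of_surjective (QuotientGroup.mk'_surjective (Np M))))

end Pool.Agent.V5helper8.EH
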