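import Pool.Agent.V5helper8.EH.HomB
import Pool.Agent.V5helper8.EH.Solv

set_option autoImplicit false

/-!
# Graphs of groups and chains of normal subgroups
-/

namespace Pool.Agent.V5helper8.EH

open Pool.Agent.Y110.FJ (ClosedE)
open Pool.Agent.Y462.SS (Closed)
open Pool.Agent.R941.FJ (C_equiv C_le C_cyc mem_sup_normal)
open scoped commutatorElement

/-! ## the relations of two families of homomorphisms -/

section ranges

/-- the relations `i a_i(s) i⁻¹ = b_i(s)` -/
def RR {M I : Type} [Group M] {S : I → Type} [∀ i, Group (S i)] (a b : ∀ i, S i →* M) :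
    Set (Monoid.Coprod M (FreeGroup I)) :=
  {r | ∃ (i : I) (s : S i), r = Monoid.Coprod.inr (FreeGroup.of i) * Monoid.Coprod.inl (a i s) *
        (Monoid.Coprod.inr (FreeGroup.of i))⁻¹ * (Monoid.Coprod.inl (b i s))⁻¹}

theorem exists_rng {S M : Type} [Group S] [Group M] (a b : S →* M) (h : a.ker = b.ker) :
    ∃ φ : a.range ≃* b.range, ∀ s, ((φ ⟨a s, ⟨s, rfl⟩⟩ : b.range) : M) = b s := by
  let e1 := QuotientGroup.quotientKerEquivRange a
  let e2 := QuotientGroup.quotientKerEquivRange b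
  let e3 := QuotientGroup.quotientMulEquivOfEq h
  refine ⟨e1.symm.trans (e3.trans e2), fun s => ?_⟩
  have h1 : (⟨a s, ⟨s, rfl⟩⟩ : a.range) = e1 (QuotientGroup.mk s) := rfl
  rw [h1]
  show ((e2 (e3 (e1.symm (e1 (QuotientGroup.mk s)))) : b.range) : M) = _
  rw [MulEquiv.symm_apply_apply]
  rfl

variable {C : ∀ (G : Type) [Group G], Prop} {M I : Type} [Group M] {S : I → Type}
  [∀ i, Group (S i)]

theorem RR_eq (a b : ∀ i, S i →* M) (φ : ∀ i, (a i).range ≃* (b i).range)
    (hφ : ∀ i s, ((φ i ⟨a i s, ⟨s, rfl⟩⟩ : (b i).range) : M) = b i s) :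
    Rel (fun i => (a i).range) (fun i => (b i).range) φ = RR a b := by
  ext r
  constructor
  · rintro ⟨i, ⟨_, ⟨s, rfl⟩⟩, rfl⟩
    exact ⟨i, s, by rw [hφ]⟩
  · rintro ⟨i, s, rfl⟩
    exact ⟨i, ⟨a i s, ⟨s, rfl⟩⟩, by rw [hφ]⟩

/-- the group is in the class, and `M` embeds in it -/
def CI (C : ∀ (G : Type) [Group G], Prop) {M I : Type} [Group M]
    (R : Set (Monoid.Coprod M (FreeGroup I))) : Prop :=
  C (Monoid.Coprod M (FreeGroup I) ⧸ Subgroup.normalClosure R) ∧
    Function.Injective ((QuotientGroup.mk' (Subgroup.normalClosure R)).comp Monoid.Coprod.inl)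

theorem CI_RR [Finite I] (hC : ClosedE C)
    (hM2 : ∀ (G : Type) [Group G], derivedSeries G 2 = ⊥ → C G)
    (hM : C M) {P : Type} [Group P] (hP : C P) (f : M →* P) (a b : ∀ i, S i →* M)
    (hk : ∀ i, (a i).ker = (b i).ker) (T : I → P)
    (hT : ∀ i s, T i * f (a i s) = f (b i s) * T i)
    (hA : ∀ i s, a i s ∈ ⁅f.ker, f.ker⁆ → a i s = 1)
    (hB : ∀ i s, b i s ∈ ⁅f.ker, f.ker⁆ → b i s = 1) : CI C (RR a b) := by
  choose φ hφ using fun i => exists_rng (a i) (b i) (hk i)
  rw [← RR_eq a b φ hφ]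
  refine Ch_MH hC hM2 hM hP f _ _ φ T ?_ ?_ ?_
  · rintro i ⟨_, ⟨s, rfl⟩⟩
    rw [hφ]
    exact hT i s
  · rintro i _ ⟨s, rfl⟩ h
    exact hA i s h
  · rintro i _ ⟨s, rfl⟩ h
    exact hB i s h

theorem C_RR_inf (hC : Closed C) (a b : ∀ i, S i →* M) (hk : ∀ i, (a i).ker = (b i).ker)
    (h : ∀ J : Finset I, C (Monoid.Coprod M (FreeGroup J) ⧸ Subgroup.normalClosure
      (RR (fun i : J => a i) (fun i : J => b i)))) :
    C (Monoid.Coprod M (FreeGroup I) ⧸ Subgroup.normalClosure (RR a b)) := by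
  choose φ hφ using fun i => exists_rng (a i) (b i) (hk i)
  refine C_normalClosure (RR_eq a b φ hφ) ?_
  refine C_MH_inf hC (fun i => (a i).range) (fun i => (b i).range) φ fun J => ?_
  exact C_normalClosure (RR_eq (fun i : J => a i) (fun i : J => b i) (fun i : J => φ i)
    (fun i : J => hφ i)).symm (h J)

theorem RR_rel (a b : ∀ i, S i →* M) (i : I) (s : S i) :
    QuotientGroup.mk' (Subgroup.normalClosure (RR a b)) (Monoid.Coprod.inr (FreeGroup.of i)) *
      QuotientGroup.mk' (Subgroup.normalClosure (RR a b)) (Monoid.Coprod.inl (a i s)) =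
      QuotientGroup.mk' (Subgroup.normalClosure (RR a b)) (Monoid.Coprod.inl (b i s)) *
        QuotientGroup.mk' (Subgroup.normalClosure (RR a b))
          (Monoid.Coprod.inr (FreeGroup.of i)) := by
  have h1 : Monoid.Coprod.inr (FreeGroup.of i) * Monoid.Coprod.inl (a i s) *
      (Monoid.Coprod.inr (FreeGroup.of i))⁻¹ * (Monoid.Coprod.inl (b i s))⁻¹ ∈
      Subgroup.normalClosure (RR a b) := Subgroup.subset_normalClosure ⟨i, s, rfl⟩
  have h2 := (QuotientGroup.eq_one_iff _).2 h1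
  rw [← mul_inv_eq_iff_eq_mul, ← mul_inv_eq_one]
  exact h2

end ranges

/-! ## extensions with abelian kernel -/

section ext

variable {C : ∀ (G : Type) [Group G], Prop}

/-- extensions with abelian kernel -/
theorem ab_ext (hC : ClosedE C) (hM2 : ∀ (G : Type) [Group G], derivedSeries G 2 = ⊥ → C G)
    {G Q : Type} [Group G] [Group Q] (q : G →* Q) (hQ : C Q)
    (hab : ∀ x ∈ q.ker, ∀ y ∈ q.ker, x * y = y * x) : C G := by
  have hQN : C (G ⧸ q.ker) :=
    hC.base.of_injective _ _ (QuotientGroup.kerLift q) (QuotientGroup.kerLift_injective q) hQ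
  have key : ∀ g : G, C ↥(q.ker ⊔ Subgroup.zpowers g) := by
    intro g
    refine hM2 _ (Pool.Agent.N509.TK.metab (q.ker.subgroupOf (q.ker ⊔ Subgroup.zpowers g)) ?_ ?_)
    · intro x hx y hy
      exact Subtype.ext (hab x hx y hy)
    · rintro ⟨x, hx⟩ ⟨y, hy⟩
      obtain ⟨a, ha, _, ⟨i, rfl⟩, rfl⟩ := mem_sup_normal.1 hx
      obtain ⟨b, hb, _, ⟨j, rfl⟩, rfl⟩ := mem_sup_normal.1 hy
      rw [Subgroup.mem_subgroupOf]
      show q ⁅a * g ^ i, b * g ^ j⁆ = 1
      rw [map_commutatorElement, map_mul, map_mul, MonoidHom.mem_ker.1 ha, MonoidHom.mem_ker.1 hb,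
        one_mul, one_mul, map_zpow, map_zpow, commutatorElement_eq_one_iff_mul_comm, ← zpow_add,
        add_comm, zpow_add]
  refine Pool.Agent.Y529.FJ.t_ext C hC _ q.ker ?_ hQN fun g _ => key g
  exact C_le hC.base le_sup_left (key 1)

/-- solvable groups -/
theorem solvable_mem (hC : ClosedE C) (hM2 : ∀ (G : Type) [Group G], derivedSeries G 2 = ⊥ → C G)
    (G : Type) [Group G] (hG : Group.IsSolvable G) : C G := by
  obtain ⟨n, hn⟩ := hG.solvable
  have h1 : ∀ j, C (G ⧸ derivedSeries G j) := by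
    intro j
    induction j with
    | zero =>
      refine hM2 _ ?_
      rw [eq_bot_iff]
      intro x _
      obtain ⟨g, rfl⟩ := QuotientGroup.mk'_surjective _ x
      exact (QuotientGroup.eq_one_iff g).2 (Subgroup.mem_top g)
    | succ j ih =>
      have hle : derivedSeries G (j + 1) ≤ derivedSeries G j :=
        derivedSeries_antitone G (Nat.le_succ j)
      refine ab_ext hC hM2 (QuotientGroup.map _ _ (MonoidHom.id G) hle) ih ?_
      intro x hx y hy
      obtain ⟨x, rfl⟩ := QuotientGroup.mk'_surjective _ x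
      obtain ⟨y, rfl⟩ := QuotientGroup.mk'_surjective _ y
      have hx' : x ∈ derivedSeries G j := (QuotientGroup.eq_one_iff x).1 hx
      have hy' : y ∈ derivedSeries G j := (QuotientGroup.eq_one_iff y).1 hy
      rw [← map_mul, ← map_mul]
      refine QuotientGroup.eq.2 ?_
      have h2 : (x * y)⁻¹ * (y * x) = ⁅y⁻¹, x⁻¹⁆ := by
        rw [commutatorElement_def]
        group
      rw [h2, derivedSeries_succ]
      exact Subgroup.commutator_mem_commutator (inv_mem hy') (inv_mem hx')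
  refine hC.base.of_injective _ _ (QuotientGroup.mk' (derivedSeries G n)) ?_ (h1 n)
  rw [← MonoidHom.ker_eq_bot_iff, QuotientGroup.ker_mk', hn]

end ext

/-! ## the steps -/

section gog

variable {C : ∀ (G : Type) [Group G], Prop} {V E : Type} {o t : E → V}

/-- one step -/
theorem stepg [Finite E] (hC : ClosedE C)
    (hM2 : ∀ (G : Type) [Group G], derivedSeries G 2 = ⊥ → C G)
    {S : E → Type} [∀ x, Group (S x)] {G Q : V → Type} [∀ v, Group (G v)] [∀ v, Group (Q v)]
    (i : ∀ x, S x →* G (o x)) (j : ∀ x, S x →* G (t x)) (q : ∀ v, G v →* Q v)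
    (hG : ∀ v, C (G v)) {P : Type} [Group P] (hP : C P) (g : Monoid.CoprodI Q →* P)
    (hg : Function.Injective g) (T : E → P)
    (hT : ∀ x s, T x * g (Monoid.CoprodI.of (q (o x) (i x s))) =
      g (Monoid.CoprodI.of (q (t x) (j x s))) * T x)
    (hk : ∀ x, (i x).ker = (j x).ker)
    (hA : ∀ x s, i x s ∈ ⁅(q (o x)).ker, (q (o x)).ker⁆ → i x s = 1)
    (hB : ∀ x s, j x s ∈ ⁅(q (t x)).ker, (q (t x)).ker⁆ → j x s = 1) :
    CI C (RR (fun x => (Monoid.CoprodI.of (M := G)).comp (i x))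
      (fun x => (Monoid.CoprodI.of (M := G)).comp (j x))) := by
  classical
  obtain ⟨q', hq'⟩ : ∃ q' : Monoid.CoprodI G →* Monoid.CoprodI Q,
      ∀ v (x : G v), q' (Monoid.CoprodI.of x) = Monoid.CoprodI.of (q v x) :=
    ⟨Monoid.CoprodI.lift fun v => (Monoid.CoprodI.of (i := v)).comp (q v),
      fun v x => Monoid.CoprodI.lift_of _ _⟩
  have hker : (g.comp q').ker = q'.ker := by
    ext m
    rw [MonoidHom.mem_ker, MonoidHom.mem_ker, MonoidHom.comp_apply]
    exact ⟨fun h => hg (h.trans (map_one _).symm), fun h => by rw [h, map_one]⟩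
  refine CI_RR hC hM2 (C_coprodI hC hG) hP (g.comp q') _ _ ?_ T ?_ ?_ ?_
  · intro x
    ext s
    rw [MonoidHom.mem_ker, MonoidHom.mem_ker, MonoidHom.comp_apply, MonoidHom.comp_apply,
      ← map_one (Monoid.CoprodI.of (M := G) (i := o x)),
      (Monoid.CoprodI.of_injective (M := G) (o x)).eq_iff,
      ← MonoidHom.mem_ker, hk x, MonoidHom.mem_ker]
    constructor
    · intro h
      rw [h, map_one, map_one]
    · intro h
      rw [map_one] at h
      exact Monoid.CoprodI.of_injective (M := G) (t x) (h.trans (map_one _).symm)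
  · intro x s
    rw [MonoidHom.comp_apply, MonoidHom.comp_apply, MonoidHom.comp_apply, MonoidHom.comp_apply,
      hq', hq']
    exact hT x s
  · intro x s h
    rw [hker] at h
    rw [MonoidHom.comp_apply, hA x s (of_comm q q' hq' _ _ h), map_one]
  · intro x s h
    rw [hker] at h
    rw [MonoidHom.comp_apply, hB x s (of_comm q q' hq' _ _ h), map_one]

/-- the next step -/
theorem next_step [Finite E] (hC : ClosedE C)
    (hM2 : ∀ (G : Type) [Group G], derivedSeries G 2 = ⊥ → C G)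
    {S : E → Type} [∀ x, Group (S x)] {G Q : V → Type} [∀ v, Group (G v)] [∀ v, Group (Q v)]
    (i : ∀ x, S x →* G (o x)) (j : ∀ x, S x →* G (t x))
    (i₀ : ∀ x, S x →* Q (o x)) (j₀ : ∀ x, S x →* Q (t x)) (q : ∀ v, G v →* Q v)
    (hi₀ : ∀ x s, q (o x) (i x s) = i₀ x s) (hj₀ : ∀ x s, q (t x) (j x s) = j₀ x s)
    (hG : ∀ v, C (G v))
    (ih : CI C (RR (fun x => (Monoid.CoprodI.of (M := Q)).comp (i₀ x))
      (fun x => (Monoid.CoprodI.of (M := Q)).comp (j₀ x))))
    (hk : ∀ x, (i x).ker = (j x).ker)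
    (hA : ∀ x s, i x s ∈ ⁅(q (o x)).ker, (q (o x)).ker⁆ → i x s = 1)
    (hB : ∀ x s, j x s ∈ ⁅(q (t x)).ker, (q (t x)).ker⁆ → j x s = 1) :
    CI C (RR (fun x => (Monoid.CoprodI.of (M := G)).comp (i x))
      (fun x => (Monoid.CoprodI.of (M := G)).comp (j x))) := by
  refine stepg hC hM2 i j q hG ih.1 _ ih.2
    (fun x => QuotientGroup.mk' _ (Monoid.Coprod.inr (FreeGroup.of x))) ?_ hk hA hB
  intro x s
  rw [hi₀, hj₀]
  exact RR_rel (fun x => (Monoid.CoprodI.of (M := Q)).comp (i₀ x))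
      (fun x => (Monoid.CoprodI.of (M := Q)).comp (j₀ x)) x s

variable {G G' : V → Type} [∀ v, Group (G v)] [∀ v, Group (G' v)]

/-- the first step -/
theorem first_step [Finite E] (hC : ClosedE C)
    (hM2 : ∀ (G : Type) [Group G], derivedSeries G 2 = ⊥ → C G)
    {S : E → Type} [∀ x, Group (S x)]
    (i : ∀ x, S x →* G (o x)) (j : ∀ x, S x →* G (t x))
    (e : ∀ v, G v →* G' v) (he : ∀ v, (e v).ker = ⊥) (α : ∀ x, G' (o x) →* G' (t x))
    (β : ∀ x, G' (t x) →* G' (o x)) (hG : ∀ v, C (G v)) (hG' : ∀ v, C (G' v))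
    (hα : ∀ x s, α x (e (o x) (i x s)) = e (t x) (j x s))
    (hβ : ∀ x s, β x (e (t x) (j x s)) = e (o x) (i x s))
    (hk : ∀ x, (i x).ker = (j x).ker)
    (hT : ∀ (L : List (E × Bool)) (v : V) (ψ : G' v →* G' v), Along α β L v v ψ → L ≠ [] →
      FreeGroup.IsCyclicallyReduced L → HasTorus C ψ) :
    CI C (RR (fun x => (Monoid.CoprodI.of (M := G)).comp (i x))
      (fun x => (Monoid.CoprodI.of (M := G)).comp (j x))) := by
  classical
  have hP : C (Pq (ab (fun x => ex (α x)) (fun x => ex (β x)))) := by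
    refine C_Pq _ hC (C_coprodI hC hG') fun g hg hgg => ?_
    have h0 : FreeGroup.IsCyclicallyReduced g.toWord := ⟨FreeGroup.isReduced_toWord, Rd_iff.1 hgg⟩
    have h1 : g.toWord ≠ [] := fun h => hg (FreeGroup.toWord_eq_nil_iff.1 h)
    have h2 := torus_cmp (C := C) hC.base α β h1 fun v ψ h => hT g.toWord v ψ h h1 h0
    have h3 : cmp (fun x => ex (α x)) (fun x => ex (β x)) g.toWord =
        gam (ab (fun x => ex (α x)) (fun x => ex (β x))) g :=
      MonoidHom.ext fun m => by rw [cmp_eq, gam_apply]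
    rwa [h3] at h2
  refine stepg hC hM2 i j e hG hP
    (iotaq (ab (fun x => ex (α x)) (fun x => ex (β x)))) (iotaq_injective _)
    (ttq (ab (fun x => ex (α x)) (fun x => ex (β x)))) ?_ hk ?_ ?_
  · intro x s
    refine ttq_iota (α := fun x => ex (α x)) (β := fun x => ex (β x)) (i := x) ?_ ?_
    · show Monoid.CoprodI.of (α x (pr (o x) (Monoid.CoprodI.of (e (o x) (i x s))))) =
        Monoid.CoprodI.of (e (t x) (j x s))
      rw [pr_of, hα]
    · show Monoid.CoprodI.of (β x (pr (t x) (Monoid.CoprodI.of (e (t x) (j x s))))) =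
        Monoid.CoprodI.of (e (o x) (i x s))
      rw [pr_of, hβ]
  · intro x s h
    rw [he, Subgroup.commutator_bot_left] at h
    exact Subgroup.mem_bot.1 h
  · intro x s h
    rw [he, Subgroup.commutator_bot_left] at h
    exact Subgroup.mem_bot.1 h

end gog

end Pool.Agent.V5helper8.EH
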