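import Pool.Agent.V5helper8.EH.HomC

set_option autoImplicit false

/-!
# Graphs of groups and chains of normal subgroups, the theorem
-/

namespace Pool.Agent.V5helper8.EH

open Pool.Agent.Y110.FJ (ClosedE)
open Pool.Agent.Y462.SS (Closed)
open scoped commutatorElement

section gog

variable {C : ∀ (G : Type) [Group G], Prop} {V E : Type} {o t : E → V}
  {G G' : V → Type} [∀ v, Group (G v)] [∀ v, Group (G' v)]

/-- the quotients of the vertex groups -/
def QF (F : ∀ v, ℕ → Subgroup (G v)) (k : ℕ) (v : V) : Type := G v ⧸ F v k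

instance (F : ∀ v, ℕ → Subgroup (G v)) [hF : ∀ v k, (F v k).Normal] (k : ℕ) (v : V) :
    Group (QF F k v) := inferInstanceAs (Group (G v ⧸ F v k))

/-- the projection -/
def qf (F : ∀ v, ℕ → Subgroup (G v)) [hF : ∀ v k, (F v k).Normal] (k : ℕ) (v : V) :
    G v →* QF F k v := QuotientGroup.mk' (F v k)

theorem qf_eq_one (F : ∀ v, ℕ → Subgroup (G v)) [hF : ∀ v k, (F v k).Normal] (k : ℕ) (v : V)
    (g : G v) : qf F k v g = 1 ↔ g ∈ F v k := QuotientGroup.eq_one_iff g

theorem qf_surj (F : ∀ v, ℕ → Subgroup (G v)) [hF : ∀ v k, (F v k).Normal] (k : ℕ) (v : V)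
    (x : QF F k v) : ∃ g, qf F k v g = x := QuotientGroup.mk'_surjective _ x

theorem exists_qq (F : ∀ v, ℕ → Subgroup (G v)) [hF : ∀ v k, (F v k).Normal] (k : ℕ) (v : V)
    (h : F v (k + 1) ≤ F v k) : ∃ q : QF F (k + 1) v →* QF F k v,
      ∀ g, q (qf F (k + 1) v g) = qf F k v g :=
  ⟨QuotientGroup.map (F v (k + 1)) (F v k) (MonoidHom.id (G v)) h, fun _ => rfl⟩

theorem exists_q0 (F : ∀ v, ℕ → Subgroup (G v)) [hF : ∀ v k, (F v k).Normal] (v : V)
    (e : G v →* G' v) (h : F v 0 ≤ e.ker) : ∃ q : QF F 0 v →* G' v,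
      ∀ g, q (qf F 0 v g) = e g :=
  ⟨QuotientGroup.lift (F v 0) e h, fun _ => rfl⟩

/-- **graphs of groups with chains of normal subgroups**, finitely many edges -/
theorem chain_fin [Finite E] (hC : ClosedE C)
    (hM2 : ∀ (G : Type) [Group G], derivedSeries G 2 = ⊥ → C G)
    {S : E → Type} [∀ x, Group (S x)]
    (i : ∀ x, S x →* G (o x)) (j : ∀ x, S x →* G (t x))
    (hi : ∀ x, (i x).ker = ⊥) (hj : ∀ x, (j x).ker = ⊥)
    (e : ∀ v, G v →* G' v) (α : ∀ x, G' (o x) →* G' (t x))
    (β : ∀ x, G' (t x) →* G' (o x)) (hG : ∀ v, C (G v)) (hG' : ∀ v, C (G' v))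
    (hα : ∀ x s, α x (e (o x) (i x s)) = e (t x) (j x s))
    (hβ : ∀ x s, β x (e (t x) (j x s)) = e (o x) (i x s))
    (F : ∀ v, ℕ → Subgroup (G v)) [hF : ∀ v k, (F v k).Normal]
    (hF0 : ∀ v, F v 0 = (e v).ker) (hF1 : ∀ v k, F v (k + 1) ≤ F v k)
    (hF2 : ∀ v k, ⁅F v k, F v k⁆ ≤ F v (k + 1))
    (hF3 : ∀ x k s, i x s ∈ F (o x) k ↔ j x s ∈ F (t x) k)
    (n : ℕ) (hn : ∀ x s, i x s ∈ F (o x) n → s = 1)
    (hT : ∀ (L : List (E × Bool)) (v : V) (ψ : G' v →* G' v), Along α β L v v ψ → L ≠ [] →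
      FreeGroup.IsCyclicallyReduced L → HasTorus C ψ) :
    CI C (RR (fun x => (Monoid.CoprodI.of (M := G)).comp (i x))
        (fun x => (Monoid.CoprodI.of (M := G)).comp (j x))) := by
  have hk : ∀ k x, ((qf F k (o x)).comp (i x)).ker = ((qf F k (t x)).comp (j x)).ker := by
    intro k x
    ext s
    rw [MonoidHom.mem_ker, MonoidHom.mem_ker, MonoidHom.comp_apply, MonoidHom.comp_apply,
      qf_eq_one, qf_eq_one]
    exact hF3 x k s
  have claim : ∀ k, (∀ v, C (QF F k v)) ∧
      CI C (RR (fun x => (Monoid.CoprodI.of (M := QF F k)).comp ((qf F k (o x)).comp (i x)))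
        (fun x => (Monoid.CoprodI.of (M := QF F k)).comp ((qf F k (t x)).comp (j x)))) := by
    intro k
    induction k with
    | zero =>
      choose q hq using fun v => exists_q0 F v (e v) (hF0 v).le
      have h2 : ∀ v, (q v).ker = ⊥ := by
        intro v
        rw [eq_bot_iff]
        intro x hx
        obtain ⟨g, rfl⟩ := qf_surj F 0 v x
        rw [MonoidHom.mem_ker, hq] at hx
        rw [Subgroup.mem_bot, qf_eq_one, hF0]
        exact hx
      have h3 : ∀ v, C (QF F 0 v) := fun v => hC.base.of_injective _ _ (q v)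
        ((MonoidHom.ker_eq_bot_iff _).1 (h2 v)) (hG' v)
      refine ⟨h3, ?_⟩
      refine first_step hC hM2 _ _ q h2 α β h3 hG' ?_ ?_ (hk 0) hT
      · intro x s
        rw [MonoidHom.comp_apply, MonoidHom.comp_apply, hq, hq]
        exact hα x s
      · intro x s
        rw [MonoidHom.comp_apply, MonoidHom.comp_apply, hq, hq]
        exact hβ x s
    | succ k ih =>
      obtain ⟨ih1, ih2⟩ := ih
      choose q hq using fun v => exists_qq F k v (hF1 v k)
      have h2 : ∀ v, ⁅(q v).ker, (q v).ker⁆ = ⊥ := by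
        intro v
        rw [eq_bot_iff, Subgroup.commutator_le]
        intro x hx y hy
        obtain ⟨x, rfl⟩ := qf_surj F (k + 1) v x
        obtain ⟨y, rfl⟩ := qf_surj F (k + 1) v y
        rw [MonoidHom.mem_ker, hq, qf_eq_one] at hx hy
        rw [← map_commutatorElement, Subgroup.mem_bot, qf_eq_one]
        exact hF2 v k (Subgroup.commutator_mem_commutator hx hy)
      have h3 : ∀ v, C (QF F (k + 1) v) := by
        intro v
        refine ab_ext hC hM2 (q v) (ih1 v) ?_
        intro x hx y hy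
        have h4 := Subgroup.commutator_mem_commutator hx hy
        rw [h2 v, Subgroup.mem_bot, commutatorElement_eq_one_iff_mul_comm] at h4
        exact h4
      refine ⟨h3, ?_⟩
      refine next_step hC hM2 _ _ _ _ q ?_ ?_ h3 ih2 (hk (k + 1)) ?_ ?_
      · intro x s
        rw [MonoidHom.comp_apply, MonoidHom.comp_apply, hq]
      · intro x s
        rw [MonoidHom.comp_apply, MonoidHom.comp_apply, hq]
      · intro x s h
        rw [h2] at h
        exact Subgroup.mem_bot.1 h
      · intro x s h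
        rw [h2] at h
        exact Subgroup.mem_bot.1 h
  obtain ⟨-, h2⟩ := claim n
  have hn' : ∀ x s, j x s ∈ F (t x) n → s = 1 := fun x s h => hn x s ((hF3 x n s).2 h)
  refine next_step hC hM2 i j _ _ (qf F n) (fun x s => rfl) (fun x s => rfl) hG h2 ?_ ?_ ?_
  · intro x
    rw [hi, hj]
  · intro x s h
    have h4 := Subgroup.commutator_le_self _ h
    rw [MonoidHom.mem_ker, qf_eq_one] at h4
    rw [hn x s h4, map_one]
  · intro x s h
    have h4 := Subgroup.commutator_le_self _ h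
    rw [MonoidHom.mem_ker, qf_eq_one] at h4
    rw [hn' x s h4, map_one]

theorem along_map {G : V → Type} [∀ v, Group (G v)] {J : Type} (f : J → E)
    {α : ∀ x, G (o x) →* G (t x)} {β : ∀ x, G (t x) →* G (o x)} {L : List (J × Bool)} {u v : V}
    {ψ : G u →* G v} (h : Along (o := fun x => o (f x)) (t := fun x => t (f x))
      (fun x => α (f x)) (fun x => β (f x)) L u v ψ) :
    Along α β (L.map fun x => (f x.1, x.2)) u v ψ := by
  induction h with
  | nil u => exact Along.nil u
  | pos x L v ψ _ ih => exact Along.pos (f x) _ v ψ ih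
  | neg x L v ψ _ ih => exact Along.neg (f x) _ v ψ ih

/-- **graphs of groups with chains of normal subgroups** -/
theorem chain (hC : ClosedE C)
    (hM2 : ∀ (G : Type) [Group G], derivedSeries G 2 = ⊥ → C G)
    {S : E → Type} [∀ x, Group (S x)]
    (i : ∀ x, S x →* G (o x)) (j : ∀ x, S x →* G (t x))
    (hi : ∀ x, (i x).ker = ⊥) (hj : ∀ x, (j x).ker = ⊥)
    (e : ∀ v, G v →* G' v) (α : ∀ x, G' (o x) →* G' (t x))
    (β : ∀ x, G' (t x) →* G' (o x)) (hG : ∀ v, C (G v)) (hG' : ∀ v, C (G' v))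
    (hα : ∀ x s, α x (e (o x) (i x s)) = e (t x) (j x s))
    (hβ : ∀ x s, β x (e (t x) (j x s)) = e (o x) (i x s))
    (F : ∀ v, ℕ → Subgroup (G v)) (hF : ∀ v k, (F v k).Normal)
    (hF0 : ∀ v, F v 0 = (e v).ker) (hF1 : ∀ v k, F v (k + 1) ≤ F v k)
    (hF2 : ∀ v k, ⁅F v k, F v k⁆ ≤ F v (k + 1))
    (hF3 : ∀ x k s, i x s ∈ F (o x) k ↔ j x s ∈ F (t x) k)
    (n : ℕ) (hn : ∀ x s, i x s ∈ F (o x) n → s = 1)
    (hT : ∀ (L : List (E × Bool)) (v : V) (ψ : G' v →* G' v), Along α β L v v ψ → L ≠ [] →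
      FreeGroup.IsCyclicallyReduced L → HasTorus C ψ) :
    C (Monoid.Coprod (Monoid.CoprodI G) (FreeGroup E) ⧸ Subgroup.normalClosure
      (RR (fun x => (Monoid.CoprodI.of (M := G)).comp (i x))
        (fun x => (Monoid.CoprodI.of (M := G)).comp (j x)))) := by
  classical
  have hinj : ∀ v, Function.Injective (Monoid.CoprodI.of : G v →* Monoid.CoprodI G) := fun v =>
    Monoid.CoprodI.of_injective v
  have ha : ∀ x, ((Monoid.CoprodI.of (M := G)).comp (i x)).ker = ⊥ := fun x =>
    (MonoidHom.ker_eq_bot_iff _).2 (fun s s' h =>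
      (MonoidHom.ker_eq_bot_iff _).1 (hi x) (hinj (o x) h))
  have hb : ∀ x, ((Monoid.CoprodI.of (M := G)).comp (j x)).ker = ⊥ := fun x =>
    (MonoidHom.ker_eq_bot_iff _).2 (fun s s' h =>
      (MonoidHom.ker_eq_bot_iff _).1 (hj x) (hinj (t x) h))
  refine C_RR_inf hC.base _ _ (fun x => (ha x).trans (hb x).symm) fun J => ?_
  refine (chain_fin (o := fun x : J => o x) (t := fun x : J => t x) hC hM2 (fun x : J => i x)
      (fun x : J => j x) (fun x => hi x) (fun x => hj x) e (fun x : J => α x) (fun x : J => β x)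
      hG hG' (fun x => hα x) (fun x => hβ x) F hF0 hF1 hF2 (fun x => hF3 x) n (fun x => hn x)
      fun L v ψ h hL hr => ?_).1
  exact hT _ v ψ (along_map (fun x : J => (x : E)) h) (fun h => hL (List.map_eq_nil_iff.1 h))
      (cyc_map Subtype.val_injective hr)

end gog

/-- powers -/
theorem torus_pow {C : ∀ (G : Type) [Group G], Prop} {M : Type} [Group M] {ψ χ : M →* M}
    (h : HasTorus C ψ) (n : ℕ) (hn : 0 < n) (hχ : ∀ m, χ m = ψ^[n] m) : HasTorus C χ := by
  obtain ⟨Q, _, j, τ, h1, h2, h3⟩ := h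
  refine ⟨Q, inferInstance, j, τ ^ n, h1, ?_, ?_⟩
  · intro m
    rw [hχ]
    clear hn hχ
    induction n with
    | zero => simp
    | succ n ih =>
      rw [Function.iterate_succ_apply', ← h2, ← ih]
      group
  · intro m hm
    obtain ⟨k, hk⟩ := h3 m hm
    refine ⟨k, ?_⟩
    have h4 : ∀ k : ℕ, χ^[k] m = ψ^[n * k] m := by
      intro k
      induction k with
      | zero => simp
      | succ k ih =>
        rw [Function.iterate_succ_apply', ih, hχ, ← Function.iterate_add_apply]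
        congr 1
        ring
    rw [h4]
    obtain ⟨d, hd⟩ : ∃ d, n * k = d + k := ⟨n * k - k, by
      have : k ≤ n * k := Nat.le_mul_of_pos_left k hn
      omega⟩
    rw [hd, Function.iterate_add_apply, hk]
    exact iterate_map_one ψ d

end Pool.Agent.V5helper8.EH
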