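import Pool.Agent.V5helper8.EH.Mult

set_option autoImplicit false

/-!
# Infinitely many stable letters
-/

namespace Pool.Agent.V5helper8.EH

open Pool.Agent.Y462.SS (Closed)

section inf

variable {C : ∀ (G : Type) [Group G], Prop} {M : Type} [Group M]

/-- the relations of the HNN extension -/
def Rel {I : Type} (A B : I → Subgroup M) (φ : ∀ i, A i ≃* B i) : Set (Monoid.Coprod M (FreeGroup I)) :=
  {r | ∃ (i : I) (a : A i),
      r = Monoid.Coprod.inr (FreeGroup.of i) * Monoid.Coprod.inl (a : M) *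
        (Monoid.Coprod.inr (FreeGroup.of i))⁻¹ * (Monoid.Coprod.inl (φ i a : M))⁻¹}

/-- a map of the letters -/
def cm {I I' : Type} (ι : I → I') : Monoid.Coprod M (FreeGroup I) →* Monoid.Coprod M (FreeGroup I') :=
  Monoid.Coprod.lift Monoid.Coprod.inl (FreeGroup.lift fun i => Monoid.Coprod.inr (FreeGroup.of (ι i)))

theorem cm_inl {I I' : Type} (ι : I → I') (m : M) :
    cm ι (Monoid.Coprod.inl m : Monoid.Coprod M (FreeGroup I)) = Monoid.Coprod.inl m :=
  Monoid.Coprod.lift_apply_inl _ _ _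

theorem cm_inr {I I' : Type} (ι : I → I') (i : I) :
    cm ι (Monoid.Coprod.inr (FreeGroup.of i) : Monoid.Coprod M (FreeGroup I)) =
      Monoid.Coprod.inr (FreeGroup.of (ι i)) := by
  unfold cm
  rw [Monoid.Coprod.lift_apply_inr, FreeGroup.lift_apply_of]

theorem hom_ext' {I H : Type} [Group H] {f g : Monoid.Coprod M (FreeGroup I) →* H}
    (h1 : ∀ m, f (Monoid.Coprod.inl m) = g (Monoid.Coprod.inl m))
    (h2 : ∀ i, f (Monoid.Coprod.inr (FreeGroup.of i)) = g (Monoid.Coprod.inr (FreeGroup.of i))) :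
    f = g := by
  apply Monoid.Coprod.hom_ext
  · ext m
    exact h1 m
  · apply FreeGroup.ext_hom
    intro i
    exact h2 i

theorem cm_Rel {I I' : Type} (ι : I → I') (A B : I' → Subgroup M) (φ : ∀ i, A i ≃* B i) :
    Subgroup.normalClosure (Rel (fun i => A (ι i)) (fun i => B (ι i)) (fun i => φ (ι i))) ≤
      (Subgroup.normalClosure (Rel A B φ)).comap (cm ι) := by
  refine Subgroup.normalClosure_le_normal ?_
  rintro r ⟨i, a, rfl⟩
  rw [SetLike.mem_coe, Subgroup.mem_comap, map_mul, map_mul, map_mul, map_inv, map_inv, cm_inl,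
    cm_inl, cm_inr]
  exact Subgroup.subset_normalClosure ⟨ι i, a, rfl⟩

/-- the homomorphism of the HNN extensions -/
def mm {I I' : Type} (ι : I → I') (A B : I' → Subgroup M) (φ : ∀ i, A i ≃* B i) :
    MH (fun i => A (ι i)) (fun i => B (ι i)) (fun i => φ (ι i)) →* MH A B φ :=
  QuotientGroup.map _ _ (cm ι) (cm_Rel ι A B φ)

theorem mm_mk {I I' : Type} (ι : I → I') (A B : I' → Subgroup M) (φ : ∀ i, A i ≃* B i)
    (w : Monoid.Coprod M (FreeGroup I)) :
    mm ι A B φ (QuotientGroup.mk' _ w) = QuotientGroup.mk' _ (cm ι w) := rfl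

open Classical in
/-- the retraction which kills the letters outside of `J` -/
noncomputable def rt {I : Type} (J : Finset I) :
    Monoid.Coprod M (FreeGroup I) →* Monoid.Coprod M (FreeGroup J) :=
  Monoid.Coprod.lift Monoid.Coprod.inl
    (FreeGroup.lift fun i => if h : i ∈ J then Monoid.Coprod.inr (FreeGroup.of ⟨i, h⟩) else 1)

theorem rt_inl {I : Type} (J : Finset I) (m : M) :
    rt J (Monoid.Coprod.inl m : Monoid.Coprod M (FreeGroup I)) = Monoid.Coprod.inl m :=
  Monoid.Coprod.lift_apply_inl _ _ _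

theorem rt_inr {I : Type} {J : Finset I} {i : I} (h : i ∈ J) :
    rt J (Monoid.Coprod.inr (FreeGroup.of i) : Monoid.Coprod M (FreeGroup I)) =
      Monoid.Coprod.inr (FreeGroup.of ⟨i, h⟩) := by
  unfold rt
  rw [Monoid.Coprod.lift_apply_inr, FreeGroup.lift_apply_of, dif_pos h]

theorem cm_rt {I : Type} (w : Monoid.Coprod M (FreeGroup I)) : ∃ J₀ : Finset I, ∀ J : Finset I,
    J₀ ⊆ J → cm (fun i : J => (i : I)) (rt J w) = w := by
  classical
  let S : Subgroup (Monoid.Coprod M (FreeGroup I)) :=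
    { carrier := {w | ∃ J₀ : Finset I, ∀ J : Finset I, J₀ ⊆ J →
        cm (fun i : J => (i : I)) (rt J w) = w}
      mul_mem' := by
        rintro a b ⟨J, hJ⟩ ⟨J', hJ'⟩
        refine ⟨J ∪ J', fun K hK => ?_⟩
        rw [map_mul, map_mul, hJ K (Finset.subset_union_left.trans hK),
          hJ' K (Finset.subset_union_right.trans hK)]
      one_mem' := ⟨∅, fun J _ => by rw [map_one, map_one]⟩
      inv_mem' := by
        rintro a ⟨J, hJ⟩
        refine ⟨J, fun K hK => ?_⟩
        rw [map_inv, map_inv, hJ K hK] }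
  have hl : ∀ m : M, Monoid.Coprod.inl m ∈ S := fun m => ⟨∅, fun J _ => by rw [rt_inl, cm_inl]⟩
  have hr : ∀ u : FreeGroup I, Monoid.Coprod.inr u ∈ S := by
    intro u
    have h1 : u ∈ S.comap (Monoid.Coprod.inr : FreeGroup I →* Monoid.Coprod M (FreeGroup I)) := by
      induction u using FreeGroup.induction_on with
      | C1 => exact one_mem _
      | of i =>
        refine ⟨{i}, fun J hJ => ?_⟩
        have hi : i ∈ J := hJ (Finset.mem_singleton_self i)
        show cm (fun i : J => (i : I)) (rt J (Monoid.Coprod.inr (FreeGroup.of i))) =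
          Monoid.Coprod.inr (FreeGroup.of i)
        rw [rt_inr hi, cm_inr]
      | inv_of i h => exact inv_mem h
      | mul x y hx hy => exact mul_mem hx hy
    exact h1
  have h2 : w ∈ S := by
    induction w using Monoid.Coprod.induction_on with
    | inl m => exact hl m
    | inr u => exact hr u
    | mul x y hx hy => exact mul_mem hx hy
  exact h2

theorem rt_Rel {I : Type} {A B : I → Subgroup M} {φ : ∀ i, A i ≃* B i}
    {w : Monoid.Coprod M (FreeGroup I)} (hw : w ∈ Subgroup.normalClosure (Rel A B φ)) :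
    ∃ J₀ : Finset I, ∀ J : Finset I, J₀ ⊆ J → rt J w ∈ Subgroup.normalClosure
      (Rel (fun i : J => A i) (fun i : J => B i) (fun i : J => φ i)) := by
  classical
  let S : Subgroup (Monoid.Coprod M (FreeGroup I)) :=
    { carrier := {w | ∃ J₀ : Finset I, ∀ J : Finset I, J₀ ⊆ J → rt J w ∈
        Subgroup.normalClosure (Rel (fun i : J => A i) (fun i : J => B i) (fun i : J => φ i))}
      mul_mem' := by
        rintro a b ⟨J, hJ⟩ ⟨J', hJ'⟩
        refine ⟨J ∪ J', fun K hK => ?_⟩
        rw [map_mul]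
        exact mul_mem (hJ K (Finset.subset_union_left.trans hK))
          (hJ' K (Finset.subset_union_right.trans hK))
      one_mem' := ⟨∅, fun J _ => by rw [map_one]; exact one_mem _⟩
      inv_mem' := by
        rintro a ⟨J, hJ⟩
        refine ⟨J, fun K hK => ?_⟩
        rw [map_inv]
        exact inv_mem (hJ K hK) }
  have hS : S.Normal := by
    constructor
    rintro a ⟨J, hJ⟩ g
    refine ⟨J, fun K hK => ?_⟩
    rw [map_mul, map_mul, map_inv]
    exact Subgroup.Normal.conj_mem inferInstance _ (hJ K hK) _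
  have h1 : Subgroup.normalClosure (Rel A B φ) ≤ S := by
    refine Subgroup.normalClosure_le_normal ?_
    rintro r ⟨i, a, rfl⟩
    refine ⟨{i}, fun J hJ => ?_⟩
    have hi : i ∈ J := hJ (Finset.mem_singleton_self i)
    rw [map_mul, map_mul, map_mul, map_inv, map_inv, rt_inl, rt_inl, rt_inr hi]
    exact Subgroup.subset_normalClosure ⟨⟨i, hi⟩, a, rfl⟩
  exact h1 hw

/-- **infinitely many stable letters** -/
theorem C_MH_inf (hC : Closed C) {I : Type} (A B : I → Subgroup M) (φ : ∀ i, A i ≃* B i)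
    (h : ∀ J : Finset I, C (MH (fun i : J => A i) (fun i : J => B i) (fun i : J => φ i))) :
    C (MH A B φ) := by
  classical
  refine hC.colim (Finset I) (fun J J' => ⟨J ∪ J', Finset.subset_union_left,
    Finset.subset_union_right⟩)
    (fun J => MH (fun i : J => A i) (fun i : J => B i) (fun i : J => φ i))
    (fun J J' hJ => mm (fun i : J => (⟨i, hJ i.2⟩ : J')) (fun i : J' => A i) (fun i : J' => B i)
      (fun i : J' => φ i)) (MH A B φ) (fun J => mm (fun i : J => (i : I)) A B φ)
    ?_ ?_ ?_ ?_ ?_ h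
  · intro J hJ x
    obtain ⟨w, rfl⟩ := QuotientGroup.mk'_surjective _ x
    rw [mm_mk]
    congr 1
    have : cm (fun i : J => (⟨i, hJ i.2⟩ : J)) = MonoidHom.id (Monoid.Coprod M (FreeGroup J)) :=
      hom_ext' (fun m => cm_inl _ m) (fun i => cm_inr _ i)
    exact DFunLike.congr_fun this w
  · intro J K L h1 h2 x
    obtain ⟨w, rfl⟩ := QuotientGroup.mk'_surjective _ x
    rw [mm_mk, mm_mk, mm_mk]
    congr 1
    have : (cm (M := M) (fun i : K => (⟨i, h2 i.2⟩ : L))).comp (cm (fun i : J => (⟨i, h1 i.2⟩ : K))) =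
        cm (fun i : J => (⟨i, h2 (h1 i.2)⟩ : L)) :=
      hom_ext' (fun m => by rw [MonoidHom.comp_apply, cm_inl, cm_inl, cm_inl])
        (fun i => by rw [MonoidHom.comp_apply, cm_inr, cm_inr, cm_inr])
    exact DFunLike.congr_fun this w
  · intro J K h1 x
    obtain ⟨w, rfl⟩ := QuotientGroup.mk'_surjective _ x
    rw [mm_mk, mm_mk, mm_mk]
    congr 1
    have : (cm (M := M) (fun i : K => (i : I))).comp (cm (fun i : J => (⟨i, h1 i.2⟩ : K))) =
        cm (fun i : J => (i : I)) :=
      hom_ext' (fun m => by rw [MonoidHom.comp_apply, cm_inl, cm_inl, cm_inl])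
        (fun i => by rw [MonoidHom.comp_apply, cm_inr, cm_inr, cm_inr])
    exact DFunLike.congr_fun this w
  · intro y
    obtain ⟨w, rfl⟩ := QuotientGroup.mk'_surjective _ y
    obtain ⟨J, hJ⟩ := cm_rt w
    exact ⟨J, QuotientGroup.mk' _ (rt J w), by rw [mm_mk, hJ J (Finset.Subset.refl J)]⟩
  · intro J x hx
    obtain ⟨w, rfl⟩ := QuotientGroup.mk'_surjective _ x
    rw [mm_mk] at hx
    have hx' : cm (fun i : J => (i : I)) w ∈ Subgroup.normalClosure (Rel A B φ) :=
      (QuotientGroup.eq_one_iff _).1 hx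
    obtain ⟨K, hK⟩ := rt_Rel hx'
    refine ⟨J ∪ K, Finset.subset_union_left, ?_⟩
    rw [mm_mk]
    refine (QuotientGroup.eq_one_iff _).2 ?_
    have h1 := hK (J ∪ K) Finset.subset_union_right
    have h2 : (rt (M := M) (J ∪ K)).comp (cm (fun i : J => (i : I))) =
        cm (fun i : J => (⟨i, Finset.subset_union_left i.2⟩ : ↥(J ∪ K))) :=
      hom_ext' (fun m => by rw [MonoidHom.comp_apply, cm_inl, cm_inl, rt_inl])
        (fun i => by
          rw [MonoidHom.comp_apply, cm_inr, cm_inr, rt_inr (Finset.subset_union_left i.2)])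
    have h3 := DFunLike.congr_fun h2 w
    rw [MonoidHom.comp_apply] at h3
    rw [h3] at h1
    exact h1

end inf

end Pool.Agent.V5helper8.EH
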