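import Pool.Agent.V5helper8.EH.Sec
import Pool.Agent.V5helper8.EH.Hnn

set_option autoImplicit false

/-!
# HNN extensions with several stable letters
-/

namespace Pool.Agent.V5helper8.EH

open HNNExtension
open FreeGroup (mk IsReduced isReduced_toWord)
open Pool.Agent.Y110.FJ (ClosedE)
open Pool.Agent.Y462.SS (Closed)

/-! ## the homomorphism -/

section target

variable {I M : Type} [DecidableEq I] [Group M]

/-- `β i` for the letter `i`, `α i` for its inverse -/
def ab (α β : I → M →* M) (x : I × Bool) : M →* M := if x.2 then β x.1 else α x.1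

/-- the functions `w ↦ γ_w(m)` -/
def iotaq (γ : I × Bool → M →* M) : M →* Pq γ :=
  MonoidHom.mk' (fun m => ⟨⟨fun w => gam γ w m, 1⟩, 0, EC.gam m⟩) (by
    intro x y
    apply Subtype.ext
    refine Sq.ext ?_ ?_
    · funext w
      show gam γ w (x * y) = gam γ (1 * w) x * gam γ w y
      rw [one_mul, map_mul]
    · exact (mul_one 1).symm)

theorem iotaq_injective (γ : I × Bool → M →* M) : Function.Injective (iotaq γ) := by
  intro x y h
  have h1 : gam γ 1 x = gam γ 1 y := congrArg (fun z : Pq γ => (z : Sq (FreeGroup I) M).s 1) h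
  have h2 : ∀ z, gam γ 1 z = z := by
    intro z
    rw [gam_apply, FreeGroup.toWord_one]
    rfl
  rwa [h2, h2] at h1

/-- the translations -/
def ttq (γ : I × Bool → M →* M) (i : I) : Pq γ := ⟨⟨fun _ => 1, FreeGroup.of i⟩, 0, EC.one 0⟩

theorem gam_step {α β : I → M →* M} {i : I} {x y : M} (h1 : α i x = y) (h2 : β i y = x)
    (w : FreeGroup I) : gam (ab α β) (FreeGroup.of i * w) y = gam (ab α β) w x := by
  by_cases hc : ∃ L, w.toWord = (i, false) :: L
  · obtain ⟨L, hL⟩ := hc
    have hr : IsReduced L := by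
      have h3 : IsReduced w.toWord := isReduced_toWord
      rw [hL] at h3
      exact mid_red h3 ⟨[(i, false)], [], by simp⟩
    have h4 : FreeGroup.of i * w = mk L := by
      rw [← FreeGroup.mk_toWord (x := w), hL]
      show mk ([(i, true)] ++ (i, false) :: L) = mk L
      exact Quot.sound (FreeGroup.Red.Step.not (L₁ := []) (x := i) (b := true))
    rw [gam_apply, gam_apply, h4, toWord_of_isReduced hr, hL]
    show gw (ab α β) L y = gw (ab α β) L (ab α β (i, false) x)
    have h5 : ab α β (i, false) x = y := by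
      rw [← h1]
      rfl
    rw [h5]
  · have h3 : Rd (FreeGroup.of i) w := by
      rw [Rd_iff, FreeGroup.toWord_of]
      intro a ha b hb hab
      have ha' : a = (i, true) := by simpa using ha.symm
      subst ha'
      by_contra hne
      apply hc
      cases hL : w.toWord with
      | nil => rw [hL] at hb; simp at hb
      | cons c L =>
        refine ⟨L, ?_⟩
        rw [hL] at hb
        have hb2 : c = b := by simpa using hb
        subst hb2
        congr 1
        apply Prod.ext
        · exact hab.symm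
        · show c.2 = false
          cases h5 : c.2
          · rfl
          · exact absurd h5.symm hne
    rw [gam_Rd _ h3, gam_apply _ (FreeGroup.of i), FreeGroup.toWord_of]
    show gam (ab α β) w (ab α β (i, true) y) = _
    have h5 : ab α β (i, true) y = x := by
      rw [← h2]
      rfl
    rw [h5]

theorem ttq_iota {α β : I → M →* M} {i : I} {x y : M} (h1 : α i x = y) (h2 : β i y = x) :
    ttq (ab α β) i * iotaq (ab α β) x = iotaq (ab α β) y * ttq (ab α β) i := by
  apply Subtype.ext
  refine Sq.ext ?_ ?_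
  · funext w
    show 1 * gam (ab α β) w x = gam (ab α β) (FreeGroup.of i * w) y * 1
    rw [one_mul, mul_one, gam_step h1 h2]
  · show FreeGroup.of i * 1 = 1 * FreeGroup.of i
    rw [mul_one, one_mul]

end target

/-! ## iterated HNN extensions -/

section tower

variable {C : ∀ (G : Type) [Group G], Prop} {M : Type} [Group M]

theorem tower (hC : ClosedE C) (hM : C M) {P : Type} [Group P] (hP : C P) (f : M →* P) :
    ∀ (n : ℕ) (A B : Fin n → Subgroup M) (φ : ∀ i, A i ≃* B i) (T : Fin n → P),
    (∀ i (a : A i), T i * f a = f (φ i a) * T i) → (∀ i, ∀ a ∈ A i, f a = 1 → a = 1) →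
    ∃ (G : Type) (_ : Group G) (ι : M →* G) (t : Fin n → G), Function.Injective ι ∧
      (∀ i (a : A i), t i * ι a = ι (φ i a) * t i) ∧
      (∀ (H : Type) (_ : Group H) (f' : M →* H) (u : Fin n → H),
        (∀ i (a : A i), u i * f' a = f' (φ i a) * u i) →
        ∃ h : G →* H, (∀ m, h (ι m) = f' m) ∧ ∀ i, h (t i) = u i) ∧ C G := by
  intro n
  induction n with
  | zero =>
    intro A B φ T _ _
    exact ⟨M, inferInstance, MonoidHom.id M, fun i => i.elim0, Function.injective_id,
      fun i => i.elim0, fun H _ f' u _ => ⟨f', fun _ => rfl, fun i => i.elim0⟩, hM⟩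
  | succ n ih =>
    intro A B φ T hT hinj
    obtain ⟨G, _, ι, t', h1, h2, h3, h4⟩ := ih (fun i => A i.castSucc) (fun i => B i.castSucc)
      (fun i => φ i.castSucc) (fun i => T i.castSucc) (fun i => hT i.castSucc)
      (fun i => hinj i.castSucc)
    let eA := (A (Fin.last n)).equivMapOfInjective ι h1
    let eB := (B (Fin.last n)).equivMapOfInjective ι h1
    let φ' : (A (Fin.last n)).map ι ≃* (B (Fin.last n)).map ι :=
      eA.symm.trans ((φ (Fin.last n)).trans eB)
    have hφ' : ∀ a : A (Fin.last n), ((φ' (eA a) : (B (Fin.last n)).map ι) : G) =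
        ι (φ (Fin.last n) a) := by
      intro a
      show ((eB (φ (Fin.last n) (eA.symm (eA a))) : (B (Fin.last n)).map ι) : G) = _
      rw [MulEquiv.symm_apply_apply]
      rfl
    have huniv : ∀ (H : Type) (_ : Group H) (f' : M →* H) (u : Fin (n + 1) → H),
        (∀ i (a : A i), u i * f' a = f' (φ i a) * u i) →
        ∃ h : HNNExtension G ((A (Fin.last n)).map ι) ((B (Fin.last n)).map ι) φ' →* H,
          (∀ m, h (of (ι m)) = f' m) ∧
          ∀ i, h (Fin.lastCases (motive := fun _ => HNNExtension G ((A (Fin.last n)).map ι)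
            ((B (Fin.last n)).map ι) φ') t (fun i => of (t' i)) i) = u i := by
      intro H _ f' u hu
      obtain ⟨h, h5, h6⟩ := h3 H inferInstance f' (fun i => u i.castSucc) (fun i => hu i.castSucc)
      refine ⟨HNNExtension.lift h (u (Fin.last n)) ?_, ?_, ?_⟩
      · intro a'
        obtain ⟨a, rfl⟩ : ∃ a, a' = eA a := ⟨eA.symm a', (MulEquiv.apply_symm_apply eA a').symm⟩
        rw [hφ', h5]
        have h7 : ((eA a : (A (Fin.last n)).map ι) : G) = ι a := rfl
        rw [h7, h5]
        exact hu _ a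
      · intro m
        rw [HNNExtension.lift_of, h5]
      · intro i
        refine Fin.lastCases ?_ (fun i => ?_) i
        · rw [Fin.lastCases_last, HNNExtension.lift_t]
        · rw [Fin.lastCases_castSucc, HNNExtension.lift_of, h6]
    refine ⟨HNNExtension G ((A (Fin.last n)).map ι) ((B (Fin.last n)).map ι) φ', inferInstance,
      of.comp ι, Fin.lastCases t (fun i => of (t' i)), (HNNExtension.of_injective φ').comp h1,
      ?_, huniv, ?_⟩
    · intro i
      refine Fin.lastCases ?_ (fun i => ?_) i
      · intro a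
        beta_reduce
        rw [Fin.lastCases_last, MonoidHom.comp_apply, MonoidHom.comp_apply, ← hφ' a]
        exact HNNExtension.t_mul_of (eA a)
      · intro a
        beta_reduce
        rw [Fin.lastCases_castSucc, MonoidHom.comp_apply, MonoidHom.comp_apply, ← map_mul, h2,
          map_mul]
    · obtain ⟨F, hF, -⟩ := huniv P inferInstance f T hT
      refine hnn_edge hC h4 F hP ?_
      rintro _ ⟨a, ha, rfl⟩ h5
      rw [hF] at h5
      rw [hinj _ a ha h5, map_one]

/-- the HNN extension with stable letters `t i` and `t i * a * (t i)⁻¹ = φ i a` -/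
abbrev MH {I : Type} (A B : I → Subgroup M) (φ : ∀ i, A i ≃* B i) : Type :=
  Monoid.Coprod M (FreeGroup I) ⧸ Subgroup.normalClosure
    {r : Monoid.Coprod M (FreeGroup I) | ∃ (i : I) (a : A i),
      r = Monoid.Coprod.inr (FreeGroup.of i) * Monoid.Coprod.inl (a : M) *
        (Monoid.Coprod.inr (FreeGroup.of i))⁻¹ * (Monoid.Coprod.inl (φ i a : M))⁻¹}

theorem MH_lift {I : Type} {A B : I → Subgroup M} {φ : ∀ i, A i ≃* B i} {H : Type} [Group H]
    (f : M →* H) (u : I → H) (hu : ∀ i (a : A i), u i * f a = f (φ i a) * u i) :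
    ∃ h : MH A B φ →* H, (∀ m : M, h (QuotientGroup.mk' _ (Monoid.Coprod.inl m)) = f m) ∧
      ∀ i, h (QuotientGroup.mk' _ (Monoid.Coprod.inr (FreeGroup.of i))) = u i := by
  have hle : Subgroup.normalClosure
      {r : Monoid.Coprod M (FreeGroup I) | ∃ (i : I) (a : A i),
        r = Monoid.Coprod.inr (FreeGroup.of i) * Monoid.Coprod.inl (a : M) *
          (Monoid.Coprod.inr (FreeGroup.of i))⁻¹ * (Monoid.Coprod.inl (φ i a : M))⁻¹} ≤
      (Monoid.Coprod.lift f (FreeGroup.lift u)).ker := by
    refine Subgroup.normalClosure_le_normal ?_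
    rintro r ⟨i, a, rfl⟩
    rw [SetLike.mem_coe, MonoidHom.mem_ker, map_mul, map_mul, map_mul, map_inv, map_inv,
      Monoid.Coprod.lift_apply_inr, Monoid.Coprod.lift_apply_inl, Monoid.Coprod.lift_apply_inl,
      FreeGroup.lift_apply_of, hu, mul_inv_cancel_right, mul_inv_cancel]
  refine ⟨QuotientGroup.lift _ (Monoid.Coprod.lift f (FreeGroup.lift u)) hle, ?_, ?_⟩
  · intro m
    show Monoid.Coprod.lift f (FreeGroup.lift u) (Monoid.Coprod.inl m) = f m
    rw [Monoid.Coprod.lift_apply_inl]
  · intro i
    show Monoid.Coprod.lift f (FreeGroup.lift u) (Monoid.Coprod.inr (FreeGroup.of i)) = u i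
    rw [Monoid.Coprod.lift_apply_inr, FreeGroup.lift_apply_of]

theorem MH_rel {I : Type} {A B : I → Subgroup M} {φ : ∀ i, A i ≃* B i} (i : I) (a : A i) :
    (QuotientGroup.mk' _ (Monoid.Coprod.inr (FreeGroup.of i)) : MH A B φ) *
      QuotientGroup.mk' _ (Monoid.Coprod.inl (a : M)) =
      QuotientGroup.mk' _ (Monoid.Coprod.inl (φ i a : M)) *
        QuotientGroup.mk' _ (Monoid.Coprod.inr (FreeGroup.of i)) := by
  have h1 : Monoid.Coprod.inr (FreeGroup.of i) * Monoid.Coprod.inl (a : M) *
      (Monoid.Coprod.inr (FreeGroup.of i))⁻¹ * (Monoid.Coprod.inl (φ i a : M))⁻¹ ∈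
      Subgroup.normalClosure
      {r : Monoid.Coprod M (FreeGroup I) | ∃ (i : I) (a : A i),
        r = Monoid.Coprod.inr (FreeGroup.of i) * Monoid.Coprod.inl (a : M) *
          (Monoid.Coprod.inr (FreeGroup.of i))⁻¹ * (Monoid.Coprod.inl (φ i a : M))⁻¹} :=
    Subgroup.subset_normalClosure ⟨i, a, rfl⟩
  have h2 := (QuotientGroup.eq_one_iff _).2 h1
  rw [← mul_inv_eq_iff_eq_mul, ← mul_inv_eq_one]
  exact h2

theorem C_MH (hC : ClosedE C) (hM : C M) {P : Type} [Group P] (hP : C P) (f : M →* P)
    {I : Type} [Finite I] (A B : I → Subgroup M) (φ : ∀ i, A i ≃* B i) (T : I → P)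
    (hT : ∀ i (a : A i), T i * f a = f (φ i a) * T i) (hinj : ∀ i, ∀ a ∈ A i, f a = 1 → a = 1) :
    C (MH A B φ) := by
  obtain ⟨n, ⟨e⟩⟩ := Finite.exists_equiv_fin I
  obtain ⟨G, _, ι, t', h1, h2, h3, h4⟩ := tower hC hM hP f n (fun i => A (e.symm i))
    (fun i => B (e.symm i)) (fun i => φ (e.symm i)) (fun i => T (e.symm i))
    (fun i => hT (e.symm i)) (fun i => hinj (e.symm i))
  have h2' : ∀ i (a : A i), t' (e i) * ι a = ι (φ i a) * t' (e i) := by
    intro i a
    obtain ⟨j, rfl⟩ := e.symm.surjective i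
    rw [Equiv.apply_symm_apply]
    exact h2 j a
  obtain ⟨F, hF1, hF2⟩ := MH_lift (φ := φ) ι (fun i => t' (e i)) h2'
  obtain ⟨K, hK1, hK2⟩ := h3 (MH A B φ) inferInstance
    ((QuotientGroup.mk' _).comp Monoid.Coprod.inl)
    (fun i => QuotientGroup.mk' _ (Monoid.Coprod.inr (FreeGroup.of (e.symm i))))
    (fun i a => MH_rel (e.symm i) a)
  refine hC.base.of_injective _ _ F ?_ h4
  have hid : (K.comp F).comp (QuotientGroup.mk' _) = QuotientGroup.mk' _ := by
    apply Monoid.Coprod.hom_ext
    · ext m
      show K (F (QuotientGroup.mk' _ (Monoid.Coprod.inl m))) = _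
      rw [hF1, hK1]
    · apply FreeGroup.ext_hom
      intro i
      show K (F (QuotientGroup.mk' _ (Monoid.Coprod.inr (FreeGroup.of i)))) = _
      rw [hF2, hK2, Equiv.symm_apply_apply]
      rfl
  intro x y hxy
  have h5 : ∀ z : MH A B φ, K (F z) = z := by
    intro z
    obtain ⟨w, rfl⟩ := QuotientGroup.mk'_surjective _ z
    exact DFunLike.congr_fun hid w
  rw [← h5 x, hxy, h5 y]

end tower

/-! ## the theorem -/

section main

variable {C : ∀ (G : Type) [Group G], Prop} {I M M' : Type} [Group M] [Group M']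

/-- the composite of the endomorphisms along a word: `β i` for the letter `i` and `α i` for its
inverse, the first letter first -/
def cmp (α β : I → M →* M) : List (I × Bool) → M →* M
  | [] => MonoidHom.id M
  | x :: L => (cmp α β L).comp (if x.2 then β x.1 else α x.1)

theorem cmp_eq (α β : I → M →* M) (L : List (I × Bool)) : ∀ m, cmp α β L m = gw (ab α β) L m := by
  induction L with
  | nil => intro m; rfl
  | cons x L ih =>
    intro m
    show cmp α β L ((if x.2 then β x.1 else α x.1) m) = gw (ab α β) L (ab α β x m)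
    rw [ih]
    rfl

/-- **HNN extensions with several stable letters** -/
theorem main_mult [Finite I] (hC : ClosedE C) (hM : C M) (hM' : C M') (A B : I → Subgroup M)
    (φ : ∀ i, A i ≃* B i) (e : M →* M') (α β : I → M' →* M')
    (hα : ∀ i (a : A i), α i (e a) = e (φ i a)) (hβ : ∀ i (b : B i), β i (e b) = e ((φ i).symm b))
    (hA : ∀ i, ∀ a ∈ A i, e a = 1 → a = 1)
    (hT : ∀ L : List (I × Bool), L ≠ [] → FreeGroup.IsCyclicallyReduced L →
      HasTorus C (cmp α β L)) : C (MH A B φ) := by
  classical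
  have hP : C (Pq (ab α β)) := by
    refine C_Pq (ab α β) hC hM' fun g hg hgg => ?_
    have h1 := hT g.toWord (fun h => hg (FreeGroup.toWord_eq_nil_iff.1 h))
      ⟨isReduced_toWord, Rd_iff.1 hgg⟩
    have h2 : cmp α β g.toWord = gam (ab α β) g := by
      ext m
      rw [cmp_eq, gam_apply]
    rwa [h2] at h1
  refine C_MH hC hM hP ((iotaq (ab α β)).comp e) A B φ (ttq (ab α β)) ?_ ?_
  · intro i a
    refine ttq_iota (hα i a) ?_
    rw [hβ, MulEquiv.symm_apply_apply]
  · intro i a ha h
    exact hA i a ha (iotaq_injective _ (h.trans (map_one _).symm))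

end main

end Pool.Agent.V5helper8.EH
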