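import Pool.Agent.V5helper8.EH.Gog

set_option autoImplicit false

/-!
# Graphs of groups: paths with trivial composites
-/

namespace Pool.Agent.V5helper8.EH

open FreeGroup (IsReduced IsCyclicallyReduced)
open Pool.Agent.Y462.SS (Closed)

section nil

variable {V E : Type} {o t : E → V} {G : V → Type} [∀ v, Group (G v)]
  {α : ∀ x, G (o x) →* G (t x)} {β : ∀ x, G (t x) →* G (o x)}

theorem Along.append {L L' : List (E × Bool)} {u v w : V} {ψ : G u →* G v} {χ : G v →* G w}
    (h : Along α β L u v ψ) (h' : Along α β L' v w χ) :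
    Along α β (L ++ L') u w (χ.comp ψ) := by
  induction h with
  | nil u => exact h'
  | pos x L v ψ h ih =>
    have := Along.pos x _ _ _ (ih h')
    exact this
  | neg x L v ψ h ih =>
    have := Along.neg x _ _ _ (ih h')
    exact this

theorem Along.split {L : List (E × Bool)} {u w : V} {χ : G u →* G w}
    (h : Along α β L u w χ) : ∀ L₁ L₂, L = L₁ ++ L₂ → ∃ (v : V) (χ₁ : G u →* G v)
      (χ₂ : G v →* G w), Along α β L₁ u v χ₁ ∧ Along α β L₂ v w χ₂ ∧ χ = χ₂.comp χ₁ := by
  induction h with
  | nil u =>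
    intro L₁ L₂ hL
    obtain ⟨rfl, rfl⟩ := List.append_eq_nil_iff.1 hL.symm
    exact ⟨u, _, _, Along.nil u, Along.nil u, rfl⟩
  | pos x L v ψ h ih =>
    intro L₁ L₂ hL
    cases L₁ with
    | nil =>
      rw [List.nil_append] at hL
      subst hL
      exact ⟨_, _, _, Along.nil _, Along.pos x L v ψ h, rfl⟩
    | cons y L₁ =>
      rw [List.cons_append, List.cons.injEq] at hL
      obtain ⟨rfl, hL⟩ := hL
      obtain ⟨v', χ₁, χ₂, h1, h2, rfl⟩ := ih L₁ L₂ hL
      exact ⟨v', _, χ₂, Along.pos x L₁ v' χ₁ h1, h2, rfl⟩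
  | neg x L v ψ h ih =>
    intro L₁ L₂ hL
    cases L₁ with
    | nil =>
      rw [List.nil_append] at hL
      subst hL
      exact ⟨_, _, _, Along.nil _, Along.neg x L v ψ h, rfl⟩
    | cons y L₁ =>
      rw [List.cons_append, List.cons.injEq] at hL
      obtain ⟨rfl, hL⟩ := hL
      obtain ⟨v', χ₁, χ₂, h1, h2, rfl⟩ := ih L₁ L₂ hL
      exact ⟨v', _, χ₂, Along.neg x L₁ v' χ₁ h1, h2, rfl⟩

theorem Along.pow {L : List (E × Bool)} {v : V} {ψ : G v →* G v} (h : Along α β L v v ψ) :
    ∀ k : ℕ, ∃ χ : G v →* G v, Along α β (List.replicate k L).flatten v v χ ∧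
      ∀ g, χ g = ψ^[k] g := by
  intro k
  induction k with
  | zero => exact ⟨_, Along.nil v, fun g => rfl⟩
  | succ k ih =>
    obtain ⟨χ, h1, h2⟩ := ih
    refine ⟨χ.comp ψ, ?_, fun g => ?_⟩
    · rw [List.replicate_succ, List.flatten_cons]
      exact h.append h1
    · rw [MonoidHom.comp_apply, h2, Function.iterate_succ_apply]

variable {C : ∀ (G : Type) [Group G], Prop}

/-- if the composites along the reduced paths of length `n` are trivial then the mapping tori of the
closed cyclically reduced paths are in the class -/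
theorem nil_tori (hC : Closed C) {n : ℕ} (hn : ∀ (L : List (E × Bool)) (u v : V) (ψ : G u →* G v),
    Along α β L u v ψ → IsReduced L → L.length = n → ∀ g, ψ g = 1) {L : List (E × Bool)} {v : V}
    {ψ : G v →* G v} (h : Along α β L v v ψ) (hL : L ≠ []) (hr : IsCyclicallyReduced L) :
    HasTorus C ψ := by
  refine of_nil hC ψ fun g => ⟨n, ?_⟩
  obtain ⟨χ, h1, h2⟩ := h.pow n
  have h3 : IsReduced (List.replicate n L).flatten := (hr.flatten_replicate n).isReduced
  have hlen : n ≤ (List.replicate n L).flatten.length := by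
    rw [List.length_flatten, List.map_replicate, List.sum_replicate, smul_eq_mul]
    have : 0 < L.length := List.length_pos_iff.2 hL
    exact Nat.le_mul_of_pos_right n this
  obtain ⟨w, χ₁, χ₂, h4, h5, rfl⟩ := h1.split ((List.replicate n L).flatten.take n)
    ((List.replicate n L).flatten.drop n) (List.take_append_drop n _).symm
  rw [← h2, MonoidHom.comp_apply, hn _ _ _ _ h4 (mid_red h3 ⟨[], _, by rw [List.nil_append,
    List.take_append_drop]⟩) (by rw [List.length_take]; omega), map_one]

end nil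

end Pool.Agent.V5helper8.EH
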