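import Pool.Agent.V5helper8.EH.Base

set_option autoImplicit false

/-!
# HNN extensions and endomorphisms: mapping tori
-/

namespace Pool.Agent.V5helper8.EH

open Filter
open Pool.Agent.Y110.FJ (ClosedE)
open Pool.Agent.Y462.SS (Closed)

variable {C : ∀ (G : Type) [Group G], Prop} {M : Type} [Group M]

/-- the mapping torus `⟨M, t | t m t⁻¹ = ψ m⟩` -/
abbrev MT (ψ : M →* M) : Type :=
  Monoid.Coprod M (Multiplicative ℤ) ⧸ Subgroup.normalClosure
    {r : Monoid.Coprod M (Multiplicative ℤ) | ∃ m : M,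
      r = Monoid.Coprod.inr (Multiplicative.ofAdd 1) * Monoid.Coprod.inl m *
        (Monoid.Coprod.inr (Multiplicative.ofAdd 1))⁻¹ * (Monoid.Coprod.inl (ψ m))⁻¹}

/-- the sequences which are trivial near `+∞` -/
def Np (M : Type) [Group M] : Subgroup (Sh M) where
  carrier := {w | w.n = 0 ∧ ∀ᶠ i : ℤ in atTop, w.s i = 1}
  mul_mem' := by
    rintro a b ⟨ha, ha'⟩ ⟨hb, hb'⟩
    refine ⟨by rw [Sh.mul_n, ha, hb, add_zero], ?_⟩
    filter_upwards [ha', hb'] with i h1 h2
    rw [Sh.mul_s, hb, add_zero, h1, h2, one_mul]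
  one_mem' := ⟨rfl, Eventually.of_forall fun _ => rfl⟩
  inv_mem' := by
    rintro a ⟨ha, ha'⟩
    refine ⟨by rw [Sh.inv_n, ha, neg_zero], ?_⟩
    filter_upwards [ha'] with i h1
    rw [Sh.inv_s, ha, sub_zero, h1, inv_one]

instance : (Np M).Normal := by
  constructor
  rintro w ⟨h1, h2⟩ g
  refine ⟨?_, ?_⟩
  · rw [Sh.mul_n, Sh.mul_n, Sh.inv_n, h1]
    ring
  · filter_upwards [ev_shift h2 (-g.n)] with i h3
    rw [Sh.mul_s, Sh.mul_s, Sh.inv_s, Sh.inv_n, h1, h3, mul_one, add_zero, ← sub_eq_add_neg,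
      mul_inv_cancel]

theorem of_MT (ψ : M →* M) (h : C (MT ψ)) : HasTorus C ψ := by
  let F : M →* Sh M ⧸ Np M := (QuotientGroup.mk' (Np M)).comp
    (MonoidHom.mk' (fun m => (⟨fun i => if 0 ≤ i then ψ^[i.toNat] m else 1, 0⟩ : Sh M)) (by
      intro x y
      refine Sh.ext ?_ ?_
      · funext i
        show (if 0 ≤ i then ψ^[i.toNat] (x * y) else 1) =
          (if 0 ≤ i + 0 then ψ^[(i + 0).toNat] x else 1) * (if 0 ≤ i then ψ^[i.toNat] y else 1)
        rw [add_zero]
        split_ifs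
        · exact iterate_map_mul ψ _ x y
        · exact (mul_one 1).symm
      · rfl))
  let T : Sh M ⧸ Np M := QuotientGroup.mk' (Np M) ⟨fun _ => 1, -1⟩
  have hT : ∀ m, T * F m = F (ψ m) * T := by
    intro m
    show (QuotientGroup.mk' (Np M)) _ * (QuotientGroup.mk' (Np M)) _ =
      (QuotientGroup.mk' (Np M)) _ * (QuotientGroup.mk' (Np M)) _
    rw [← map_mul, ← map_mul]
    refine QuotientGroup.eq.2 ⟨?_, ?_⟩
    · show -((-1 : ℤ) + 0) + (0 + -1) = 0
      norm_num
    · filter_upwards [eventually_ge_atTop (2 : ℤ)] with i hi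
      show (1 * (if 0 ≤ i + (0 + -1) - (-1 + 0) then ψ^[(i + (0 + -1) - (-1 + 0)).toNat] m
        else 1))⁻¹ * ((if 0 ≤ i + -1 then ψ^[(i + -1).toNat] (ψ m) else 1) * 1) = 1
      rw [if_pos (by omega), if_pos (by omega), one_mul, mul_one, ← Function.iterate_succ_apply,
        show (i + (0 + -1) - (-1 + 0)).toNat = (i + -1).toNat + 1 by omega]
      exact inv_mul_cancel _
  have hle : Subgroup.normalClosure
      {r : Monoid.Coprod M (Multiplicative ℤ) | ∃ m : M,
        r = Monoid.Coprod.inr (Multiplicative.ofAdd 1) * Monoid.Coprod.inl m *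
          (Monoid.Coprod.inr (Multiplicative.ofAdd 1))⁻¹ * (Monoid.Coprod.inl (ψ m))⁻¹} ≤
      (Monoid.Coprod.lift F (zpowersHom _ T)).ker := by
    refine Subgroup.normalClosure_le_normal ?_
    rintro r ⟨m, rfl⟩
    rw [SetLike.mem_coe, MonoidHom.mem_ker, map_mul, map_mul, map_mul, map_inv, map_inv,
      Monoid.Coprod.lift_apply_inr, Monoid.Coprod.lift_apply_inl, Monoid.Coprod.lift_apply_inl]
    have h1 : (zpowersHom (Sh M ⧸ Np M) T) (Multiplicative.ofAdd 1) = T := by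
      rw [zpowersHom_apply, toAdd_ofAdd, zpow_one]
    rw [h1, hT, mul_inv_cancel_right, mul_inv_cancel]
  refine ⟨MT ψ, inferInstance, (QuotientGroup.mk' _).comp Monoid.Coprod.inl,
    QuotientGroup.mk' _ (Monoid.Coprod.inr (Multiplicative.ofAdd 1)), h, ?_, ?_⟩
  · intro m
    have h1 : Monoid.Coprod.inr (Multiplicative.ofAdd 1) * Monoid.Coprod.inl m *
        (Monoid.Coprod.inr (Multiplicative.ofAdd 1))⁻¹ * (Monoid.Coprod.inl (ψ m))⁻¹ ∈
        Subgroup.normalClosure {r : Monoid.Coprod M (Multiplicative ℤ) | ∃ m : M,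
        r = Monoid.Coprod.inr (Multiplicative.ofAdd 1) * Monoid.Coprod.inl m *
          (Monoid.Coprod.inr (Multiplicative.ofAdd 1))⁻¹ * (Monoid.Coprod.inl (ψ m))⁻¹} :=
      Subgroup.subset_normalClosure ⟨m, rfl⟩
    have h2 := (QuotientGroup.eq_one_iff _).2 h1
    rw [← mul_inv_eq_one]
    exact h2
  · intro m hm
    have h1 : (Monoid.Coprod.inl m : Monoid.Coprod M (Multiplicative ℤ)) ∈
        Subgroup.normalClosure {r : Monoid.Coprod M (Multiplicative ℤ) | ∃ m : M,
        r = Monoid.Coprod.inr (Multiplicative.ofAdd 1) * Monoid.Coprod.inl m *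
          (Monoid.Coprod.inr (Multiplicative.ofAdd 1))⁻¹ * (Monoid.Coprod.inl (ψ m))⁻¹} :=
      (QuotientGroup.eq_one_iff _).1 hm
    have h2 := hle h1
    rw [MonoidHom.mem_ker, Monoid.Coprod.lift_apply_inl] at h2
    have h3 := (QuotientGroup.eq_one_iff _).1 h2
    obtain ⟨i, h4, h5⟩ := (h3.2.and (eventually_ge_atTop 0)).exists
    refine ⟨i.toNat, ?_⟩
    have h6 : (if 0 ≤ i then ψ^[i.toNat] m else 1) = 1 := h4
    rwa [if_pos h5] at h6

/-- every element is killed by a power of `ψ` -/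
theorem of_nil (hC : Closed C) (ψ : M →* M) (h : ∀ m, ∃ n : ℕ, ψ^[n] m = 1) : HasTorus C ψ :=
  ⟨Unit, inferInstance, 1, 1, hC.of_injective Unit (Multiplicative ℤ) 1
    (fun _ _ _ => Subsingleton.elim _ _) hC.int, fun _ => rfl, fun m _ => h m⟩

/-- `ψ` is eventually periodic up to inner automorphisms -/
theorem of_per (hC : Closed C) (hM : C M) (ψ : M →* M) (n k : ℕ) (hk : 0 < k) (c : M)
    (h : ∀ m, ψ^[n + k] m = ψ^[n] (c * m * c⁻¹)) : HasTorus C ψ := by
  let Ψ : ℕ → M →* M := fun j => MonoidHom.mk' (ψ^[j]) (iterate_map_mul ψ j)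
  let R : Subgroup M := (Ψ n).range
  have hR : ∀ x : R, ψ x ∈ R := by
    rintro ⟨_, m, rfl⟩
    refine ⟨ψ m, ?_⟩
    show ψ^[n] (ψ m) = ψ (ψ^[n] m)
    rw [← Function.iterate_succ_apply, Function.iterate_succ_apply']
  let σ₀ : R →* R := MonoidHom.mk' (fun x => ⟨ψ x, hR x⟩) fun x y => Subtype.ext (map_mul ψ _ _)
  have hσ₀ : ∀ (j : ℕ) (x : R), ((σ₀^[j] x : R) : M) = ψ^[j] x := by
    intro j x
    induction j with
    | zero => rfl
    | succ j ih =>
      rw [Function.iterate_succ_apply', Function.iterate_succ_apply', ← ih]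
      rfl
  let p : R := ⟨ψ^[n] c, c, rfl⟩
  have hper : ∀ x : R, σ₀^[k] x = p * x * p⁻¹ := by
    rintro ⟨_, m, rfl⟩
    apply Subtype.ext
    rw [hσ₀]
    show ψ^[k] (ψ^[n] m) = ψ^[n] c * ψ^[n] m * (ψ^[n] c)⁻¹
    rw [← Function.iterate_add_apply, add_comm k n, h, iterate_map_mul, iterate_map_mul,
      iterate_map_inv]
  have hbij : Function.Bijective σ₀ := by
    have hk' : Function.Bijective (σ₀^[k]) := by
      have : σ₀^[k] = fun x => p * x * p⁻¹ := funext hper
      rw [this]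
      exact (MulAut.conj p).bijective
    obtain ⟨k', rfl⟩ : ∃ k', k = k' + 1 := ⟨k - 1, by omega⟩
    constructor
    · rw [Function.iterate_succ] at hk'
      exact hk'.1.of_comp
    · rw [Function.iterate_succ'] at hk'
      exact hk'.2.of_comp
  let σ : MulAut R := MulEquiv.ofBijective σ₀ hbij
  have hσ : σ ^ k = MulAut.conj p := by
    ext x
    have h1 : ∀ j : ℕ, (σ ^ j) x = σ₀^[j] x := by
      intro j
      induction j with
      | zero => rfl
      | succ j ih =>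
        rw [pow_succ', MulAut.mul_apply, ih, Function.iterate_succ_apply']
        rfl
    rw [h1, hper]
    rfl
  have hCR : C R := hC.of_injective _ _ R.subtype R.subtype_injective hM
  refine ⟨R ⋊[zpowersHom _ σ] Multiplicative ℤ, inferInstance,
    SemidirectProduct.inl.comp (Ψ n).rangeRestrict,
    SemidirectProduct.inr (Multiplicative.ofAdd (1 : ℤ)), Q30.FJ.sd_inner hC R hCR σ k p hk hσ,
    ?_, ?_⟩
  · intro m
    rw [MonoidHom.comp_apply, MonoidHom.comp_apply, Pool.Agent.Y961.FJ.conj_inr, zpowersHom_apply]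
    congr 1
    apply Subtype.ext
    show ψ (ψ^[n] m) = ψ^[n] (ψ m)
    rw [← Function.iterate_succ_apply, Function.iterate_succ_apply']
  · intro m hm
    have h1 : (Ψ n).rangeRestrict m = 1 := SemidirectProduct.inl_injective (hm.trans (map_one _).symm)
    exact ⟨n, congrArg Subtype.val h1⟩

/-- restriction to a subgroup which contains the image -/
theorem of_restrict {B : Type} [Group B] (i : B →* M) (π : M →* B)
    (h : HasTorus C (π.comp i)) : HasTorus C (i.comp π) := by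
  obtain ⟨Q, _, j, τ, h1, h2, h3⟩ := h
  refine ⟨Q, inferInstance, j.comp π, τ, h1, fun m => ?_, fun m hm => ?_⟩
  · rw [MonoidHom.comp_apply, h2]
    rfl
  · obtain ⟨n, hn⟩ := h3 (π m) hm
    refine ⟨n + 1, ?_⟩
    have h4 : ∀ k : ℕ, (i.comp π)^[k + 1] m = i ((π.comp i)^[k] (π m)) := by
      intro k
      induction k with
      | zero => rfl
      | succ k ih =>
        rw [Function.iterate_succ_apply', ih, Function.iterate_succ_apply' (π.comp i)]
        rfl
    rw [h4, hn, map_one]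

/-- the relation in the mapping torus -/
theorem MT_rel (ψ : M →* M) (m : M) :
    (QuotientGroup.mk' _ (Monoid.Coprod.inr (Multiplicative.ofAdd 1)) : MT ψ) *
      QuotientGroup.mk' _ (Monoid.Coprod.inl m) *
      (QuotientGroup.mk' _ (Monoid.Coprod.inr (Multiplicative.ofAdd 1)))⁻¹ =
      QuotientGroup.mk' _ (Monoid.Coprod.inl (ψ m)) := by
  have h1 : Monoid.Coprod.inr (Multiplicative.ofAdd 1) * Monoid.Coprod.inl m *
      (Monoid.Coprod.inr (Multiplicative.ofAdd 1))⁻¹ * (Monoid.Coprod.inl (ψ m))⁻¹ ∈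
      Subgroup.normalClosure {r : Monoid.Coprod M (Multiplicative ℤ) | ∃ m : M,
      r = Monoid.Coprod.inr (Multiplicative.ofAdd 1) * Monoid.Coprod.inl m *
        (Monoid.Coprod.inr (Multiplicative.ofAdd 1))⁻¹ * (Monoid.Coprod.inl (ψ m))⁻¹} :=
    Subgroup.subset_normalClosure ⟨m, rfl⟩
  have h2 := (QuotientGroup.eq_one_iff _).2 h1
  rw [← mul_inv_eq_one]
  exact h2

/-- the condition `HasTorus` means that the mapping torus is in the class -/
theorem to_MT (hC : Closed C) (ψ : M →* M) (h : HasTorus C ψ) : C (MT ψ) := by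
  obtain ⟨Q, _, j, τ, hQ, hτ, hj⟩ := h
  obtain ⟨T, hT⟩ : ∃ T : MT ψ,
    T = QuotientGroup.mk' _ (Monoid.Coprod.inr (Multiplicative.ofAdd 1)) := ⟨_, rfl⟩
  obtain ⟨J, hJ⟩ : ∃ J : M →* MT ψ, J = (QuotientGroup.mk' _).comp Monoid.Coprod.inl := ⟨_, rfl⟩
  have hrel : ∀ m, T * J m = J (ψ m) * T := by
    intro m
    have h1 := MT_rel ψ m
    rw [mul_inv_eq_iff_eq_mul] at h1
    rw [hT, hJ]
    exact h1
  have hreln : ∀ (n : ℕ) (m : M), T ^ n * J m = J (ψ^[n] m) * T ^ n := by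
    intro n
    induction n with
    | zero => intro m; simp
    | succ n ih =>
      intro m
      rw [pow_succ, mul_assoc, hrel, ← mul_assoc, ih, mul_assoc, Function.iterate_succ_apply]
  -- the homomorphism to `Q × ℤ`
  have hle : Subgroup.normalClosure
      {r : Monoid.Coprod M (Multiplicative ℤ) | ∃ m : M,
        r = Monoid.Coprod.inr (Multiplicative.ofAdd 1) * Monoid.Coprod.inl m *
          (Monoid.Coprod.inr (Multiplicative.ofAdd 1))⁻¹ * (Monoid.Coprod.inl (ψ m))⁻¹} ≤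
      (Monoid.Coprod.lift (j.prod 1) (zpowersHom (Q × Multiplicative ℤ)
        (τ, Multiplicative.ofAdd 1))).ker := by
    refine Subgroup.normalClosure_le_normal ?_
    rintro r ⟨m, rfl⟩
    rw [SetLike.mem_coe, MonoidHom.mem_ker, map_mul, map_mul, map_mul, map_inv, map_inv,
      Monoid.Coprod.lift_apply_inr, Monoid.Coprod.lift_apply_inl, Monoid.Coprod.lift_apply_inl]
    have h1 : (zpowersHom (Q × Multiplicative ℤ) (τ, Multiplicative.ofAdd 1))
        (Multiplicative.ofAdd 1) = (τ, Multiplicative.ofAdd 1) := by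
      rw [zpowersHom_apply, toAdd_ofAdd, zpow_one]
    rw [h1]
    apply Prod.ext
    · show τ * j m * τ⁻¹ * (j (ψ m))⁻¹ = 1
      rw [hτ, mul_inv_cancel]
    · show Multiplicative.ofAdd (1 : ℤ) * 1 * (Multiplicative.ofAdd (1 : ℤ))⁻¹ * 1⁻¹ = 1
      simp
  obtain ⟨Θ, hΘ⟩ : ∃ Θ : MT ψ →* Q × Multiplicative ℤ, Θ = QuotientGroup.lift _
    (Monoid.Coprod.lift (j.prod 1) (zpowersHom (Q × Multiplicative ℤ)
        (τ, Multiplicative.ofAdd 1))) hle := ⟨_, rfl⟩
  have hΘT : Θ T = (τ, Multiplicative.ofAdd 1) := by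
    rw [hΘ, hT]
    show Monoid.Coprod.lift (j.prod 1) (zpowersHom (Q × Multiplicative ℤ)
        (τ, Multiplicative.ofAdd 1)) (Monoid.Coprod.inr (Multiplicative.ofAdd 1)) = _
    rw [Monoid.Coprod.lift_apply_inr, zpowersHom_apply, toAdd_ofAdd, zpow_one]
  have hΘJ : ∀ m, Θ (J m) = (j m, 1) := by
    intro m
    rw [hΘ, hJ]
    show Monoid.Coprod.lift (j.prod 1) (zpowersHom (Q × Multiplicative ℤ)
        (τ, Multiplicative.ofAdd 1)) (Monoid.Coprod.inl m) = _
    rw [Monoid.Coprod.lift_apply_inl]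
    rfl
  -- normal forms
  have hnf : ∀ x : MT ψ, ∃ (a b : ℕ) (m : M), x = (T ^ a)⁻¹ * J m * T ^ b := by
    intro x
    obtain ⟨y, rfl⟩ := QuotientGroup.mk'_surjective _ x
    induction y using Monoid.Coprod.induction_on with
    | inl m => exact ⟨0, 0, m, by rw [hJ]; simp⟩
    | inr k =>
      have h1 : ∀ l : ℤ, (QuotientGroup.mk' _ (Monoid.Coprod.inr (Multiplicative.ofAdd l)) :
          MT ψ) = T ^ l := by
        intro l
        rw [hT, ← map_zpow, ← map_zpow, ← ofAdd_zsmul, smul_eq_mul, mul_one]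
      rcases Int.eq_nat_or_neg (Multiplicative.toAdd k) with ⟨n, h | h⟩
      · have hk : k = Multiplicative.ofAdd (n : ℤ) := h
        exact ⟨0, n, 1, by rw [hk, h1]; simp⟩
      · have hk : k = Multiplicative.ofAdd (-(n : ℤ)) := h
        exact ⟨n, 0, 1, by rw [hk, h1]; simp⟩
    | mul y z hy hz =>
      obtain ⟨a, b, m, h1⟩ := hy
      obtain ⟨c, d, m', h2⟩ := hz
      rw [map_mul, h1, h2]
      rcases le_total c b with h | h
      · refine ⟨a, b - c + d, m * ψ^[b - c] m', ?_⟩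
        obtain ⟨k, rfl⟩ := Nat.exists_eq_add_of_le h
        rw [Nat.add_sub_cancel_left, map_mul, pow_add T k d]
        have h3 := hreln k m'
        have h4 : T ^ (c + k) * (T ^ c)⁻¹ = T ^ k := by
          rw [add_comm, pow_add, mul_inv_cancel_right]
        calc (T ^ a)⁻¹ * J m * T ^ (c + k) * ((T ^ c)⁻¹ * J m' * T ^ d) =
            (T ^ a)⁻¹ * J m * (T ^ (c + k) * (T ^ c)⁻¹) * J m' * T ^ d := by
              simp only [mul_assoc]
          _ = (T ^ a)⁻¹ * J m * (T ^ k * J m') * T ^ d := by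
              rw [h4]; simp only [mul_assoc]
          _ = _ := by rw [h3]; simp only [mul_assoc]
      · refine ⟨a + (c - b), d, ψ^[c - b] m * m', ?_⟩
        obtain ⟨k, rfl⟩ := Nat.exists_eq_add_of_le h
        rw [Nat.add_sub_cancel_left, map_mul]
        have h3 := hreln k m
        have h4 : T ^ b * (T ^ (b + k))⁻¹ = (T ^ k)⁻¹ := by
          rw [add_comm, pow_add, mul_inv_rev, mul_inv_cancel_left]
        have h5 : J m * (T ^ k)⁻¹ = (T ^ k)⁻¹ * J (ψ^[k] m) := by
          rw [mul_inv_eq_iff_eq_mul, mul_assoc, ← h3, inv_mul_cancel_left]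
        calc (T ^ a)⁻¹ * J m * T ^ b * ((T ^ (b + k))⁻¹ * J m' * T ^ d) =
            (T ^ a)⁻¹ * J m * (T ^ b * (T ^ (b + k))⁻¹) * J m' * T ^ d := by
              simp only [mul_assoc]
          _ = (T ^ a)⁻¹ * (J m * (T ^ k)⁻¹) * J m' * T ^ d := by
              rw [h4]; simp only [mul_assoc]
          _ = ((T ^ a)⁻¹ * (T ^ k)⁻¹) * (J (ψ^[k] m) * J m') * T ^ d := by
              rw [h5]; simp only [mul_assoc]
          _ = _ := by rw [← mul_inv_rev, ← pow_add, add_comm k a]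
  refine hC.of_injective _ _ Θ ?_ (hC.prod _ _ hQ hC.int)
  rw [injective_iff_map_eq_one]
  intro x hx
  obtain ⟨a, b, m, rfl⟩ := hnf x
  rw [map_mul, map_mul, map_inv, map_pow, map_pow, hΘT, hΘJ] at hx
  have h1 : (τ ^ a)⁻¹ * j m * τ ^ b = 1 := congrArg Prod.fst hx
  have h2 : ((Multiplicative.ofAdd (1 : ℤ)) ^ a)⁻¹ * 1 * (Multiplicative.ofAdd (1 : ℤ)) ^ b = 1 :=
    congrArg Prod.snd hx
  have h3 : a = b := by
    have h4 := congrArg Multiplicative.toAdd h2
    rw [toAdd_mul, toAdd_mul, toAdd_inv, toAdd_pow, toAdd_pow, toAdd_ofAdd, toAdd_one] at h4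
    simp only [smul_eq_mul, mul_one, nsmul_eq_mul] at h4
    omega
  subst h3
  have h5 : j m = 1 := by
    have h6 : j m = τ ^ a * ((τ ^ a)⁻¹ * j m * τ ^ a) * (τ ^ a)⁻¹ := by group
    rw [h6, h1]
    group
  obtain ⟨n, hn⟩ := hj m h5
  have h6 : T ^ n * J m = T ^ n := by
    rw [hreln n m, hn, J.map_one, one_mul]
  have h7 : J m = 1 := mul_eq_left.1 h6
  rw [h7]
  group

end Pool.Agent.V5helper8.EH
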