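import Pool.Agent.V5helper8.EH.Fg
import Pool.Agent.V5helper8.EH.Torus

set_option autoImplicit false

/-!
# Several endomorphisms: functions on a free group
-/

namespace Pool.Agent.V5helper8.EH

open Filter
open FreeGroup (mk IsReduced isReduced_toWord toWord_injective mk_toWord mul_mk norm_inv_eq)
open Pool.Agent.Y110.FJ (ClosedE)
open Pool.Agent.Y462.SS (Closed)

/-! ## functions on a group with a translation -/

/-- functions on `F` with a translation -/
@[ext] structure Sq (F M : Type) where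
  s : F → M
  g : F

namespace Sq

variable {F M : Type} [Group F] [Group M]

instance : Mul (Sq F M) := ⟨fun a b => ⟨fun w => a.s (b.g * w) * b.s w, a.g * b.g⟩⟩
instance : One (Sq F M) := ⟨⟨fun _ => 1, 1⟩⟩
instance : Inv (Sq F M) := ⟨fun a => ⟨fun w => (a.s (a.g⁻¹ * w))⁻¹, a.g⁻¹⟩⟩

@[simp] theorem mul_s (a b : Sq F M) (w : F) : (a * b).s w = a.s (b.g * w) * b.s w := rfl
@[simp] theorem mul_g (a b : Sq F M) : (a * b).g = a.g * b.g := rfl
@[simp] theorem one_s (w : F) : (1 : Sq F M).s w = 1 := rfl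
@[simp] theorem one_g : (1 : Sq F M).g = 1 := rfl
@[simp] theorem inv_s (a : Sq F M) (w : F) : (a⁻¹).s w = (a.s (a.g⁻¹ * w))⁻¹ := rfl
@[simp] theorem inv_g (a : Sq F M) : (a⁻¹).g = a.g⁻¹ := rfl

instance : Group (Sq F M) :=
  Group.ofLeftAxioms
    (fun a b c => by
      ext w
      · simp only [mul_s, mul_g, mul_assoc]
      · simp only [mul_g, mul_assoc])
    (fun a => by
      ext w
      · simp
      · simp)
    (fun a => by
      ext w
      · simp
      · simp)

end Sq

section

variable {I M : Type} [DecidableEq I] [Group M] (γ : I × Bool → M →* M)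

/-- the composite along a word -/
def gw (L : List (I × Bool)) (m : M) : M := L.foldl (fun m x => γ x m) m

omit [DecidableEq I] in
theorem gw_mul (L : List (I × Bool)) : ∀ m m' : M, gw γ L (m * m') = gw γ L m * gw γ L m' := by
  induction L with
  | nil => intro m m'; rfl
  | cons x L ih =>
    intro m m'
    show gw γ L (γ x (m * m')) = gw γ L (γ x m) * gw γ L (γ x m')
    rw [map_mul, ih]

omit [DecidableEq I] in
theorem gw_append (L L' : List (I × Bool)) (m : M) : gw γ (L ++ L') m = gw γ L' (gw γ L m) :=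
  List.foldl_append

/-- the composite along the reduced word of an element -/
def gam (w : FreeGroup I) : M →* M := MonoidHom.mk' (gw γ w.toWord) (gw_mul γ _)

theorem gam_apply (w : FreeGroup I) (m : M) : gam γ w m = gw γ w.toWord m := rfl

theorem gam_Rd {u v : FreeGroup I} (h : Rd u v) (m : M) :
    gam γ (u * v) m = gam γ v (gam γ u m) := by
  rw [gam_apply, h, gw_append]
  rfl

theorem gam_lt (x : I × Bool) (m : M) : gam γ (lt x) m = γ x m := by
  rw [gam_apply, toWord_lt]
  rfl

/-- compatible with `γ` outside of the ball of radius `n` -/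
def EC (n : ℕ) (s : FreeGroup I → M) : Prop :=
  ∀ (w : FreeGroup I) (x : I × Bool), n ≤ FreeGroup.norm w → Rd w (lt x) →
    s (w * lt x) = γ x (s w)

variable {γ}

theorem EC.mono {n m : ℕ} {s : FreeGroup I → M} (h : EC γ n s) (hnm : n ≤ m) : EC γ m s :=
  fun w x hw => h w x (hnm.trans hw)

theorem EC.list {n : ℕ} {s : FreeGroup I → M} (h : EC γ n s) (L : List (I × Bool)) :
    ∀ v : FreeGroup I, n ≤ FreeGroup.norm v → IsReduced (v.toWord ++ L) → s (v * mk L) = gw γ L (s v) := by
  induction L with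
  | nil =>
    intro v _ _
    have : (mk [] : FreeGroup I) = 1 := rfl
    rw [this, mul_one]
    rfl
  | cons x L ih =>
    intro v hv hr
    have h1 : IsReduced (v.toWord ++ [x]) := mid_red hr ⟨[], L, by simp⟩
    have h2 : Rd v (lt x) := Rd_of_isReduced (by rw [toWord_lt]; exact h1)
    have h3 : (v * lt x).toWord = v.toWord ++ [x] := by rw [h2, toWord_lt]
    have h4 : v * mk (x :: L) = (v * lt x) * mk L := by
      rw [mul_assoc]
      rfl
    rw [h4, ih (v * lt x) (by rw [h2.norm]; omega) (by rw [h3]; simpa using hr), h v x hv h2]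
    rfl

theorem EC.Rd {n : ℕ} {s : FreeGroup I → M} (h : EC γ n s) {u v : FreeGroup I} (hv : n ≤ FreeGroup.norm v)
    (hr : Rd v u) : s (v * u) = gam γ u (s v) := by
  have := h.list u.toWord v hv hr.isReduced
  rwa [mk_toWord] at this

theorem EC.mul {n : ℕ} {s s' : FreeGroup I → M} (h : EC γ n s) (h' : EC γ n s') :
    EC γ n (fun w => s w * s' w) := by
  intro w x hw hr
  show s (w * lt x) * s' (w * lt x) = γ x (s w * s' w)
  rw [h w x hw hr, h' w x hw hr, map_mul]

theorem EC.inv {n : ℕ} {s : FreeGroup I → M} (h : EC γ n s) : EC γ n (fun w => (s w)⁻¹) := by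
  intro w x hw hr
  show (s (w * lt x))⁻¹ = γ x (s w)⁻¹
  rw [h w x hw hr, map_inv]

theorem EC.one (n : ℕ) : EC γ n (fun _ => (1 : M)) := fun _ x _ _ => (map_one (γ x)).symm

theorem EC.shift {n : ℕ} {s : FreeGroup I → M} (h : EC γ n s) (g : FreeGroup I) :
    EC γ (n + FreeGroup.norm g) (fun w => s (g * w)) := by
  intro w x hw hr
  show s (g * (w * lt x)) = γ x (s (g * w))
  rw [← mul_assoc]
  refine h _ x ?_ (EH.shift (by omega) hr)
  have := norm_le_mul g w
  omega

theorem EC.gam (m : M) : EC γ 0 (fun w => gam γ w m) := by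
  intro w x _ hr
  show EH.gam γ (w * lt x) m = γ x (EH.gam γ w m)
  rw [gam_Rd γ hr, gam_lt]

variable (γ)

/-- the group of eventually compatible functions with a translation -/
def Pq : Subgroup (Sq (FreeGroup I) M) where
  carrier := {a | ∃ n, EC γ n a.s}
  mul_mem' := by
    rintro a b ⟨n, hn⟩ ⟨m, hm⟩
    exact ⟨max (n + FreeGroup.norm b.g) m, ((hn.shift b.g).mono (le_max_left _ _)).mul
      (hm.mono (le_max_right _ _))⟩
  one_mem' := ⟨0, EC.one 0⟩
  inv_mem' := by
    rintro a ⟨n, hn⟩
    exact ⟨n + FreeGroup.norm a.g⁻¹, (hn.shift a.g⁻¹).inv⟩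

/-- the group of eventually compatible functions -/
def S0 : Subgroup (FreeGroup I → M) where
  carrier := {s | ∃ n, EC γ n s}
  mul_mem' := by
    rintro a b ⟨n, hn⟩ ⟨m, hm⟩
    exact ⟨max n m, (hn.mono (le_max_left _ _)).mul (hm.mono (le_max_right _ _))⟩
  one_mem' := ⟨0, EC.one 0⟩
  inv_mem' := by
    rintro a ⟨n, hn⟩
    exact ⟨n, hn.inv⟩

variable {C : ∀ (G : Type) [Group G], Prop}

/-- the ball -/
abbrev Ball (I : Type) [DecidableEq I] (n : ℕ) : Type := {w : FreeGroup I // FreeGroup.norm w ≤ n}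

instance [Finite I] (n : ℕ) : Finite (Ball I n) := by
  have h1 := List.finite_length_le (I × Bool) n
  have : Finite {l : List (I × Bool) | l.length ≤ n} := h1.to_subtype
  refine Finite.of_injective (fun w : Ball I n =>
    (⟨w.1.toWord, w.2⟩ : {l : List (I × Bool) | l.length ≤ n})) ?_
  intro a b h
  apply Subtype.ext
  exact toWord_injective (congrArg Subtype.val h)

theorem EC.ext {n : ℕ} {s s' : FreeGroup I → M} (h : EC γ n s) (h' : EC γ n s')
    (he : ∀ w, FreeGroup.norm w ≤ n → s w = s' w) : s = s' := by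
  funext w
  rcases le_total (FreeGroup.norm w) n with hw | hw
  · exact he w hw
  · have h1 : w.toWord = w.toWord.take n ++ w.toWord.drop n := (List.take_append_drop n _).symm
    have h2 : IsReduced (w.toWord.take n) :=
      mid_red (isReduced_toWord (x := w)) ⟨[], w.toWord.drop n, by simp⟩
    have h3 : (mk (w.toWord.take n) : FreeGroup I).toWord = w.toWord.take n :=
      toWord_of_isReduced h2
    have h4 : FreeGroup.norm (mk (w.toWord.take n) : FreeGroup I) = n := by
      unfold FreeGroup.norm at hw ⊢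
      rw [h3, List.length_take]
      omega
    have h5 : w = mk (w.toWord.take n) * mk (w.toWord.drop n) := by
      rw [mul_mk, ← h1, mk_toWord]
    have h6 : IsReduced ((mk (w.toWord.take n) : FreeGroup I).toWord ++ w.toWord.drop n) := by
      rw [h3, ← h1]
      exact isReduced_toWord
    rw [h5, h.list _ _ h4.ge h6, h'.list _ _ h4.ge h6, he _ h4.le]

theorem C_S0 [Finite I] (hC : Closed C) (hM : C M) : C (S0 γ) := by
  refine Pool.Agent.Y430.SS.of_directed hC (S0 γ) ℕ (fun i j => ⟨max i j, le_max_left _ _,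
    le_max_right _ _⟩) (fun n =>
      { carrier := {s | EC γ n (s : FreeGroup I → M)}
        mul_mem' := fun ha hb => ha.mul hb
        one_mem' := EC.one n
        inv_mem' := fun ha => ha.inv }) (fun i j hij s hs => hs.mono hij) (fun s => s.2) ?_
  intro n
  refine hC.of_injective _ (Ball I n → M)
    (MonoidHom.mk' (fun s w => ((s : S0 γ) : FreeGroup I → M) w.1) fun _ _ => rfl) ?_
    (Pool.Agent.Y812.SS.C_pow hC (Ball I n) M hM)
  intro s s' h
  apply Subtype.ext
  apply Subtype.ext
  exact EC.ext γ s.2 s'.2 fun w hw => congrFun h ⟨w, hw⟩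

/-! ## the subgroup over a cyclically reduced element -/

/-- a fundamental domain, with overlaps, for the translation by `g` -/
def D0 (g h : FreeGroup I) : Prop := FreeGroup.norm h ≤ FreeGroup.norm (g * h) ∧ FreeGroup.norm h ≤ FreeGroup.norm (g⁻¹ * h)

theorem D0_one (g : FreeGroup I) : D0 g 1 := by
  constructor <;> rw [FreeGroup.norm_one] <;> exact Nat.zero_le _

theorem D0_lt {g h : FreeGroup I} {x : I × Bool} (hh : FreeGroup.norm g ≤ FreeGroup.norm h) (hr : Rd h (lt x)) :
    D0 g (h * lt x) ↔ D0 g h := by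
  unfold D0
  rw [← mul_assoc, ← mul_assoc, hr.norm, (shift hh hr).norm,
    (shift (g := g⁻¹) (by rw [norm_inv_eq]; exact hh) hr).norm, norm_lt]
  omega

theorem exists_D0 (g w : FreeGroup I) : ∃ j : ℤ, D0 g (g ^ (-j) * w) := by
  obtain ⟨j, hj⟩ := Nat.sInf_mem (s := Set.range fun j : ℤ => FreeGroup.norm (g ^ (-j) * w)) ⟨_, 0, rfl⟩
  have hle : ∀ i : ℤ, FreeGroup.norm (g ^ (-j) * w) ≤ FreeGroup.norm (g ^ (-i) * w) := fun i => by
    have h1 : FreeGroup.norm (g ^ (-j) * w) = sInf (Set.range fun j : ℤ => FreeGroup.norm (g ^ (-j) * w)) := hj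
    rw [h1]
    exact Nat.sInf_le ⟨i, rfl⟩
  refine ⟨j, ?_, ?_⟩
  · have h1 := hle (j - 1)
    rwa [show -(j - 1) = 1 + -j by ring, zpow_add, zpow_one, mul_assoc] at h1
  · have h1 := hle (j + 1)
    rwa [show -(j + 1) = -1 + -j by ring, zpow_add, zpow_neg_one, mul_assoc] at h1

open Classical in
/-- restriction to the domain -/
noncomputable def cut (g : FreeGroup I) (s : FreeGroup I → M) (h : FreeGroup I) : M :=
  if D0 g h then s h else 1

theorem cut_EC {g : FreeGroup I} {n : ℕ} {s : FreeGroup I → M} (hs : EC γ n s) :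
    EC γ (max n (FreeGroup.norm g)) (cut g s) := by
  intro h x hh hr
  unfold cut
  have h1 := D0_lt (g := g) ((le_max_right _ _).trans hh) hr
  by_cases h2 : D0 g h
  · rw [if_pos h2, if_pos (h1.2 h2), hs h x ((le_max_left _ _).trans hh) hr]
  · rw [if_neg h2, if_neg (fun h3 => h2 (h1.1 h3)), map_one]

/-- the functions given by the value at `1` and the transport along `g' h` -/
noncomputable def ii (g g' : FreeGroup I) : M →* S0 γ :=
  MonoidHom.mk' (fun m => ⟨cut g (fun h => gam γ (g' * h) m),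
    ⟨_, cut_EC γ ((EC.gam m).shift g')⟩⟩) (by
    intro m m'
    apply Subtype.ext
    funext h
    show cut g (fun h => gam γ (g' * h) (m * m')) h =
      cut g (fun h => gam γ (g' * h) m) h * cut g (fun h => gam γ (g' * h) m') h
    unfold cut
    split_ifs
    · exact map_mul _ _ _
    · exact (mul_one 1).symm)

/-- the value at `1` -/
def ev1 : S0 γ →* M := MonoidHom.mk' (fun s => (s : FreeGroup I → M) 1) fun _ _ => rfl

theorem ev1_ii (g g' : FreeGroup I) : (ev1 γ).comp (ii γ g g') = gam γ g' := by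
  ext m
  show cut g (fun h => gam γ (g' * h) m) 1 = gam γ g' m
  unfold cut
  rw [if_pos (D0_one g)]
  beta_reduce
  rw [mul_one]

theorem torus_ii {g g' : FreeGroup I} (h : HasTorus C (gam γ g')) :
    HasTorus C ((ii γ g g').comp (ev1 γ)) :=
  of_restrict _ _ (by rw [ev1_ii]; exact h)

/-- the translation part -/
def prg : Pq γ →* FreeGroup I := MonoidHom.mk' (fun a => (a : Sq (FreeGroup I) M).g) fun _ _ => rfl

theorem C_Zg [Finite I] (hC : ClosedE C) (hM : C M) {g : FreeGroup I} (hg : Rd g g) (hg1 : g ≠ 1)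
    (h1 : HasTorus C (gam γ g)) (h2 : HasTorus C (gam γ g⁻¹)) :
    C ↥((Subgroup.zpowers g).comap (prg γ)) := by
  have hinf : ∀ k l : ℤ, g ^ k = g ^ l → k = l := by
    have h0 : ∀ n : ℕ, g ^ n = 1 → n = 0 := by
      intro n hn
      have := norm_pow hg hg1 n
      rw [hn, FreeGroup.norm_one] at this
      omega
    have h0' : ∀ k : ℤ, g ^ k = 1 → k = 0 := by
      intro k hk
      rcases Int.eq_nat_or_neg k with ⟨n, rfl | rfl⟩
      · rw [h0 n (by rwa [zpow_natCast] at hk)]; rfl
      · rw [zpow_neg, inv_eq_one, zpow_natCast] at hk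
        rw [h0 n hk]; rfl
    intro k l hkl
    have := h0' (k - l) (by rw [zpow_sub, hkl, mul_inv_cancel])
    omega
  have hk : ∀ a : ↥((Subgroup.zpowers g).comap (prg γ)), ∃ k : ℤ,
      g ^ k = ((a : Pq γ) : Sq (FreeGroup I) M).g := fun a => a.2
  choose κ hκ using hk
  have hsh : ∀ (a : Pq γ) (u : FreeGroup I), cut g (fun h => (a : Sq (FreeGroup I) M).s (u * h)) ∈
      S0 γ := by
    intro a u
    obtain ⟨n, hn⟩ := a.2
    exact ⟨_, cut_EC γ (hn.shift u)⟩
  let R : ↥((Subgroup.zpowers g).comap (prg γ)) →* Sh (S0 γ) :=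
    MonoidHom.mk' (fun a => ⟨fun j => ⟨_, hsh (a : Pq γ) (g ^ j)⟩, κ a⟩) (by
      intro a b
      refine Sh.ext ?_ ?_
      · funext j
        apply Subtype.ext
        funext h
        show cut g (fun h => ((a : Pq γ) : Sq (FreeGroup I) M).s
            (((b : Pq γ) : Sq (FreeGroup I) M).g * (g ^ j * h)) *
            ((b : Pq γ) : Sq (FreeGroup I) M).s (g ^ j * h)) h =
          cut g (fun h => ((a : Pq γ) : Sq (FreeGroup I) M).s (g ^ (j + κ b) * h)) h *
          cut g (fun h => ((b : Pq γ) : Sq (FreeGroup I) M).s (g ^ j * h)) h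
        unfold cut
        split_ifs
        · beta_reduce
          rw [← hκ b, ← mul_assoc, ← zpow_add, add_comm]
        · exact (mul_one 1).symm
      · apply hinf
        show g ^ κ (a * b) = g ^ (κ a + κ b)
        rw [hκ, zpow_add, hκ, hκ]
        rfl)
  have hR : Function.Injective R := by
    intro a b hab
    apply Subtype.ext
    apply Subtype.ext
    have e1 : κ a = κ b := congrArg Sh.n hab
    refine Sq.ext ?_ ?_
    · funext w
      obtain ⟨j, hj⟩ := exists_D0 g w
      have e2 : cut g (fun h => ((a : Pq γ) : Sq (FreeGroup I) M).s (g ^ j * h)) =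
          cut g (fun h => ((b : Pq γ) : Sq (FreeGroup I) M).s (g ^ j * h)) :=
        congrArg Subtype.val (congrFun (congrArg Sh.s hab) j)
      have e3 := congrFun e2 (g ^ (-j) * w)
      unfold cut at e3
      rw [if_pos hj, if_pos hj] at e3
      beta_reduce at e3
      rw [← mul_assoc, ← zpow_add, add_neg_cancel, zpow_zero, one_mul] at e3
      exact e3
    · rw [← hκ a, ← hκ b, e1]
  have hRm : ∀ a, R a ∈ Pg ((ii γ g g⁻¹).comp (ev1 γ)) ((ii γ g g).comp (ev1 γ)) := by
    intro a
    obtain ⟨n, hn⟩ := (a : Pq γ).2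
    have key : ∀ g' : FreeGroup I, Rd g' g' → g' ≠ 1 → (∀ h, D0 g h → FreeGroup.norm h ≤ FreeGroup.norm (g' * h)) →
        ∀ i : ℕ, n ≤ i → ∀ h, cut g (fun h => ((a : Pq γ) : Sq (FreeGroup I) M).s
          (g' ^ (i + 1) * h)) h =
        cut g (fun h => gam γ (g' * h) (cut g (fun h => ((a : Pq γ) : Sq (FreeGroup I) M).s
          (g' ^ i * h)) 1)) h := by
      intro g' hg' hg1' hD i hi h
      unfold cut
      by_cases hh : D0 g h
      · rw [if_pos hh, if_pos hh, if_pos (D0_one g)]
        beta_reduce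
        rw [mul_one, pow_succ, mul_assoc]
        exact hn.Rd (hi.trans (norm_pow hg' hg1' i))
          (pow_Rd hg' hg1' i (head_of_norm_le hg1' (hD h hh)))
      · rw [if_neg hh, if_neg hh]
    constructor
    · refine eventually_atTop.2 ⟨n, fun i hi => ?_⟩
      obtain ⟨k, rfl⟩ : ∃ k : ℕ, i = k := ⟨i.toNat, by omega⟩
      apply Subtype.ext
      funext h
      have h3 := key g hg hg1 (fun h hh => hh.1) k (by omega) h
      show cut g (fun h => ((a : Pq γ) : Sq (FreeGroup I) M).s (g ^ (1 * ((k : ℤ) + 1)) * h)) h =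
        cut g (fun h => gam γ (g * h) (cut g (fun h => ((a : Pq γ) : Sq (FreeGroup I) M).s
          (g ^ (1 * (k : ℤ)) * h)) 1)) h
      rw [one_mul, one_mul, zpow_natCast, show (k : ℤ) + 1 = ((k + 1 : ℕ) : ℤ) by push_cast; rfl,
        zpow_natCast]
      exact h3
    · refine eventually_atTop.2 ⟨n, fun i hi => ?_⟩
      obtain ⟨k, rfl⟩ : ∃ k : ℕ, i = k := ⟨i.toNat, by omega⟩
      apply Subtype.ext
      funext h
      have h3 := key g⁻¹ (Rd_inv hg) (inv_ne_one.2 hg1) (fun h hh => hh.2) k (by omega) h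
      show cut g (fun h => ((a : Pq γ) : Sq (FreeGroup I) M).s (g ^ (-1 * ((k : ℤ) + 1)) * h)) h =
        cut g (fun h => gam γ (g⁻¹ * h) (cut g (fun h => ((a : Pq γ) : Sq (FreeGroup I) M).s
          (g ^ (-1 * (k : ℤ)) * h)) 1)) h
      rw [neg_one_mul, neg_one_mul, zpow_neg, zpow_neg, zpow_natCast,
        show (k : ℤ) + 1 = ((k + 1 : ℕ) : ℤ) by push_cast; rfl, zpow_natCast, ← inv_pow, ← inv_pow]
      exact h3
  refine hC.base.of_injective _ _ (R.codRestrict _ hRm) ?_
    (C_Pg hC (C_S0 γ hC.base hM) (torus_ii γ h2) (torus_ii γ h1))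
  intro a b hab
  exact hR (congrArg Subtype.val hab)

/-- free groups are in the class -/
theorem C_free (hC : ClosedE C) (X : Type) : C (FreeGroup X) := by
  let _ : MulAction Unit X :=
    { smul := fun _ x => x
      one_smul := fun _ => rfl
      mul_smul := fun _ _ _ => rfl }
  have h1 := Pool.Agent.Y961.FJ.t_perm Pool.Agent.Y529.FJ.t_ext C hC X Unit
    (hC.base.of_injective Unit (Multiplicative ℤ) 1 (fun _ _ _ => Subsingleton.elim _ _)
      hC.base.int)
  exact hC.base.of_injective _ _ SemidirectProduct.inl SemidirectProduct.inl_injective h1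

/-- **the group of eventually compatible functions with a translation is in the class** -/
theorem C_Pq [Finite I] (hC : ClosedE C) (hM : C M)
    (hT : ∀ g : FreeGroup I, g ≠ 1 → Rd g g → HasTorus C (gam γ g)) : C (Pq γ) := by
  refine Pool.Agent.Y529.FJ.t_ext C hC (Pq γ) (prg γ).ker ?_ ?_ ?_
  · refine hC.base.of_injective _ (S0 γ) (MonoidHom.mk'
      (fun a => ⟨((a : Pq γ) : Sq (FreeGroup I) M).s, (a : Pq γ).2⟩) fun a b => ?_) ?_
      (C_S0 γ hC.base hM)
    · apply Subtype.ext
      funext w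
      have hb : ((b : Pq γ) : Sq (FreeGroup I) M).g = 1 := b.2
      show ((a : Pq γ) : Sq (FreeGroup I) M).s (((b : Pq γ) : Sq (FreeGroup I) M).g * w) * _ = _
      rw [hb, one_mul]
      rfl
    · intro a b hab
      apply Subtype.ext
      apply Subtype.ext
      have ha : ((a : Pq γ) : Sq (FreeGroup I) M).g = 1 := a.2
      have hb : ((b : Pq γ) : Sq (FreeGroup I) M).g = 1 := b.2
      exact Sq.ext (congrArg Subtype.val hab) (ha.trans hb.symm)
  · exact hC.base.of_injective _ _ (QuotientGroup.kerLift (prg γ))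
      (QuotientGroup.kerLift_injective (prg γ)) (C_free hC I)
  · intro x hx
    obtain ⟨h, hh⟩ := exists_cyc (prg γ x)
    have hx1 : prg γ x ≠ 1 := by
      have := hx 1 one_pos
      rwa [pow_one] at this
    have hg1 : h * prg γ x * h⁻¹ ≠ 1 := fun h0 => hx1 (by
      rw [mul_inv_eq_one, mul_eq_left] at h0
      exact h0)
    let c : Pq γ := ⟨⟨fun _ => 1, h⟩, 0, EC.one 0⟩
    have hle : ∀ y ∈ (prg γ).ker ⊔ Subgroup.zpowers x, c * y * c⁻¹ ∈
        (Subgroup.zpowers (h * prg γ x * h⁻¹)).comap (prg γ) := by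
      intro y hy
      have h1 : prg γ y ∈ Subgroup.zpowers (prg γ x) := by
        have h2 : (prg γ).ker ⊔ Subgroup.zpowers x ≤
            (Subgroup.zpowers (prg γ x)).comap (prg γ) := by
          refine sup_le ?_ ?_
          · intro z hz
            rw [Subgroup.mem_comap, (MonoidHom.mem_ker.1 hz)]
            exact one_mem _
          · rw [Subgroup.zpowers_le]
            exact Subgroup.mem_zpowers _
        exact h2 hy
      obtain ⟨k, hk⟩ := h1
      refine ⟨k, ?_⟩
      have hk' : prg γ x ^ k = prg γ y := hk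
      show (h * prg γ x * h⁻¹) ^ k = prg γ (c * y * c⁻¹)
      rw [conj_zpow, hk', map_mul, map_mul, map_inv]
      rfl
    refine hC.base.of_injective _ _ (MonoidHom.mk' (fun y => ⟨c * y * c⁻¹, hle y y.2⟩) ?_) ?_
      (C_Zg γ hC hM hh hg1 (hT _ hg1 hh) (hT _ (inv_ne_one.2 hg1) (Rd_inv hh)))
    · intro y z
      apply Subtype.ext
      show c * (y * z) * c⁻¹ = c * y * c⁻¹ * (c * z * c⁻¹)
      group
    · intro y z hyz
      have h1 : c * (y : Pq γ) * c⁻¹ = c * z * c⁻¹ := congrArg Subtype.val hyz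
      exact Subtype.ext (mul_left_cancel (mul_right_cancel h1))

end

end Pool.Agent.V5helper8.EH
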